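import Pool.Agent.Lib.MP_89352f_al.Defs

namespace Pool.Agent.Lib.MP_89352f_al

open FreeGroup (of)

set_option linter.unusedSectionVars false

theorem nielsen_zero (n : ℕ) (hn : 2 ≤ n) :
    nielsen n hn (of ⟨0, by omega⟩) = of ⟨1, by omega⟩ * of ⟨0, by omega⟩ := by
  simp [nielsen]

theorem nielsen_ne (n : ℕ) (hn : 2 ≤ n) (i : Fin n) (h : i ≠ ⟨0, by omega⟩) :
    nielsen n hn (of i) = of i := by
  simp [nielsen, h]

theorem nielsen_pow_ne (n : ℕ) (hn : 2 ≤ n) (m : ℕ) (i : Fin n) (h : i ≠ ⟨0, by omega⟩) :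
    (nielsen n hn ^ m) (of i) = of i := by
  induction m with
  | zero => simp
  | succ m ih => rw [pow_succ, MulAut.mul_apply, nielsen_ne n hn i h, ih]

theorem nielsen_pow_zero (n : ℕ) (hn : 2 ≤ n) (m : ℕ) :
    (nielsen n hn ^ m) (of ⟨0, by omega⟩) = of ⟨1, by omega⟩ ^ m * of ⟨0, by omega⟩ := by
  induction m with
  | zero => simp
  | succ m ih =>
    rw [pow_succ, MulAut.mul_apply, nielsen_zero, map_mul, ih,
      nielsen_pow_ne n hn m _ (by simp), ← mul_assoc, ← pow_succ']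

/-- Criterion for an element of infinite order in `Q(n,m)`. -/
theorem exists_infinite_order (n : ℕ) (hn : 2 ≤ n) (m : ℕ)
    (N : Subgroup (MulAut (FreeGroup (Fin n))))
    (hN : ∀ φ : MulAut (FreeGroup (Fin n)), φ * nielsen n hn ^ m * φ⁻¹ ∈ N)
    (γ : MulAut (FreeGroup (Fin n))) (hγ : ∀ k : ℕ, 0 < k → γ ^ k ∉ N) :
    ∃ g : Q n hn m, ¬ IsOfFinOrder g := by
  refine ⟨QuotientGroup.mk γ, ?_⟩
  rw [isOfFinOrder_iff_pow_eq_one]
  rintro ⟨k, hk, h⟩
  rw [← QuotientGroup.mk_pow, QuotientGroup.eq_one_iff] at h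
  refine hγ k hk ?_
  have hle : Subgroup.normalClosure {nielsen n hn ^ m} ≤ N := by
    unfold Subgroup.normalClosure
    rw [Subgroup.closure_le]
    intro x hx
    rw [Group.mem_conjugatesOfSet_iff] at hx
    obtain ⟨a, ha, hc⟩ := hx
    rw [Set.mem_singleton_iff] at ha
    subst ha
    rw [isConj_iff] at hc
    obtain ⟨c, rfl⟩ := hc
    exact hN c
  exact hle h

/-- Affine group: pairs (linear part, translation part). -/
@[ext] structure Aff (G V : Type*) where
  l : G
  t : V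

namespace Aff

variable {G V : Type*} [Group G] [AddCommGroup V] [DistribMulAction G V]

instance : Mul (Aff G V) := ⟨fun x y => ⟨x.l * y.l, x.t + x.l • y.t⟩⟩
instance : One (Aff G V) := ⟨⟨1, 0⟩⟩
instance : Inv (Aff G V) := ⟨fun x => ⟨x.l⁻¹, -(x.l⁻¹ • x.t)⟩⟩

@[simp] theorem mul_l (x y : Aff G V) : (x * y).l = x.l * y.l := rfl
@[simp] theorem mul_t (x y : Aff G V) : (x * y).t = x.t + x.l • y.t := rfl
@[simp] theorem one_l : (1 : Aff G V).l = 1 := rfl
@[simp] theorem one_t : (1 : Aff G V).t = 0 := rfl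
@[simp] theorem inv_l (x : Aff G V) : (x⁻¹).l = x.l⁻¹ := rfl
@[simp] theorem inv_t (x : Aff G V) : (x⁻¹).t = -(x.l⁻¹ • x.t) := rfl

instance : Group (Aff G V) :=
  Group.ofLeftAxioms
    (fun x y z => by ext <;> simp [mul_assoc, add_assoc, smul_add, mul_smul])
    (fun x => by ext <;> simp)
    (fun x => by ext <;> simp)

/-- The linear part as a homomorphism. -/
def lin : Aff G V →* G where
  toFun := Aff.l
  map_one' := rfl
  map_mul' _ _ := rfl

@[simp] theorem lin_apply (x : Aff G V) : lin x = x.l := rfl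

theorem pow_l (x : Aff G V) (k : ℕ) : (x ^ k).l = x.l ^ k := map_pow lin x k

theorem pow_t (x : Aff G V) (k : ℕ) : (x ^ k).t = ∑ j ∈ Finset.range k, x.l ^ j • x.t := by
  induction k with
  | zero => simp
  | succ k ih => rw [pow_succ, mul_t, ih, pow_l, Finset.sum_range_succ]

end Aff

/-- If every primitive element has `m`-th power `1` under `θ`, conjugates of the `m`-th power of
the Nielsen move fix `θ`. -/
theorem conj_fix {E : Type*} [Group E] (n : ℕ) (hn : 2 ≤ n) (m : ℕ) (θ : FreeGroup (Fin n) →* E)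
    (φ : MulAut (FreeGroup (Fin n))) (h : θ (φ (of ⟨1, by omega⟩)) ^ m = 1)
    (x : FreeGroup (Fin n)) : θ ((φ * nielsen n hn ^ m * φ⁻¹) x) = θ x := by
  have key : (θ.comp φ.toMonoidHom).comp (nielsen n hn ^ m).toMonoidHom
      = θ.comp φ.toMonoidHom := by
    ext i
    by_cases hi : i = ⟨0, by omega⟩
    · subst hi
      simp [nielsen_pow_zero, h]
    · simp [nielsen_pow_ne n hn m i hi]
  have := DFunLike.congr_fun key (φ⁻¹ x)
  simpa using this

/-- The automorphisms fixing a homomorphism `θ`. -/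
def fixer {F E : Type*} [Group F] [Group E] (θ : F →* E) : Subgroup (MulAut F) where
  carrier := {φ | ∀ x, θ (φ x) = θ x}
  one_mem' := fun _ => rfl
  mul_mem' := fun {a b} ha hb x => by rw [MulAut.mul_apply, ha, hb]
  inv_mem' := fun {a} ha x => by
    have := ha (a⁻¹ x)
    simpa using this.symm

end Pool.Agent.Lib.MP_89352f_al
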