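import Pool.Agent.Lib.MP_89352f_al.Basic

namespace Pool.Agent.Lib.MP_89352f_al

open FreeGroup (of)

/-- In a torsion-free ring with a central unit `Z` with `Z^p = 1`, an element killed by the norm
of `Z` and fixed by `Z^j`, `p ∤ j`, vanishes. -/
theorem fixed_zero {R : Type*} [Ring R] (htf : ∀ (k : ℕ) (x : R), 0 < k → k • x = 0 → x = 0)
    (p : ℕ) (hp : p.Prime) (Z : R) (hZ : Z ^ p = 1) (j : ℕ) (hj : ¬ p ∣ j) (w : R)
    (hw : (∑ k ∈ Finset.range p, Z ^ k) * w = 0) (hf : Z ^ j * w = w) : w = 0 := by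
  have hc : Nat.Coprime j p := ((Nat.Prime.coprime_iff_not_dvd hp).2 hj).symm
  obtain ⟨i, -, hi⟩ := Nat.exists_mul_mod_eq_one_of_coprime hc hp.one_lt
  have h1 : ∀ i : ℕ, (Z ^ j) ^ i * w = w := by
    intro i
    induction i with
    | zero => simp
    | succ i ih => rw [pow_succ, mul_assoc, hf, ih]
  have h2 : Z * w = w := by
    have := h1 i
    rw [← pow_mul, ← Nat.div_add_mod (j * i) p, hi, pow_add, pow_mul, hZ] at this
    simpa using this
  have h3 : ∀ k : ℕ, Z ^ k * w = w := by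
    intro k
    induction k with
    | zero => simp
    | succ k ih => rw [pow_succ, mul_assoc, h2, ih]
  rw [Finset.sum_mul] at hw
  simp only [h3, Finset.sum_const, Finset.card_range] at hw
  exact htf p w hp.pos hw

theorem central_ring {R : Type*} [Ring R]
    (htf : ∀ (k : ℕ) (x : R), 0 < k → k • x = 0 → x = 0)
    (n : ℕ) (hn : 2 ≤ n) (p q m : ℕ) (hp : p.Prime) (hm : q * p ∣ m)
    (ρ : FreeGroup (Fin n) →* Rˣ) (Z : Rˣ) (hZ : Z ^ p = 1) (hZ1 : Z ≠ 1)
    (hc : ∀ x, Commute Z (ρ x))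
    (hpr : ∀ (φ : MulAut (FreeGroup (Fin n))) (i : Fin n), ∃ j, ¬ p ∣ j ∧ ρ (φ (of i)) ^ q = Z ^ j) :
    ∃ g : Q n hn m, ¬ IsOfFinOrder g := by
  classical
  set N : R := ∑ k ∈ Finset.range p, (Z : R) ^ k with hN
  have hZR : (Z : R) ^ p = 1 := by rw [← Units.val_pow_eq_pow_val, hZ, Units.val_one]
  have hNc : ∀ u : Rˣ, Commute Z u → N * u = u * N := by
    intro u hu
    have : Commute (Z : R) u := Commute.units_val hu
    exact (Commute.sum_left _ _ _ fun k _ => this.pow_left k).eq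
  let v0 : R := 1 - Z
  have hv0 : N * v0 = 0 := by
    have := geom_sum_mul_neg (Z : R) p
    rw [hZR, sub_self] at this
    exact this
  let θ : FreeGroup (Fin n) →* Aff Rˣ R :=
    FreeGroup.lift fun i => ⟨ρ (of i), if i = ⟨1, by omega⟩ then v0 else 0⟩
  have hl : ∀ x, (θ x).l = ρ x := by
    have : Aff.lin.comp θ = ρ := by
      ext i
      simp [θ]
    intro x
    exact DFunLike.congr_fun this x
  have ht : ∀ x, N * (θ x).t = 0 := by
    intro x
    induction x using FreeGroup.induction_on with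
    | C1 => simp
    | of i =>
      by_cases h : i = ⟨1, by omega⟩
      · simp [θ, h, hv0]
      · simp [θ, h]
    | inv_of i ih =>
      rw [map_inv, Aff.inv_t, hl, Units.smul_def, smul_eq_mul, mul_neg, ← mul_assoc,
        hNc _ (hc _).inv_right, mul_assoc, ih]
      simp
    | mul x y ihx ihy =>
      rw [map_mul, Aff.mul_t, hl, Units.smul_def, smul_eq_mul, mul_add, ihx, ← mul_assoc,
        hNc _ (hc _), mul_assoc, ihy]
      simp
  have hfz := fixed_zero htf p hp (Z : R) hZR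
  have hpow : ∀ (φ : MulAut (FreeGroup (Fin n))) (i : Fin n), θ (φ (of i)) ^ m = 1 := by
    intro φ i
    obtain ⟨j, hj, hρ⟩ := hpr φ i
    obtain ⟨r, rfl⟩ := hm
    have h1 : (θ (φ (of i)) ^ q) ^ p = 1 := by
      have hl' : (θ (φ (of i)) ^ q).l = Z ^ j := by rw [Aff.pow_l, hl, hρ]
      have ht' : N * (θ (φ (of i)) ^ q).t = 0 := by rw [← map_pow]; exact ht _
      ext1
      · rw [Aff.pow_l, hl', ← pow_mul, mul_comm, pow_mul, hZ, one_pow]; rfl
      · rw [Aff.pow_t, hl', Aff.one_t]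
        set t := (θ (φ (of i)) ^ q).t
        have e1 : ∑ k ∈ Finset.range p, (Z ^ j) ^ k • t
            = (∑ k ∈ Finset.range p, ((Z : R) ^ j) ^ k) * t := by
          rw [Finset.sum_mul]
          refine Finset.sum_congr rfl fun k _ => ?_
          simp [Units.smul_def]
        rw [e1]
        have hcomm : Commute N (∑ k ∈ Finset.range p, ((Z : R) ^ j) ^ k) :=
          Commute.sum_left _ _ _ fun k _ => Commute.sum_right _ _ _ fun l _ =>
            (((Commute.refl (Z : R)).pow_right j).pow_right l).pow_left k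
        refine hfz j hj _ ?_ ?_
        · rw [← mul_assoc, hcomm.eq, mul_assoc, ht', mul_zero]
        · have := mul_geom_sum ((Z : R) ^ j) p
          rw [← pow_mul, mul_comm j p, pow_mul, hZR, one_pow, sub_self, sub_mul, one_mul,
            sub_eq_zero] at this
          rw [← mul_assoc, this]
    rw [pow_mul, pow_mul, h1, one_pow]
  obtain ⟨j, hj, hρ⟩ := hpr 1 ⟨0, by omega⟩
  simp only [MulAut.one_apply] at hρ
  let a0 : FreeGroup (Fin n) := of ⟨0, by omega⟩
  let a1 : FreeGroup (Fin n) := of ⟨1, by omega⟩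
  have h0 : θ (a0 ^ q) = ⟨Z ^ j, 0⟩ := by
    ext1
    · rw [hl, map_pow, hρ]
    · rw [map_pow, Aff.pow_t]
      simp [θ, a0]
  have h1 : θ a1 = ⟨ρ a1, v0⟩ := by simp [θ, a1]
  let g := a1 * a0 ^ q * a1⁻¹ * (a0 ^ q)⁻¹
  have hcj : ρ a1 * Z ^ j = Z ^ j * ρ a1 := ((hc a1).pow_left j).eq.symm
  have hg : θ g = ⟨1, v0 - (Z : R) ^ j * v0⟩ := by
    simp only [g, map_mul, map_inv, h0, h1]
    ext1
    · simp [hcj]
    · simp only [Aff.mul_t, Aff.mul_l, Aff.inv_t, smul_zero, neg_zero, add_zero, hcj, smul_neg,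
        smul_smul, mul_inv_cancel_right]
      simp [Units.smul_def, sub_eq_add_neg]
  have hgk : ∀ k : ℕ, θ (g ^ k) = ⟨1, k • (v0 - (Z : R) ^ j * v0)⟩ := by
    intro k
    rw [map_pow, hg]
    ext1
    · simp [Aff.pow_l]
    · simp [Aff.pow_t, mul_sub]
  refine exists_infinite_order n hn m (fixer θ) (fun φ x => conj_fix n hn m θ φ (hpow φ _) x)
    (MulAut.conj g) ?_
  intro k hk hmem
  have h2 := hmem (a0 ^ q)
  rw [← map_pow, MulAut.conj_apply, map_mul, map_mul, map_inv, hgk, h0] at h2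
  have h3 := congrArg Aff.t h2
  simp only [Aff.mul_t, Aff.mul_l, Aff.inv_t, smul_zero, add_zero, inv_one, one_smul, one_mul,
    smul_neg, Units.smul_def, smul_eq_mul, Units.val_pow_eq_pow_val] at h3
  have hNZ : N * (Z : R) ^ j = (Z : R) ^ j * N := by
    have := hNc (Z ^ j) ((Commute.refl Z).pow_right j)
    simpa using this
  have h4 : k • (v0 - (Z : R) ^ j * v0) = 0 := by
    refine hfz j hj _ ?_ ?_
    · rw [mul_smul_comm, mul_sub, ← mul_assoc, hNZ, mul_assoc, hv0]; simp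
    · rw [← sub_eq_add_neg, sub_eq_zero] at h3
      exact h3.symm
  have h5 := htf k _ hk h4
  have h6 : v0 = 0 := hfz j hj _ hv0 (sub_eq_zero.1 h5).symm
  apply hZ1
  ext
  exact (sub_eq_zero.1 h6).symm

theorem central_group {G : Type*} [Group G]
    (n : ℕ) (hn : 2 ≤ n) (p q m : ℕ) (hp : p.Prime) (hm : q * p ∣ m)
    (ρ : FreeGroup (Fin n) →* G) (z : G) (hz : z ^ p = 1) (hz1 : z ≠ 1)
    (hc : ∀ x, Commute z (ρ x))
    (hpr : ∀ (φ : MulAut (FreeGroup (Fin n))) (i : Fin n), ∃ j, ¬ p ∣ j ∧ ρ (φ (of i)) ^ q = z ^ j) :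
    ∃ g : Q n hn m, ¬ IsOfFinOrder g := by
  let ι : G →* (MonoidAlgebra ℤ G)ˣ := (MonoidAlgebra.of ℤ G).toHomUnits
  refine central_ring (R := MonoidAlgebra ℤ G) ?_ n hn p q m hp hm (ι.comp ρ) (ι z)
    (by rw [← map_pow, hz, map_one]) ?_ (fun x => (hc x).map ι) ?_
  · intro k x hk hx
    exact (smul_eq_zero.1 hx).resolve_left hk.ne'
  · intro h
    have h' : MonoidAlgebra.of ℤ G z = MonoidAlgebra.of ℤ G 1 := by
      rw [map_one]
      exact congrArg Units.val h
    exact hz1 (MonoidAlgebra.of_injective h')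
  · intro φ i
    obtain ⟨j, hj, h⟩ := hpr φ i
    exact ⟨j, hj, by rw [MonoidHom.comp_apply, ← map_pow, h, map_pow]⟩

end Pool.Agent.Lib.MP_89352f_al
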