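import Mathlib

/-! Homomorphisms out of `SL₂` of a ring with a well-behaved Euclidean norm. -/

namespace Pool.Agent.Lib.MP_89352f_al.GE2

open Matrix

variable {O : Type} [CommRing O]

/-- A multiplicative Euclidean norm whose small remainders are connected by unit steps. -/
structure Nice (N : O → ℕ) : Prop where
  mul : ∀ a b, N (a * b) = N a * N b
  one : N 1 = 1
  zero : ∀ a, N a = 0 ↔ a = 0
  euc : ∀ c d, c ≠ 0 → ∃ q, N (d - q * c) < N c
  conn : ∀ c d δ, N d < N c → N (d - δ * c) < N c → δ = 0 ∨ IsUnit δ ∨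
    ∃ e, IsUnit e ∧ IsUnit (δ - e) ∧ N (d - e * c) < N c
  tie : ∀ c d, c ≠ 0 → N d = N c → ∃ u, IsUnit u ∧ N (d - u * c) < N c

/-- Elements of a group satisfying the standard relations of `PSL₂`. -/
structure Data (O G : Type) [CommRing O] [Group G] where
  x : O → G
  h : O → G
  w : G
  x_add : ∀ a b, x (a + b) = x a * x b
  h_mul : ∀ u v, IsUnit u → IsUnit v → h (u * v) = h u * h v
  h_neg : h (-1) = 1
  w_sq : w * w = 1
  h_x : ∀ u a, IsUnit u → h u * x a = x (u ^ 2 * a) * h u
  h_w : ∀ u v, u * v = 1 → h u * w = w * h v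
  tri : ∀ u v, u * v = 1 → x u * w * x v * w * x u = h u * w

/-- The elementary matrix. -/
def E (a : O) : SpecialLinearGroup (Fin 2) O := ⟨!![1, a; 0, 1], by simp [det_fin_two_of]⟩

/-- The rotation by a right angle. -/
def S (O : Type) [CommRing O] : SpecialLinearGroup (Fin 2) O := ⟨!![0, -1; 1, 0], by simp [det_fin_two_of]⟩

/-- The diagonal matrix. -/
def D (u v : O) (h : u * v = 1) : SpecialLinearGroup (Fin 2) O :=
  ⟨!![u, 0; 0, v], by simp [det_fin_two_of, h]⟩

variable (M : SpecialLinearGroup (Fin 2) O)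

lemma mulE (a : O) (i : Fin 2) : (M * E a) i 0 = M i 0 ∧ (M * E a) i 1 = M i 0 * a + M i 1 := by
  simp [E, mul_apply, Fin.sum_univ_two]

lemma mulS (i : Fin 2) : (M * S O) i 0 = M i 1 ∧ (M * S O) i 1 = -M i 0 := by
  simp [S, mul_apply, Fin.sum_univ_two]

lemma mulD (u v : O) (h : u * v = 1) (i : Fin 2) :
    (M * D u v h) i 0 = M i 0 * u ∧ (M * D u v h) i 1 = M i 1 * v := by
  simp [D, mul_apply, Fin.sum_univ_two]

lemma mul_ent (M' : SpecialLinearGroup (Fin 2) O) (i j : Fin 2) :
    (M * M') i j = M i 0 * M' 0 j + M i 1 * M' 1 j := by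
  simp [mul_apply, Fin.sum_univ_two]

lemma det_eq : M 0 0 * M 1 1 - M 0 1 * M 1 0 = 1 := by
  have := M.det_coe
  rwa [det_fin_two] at this

lemma ext4 {A B : SpecialLinearGroup (Fin 2) O} (h : ∀ i, A i 0 = B i 0 ∧ A i 1 = B i 1) :
    A = B := by
  ext i j
  fin_cases j
  · exact (h i).1
  · exact (h i).2

lemma step_entry (q : O) : (M * E (-q) * S O) 1 0 = M 1 1 - q * M 1 0 := by
  rw [(mulS _ 1).1, (mulE _ _ 1).2]
  ring

lemma Nice.unit {N : O → ℕ} (H : Nice N) {u v : O} (h : u * v = 1) (a : O) : N (a * u) = N a := by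
  have := H.mul u v
  rw [h, H.one] at this
  rw [H.mul, Nat.eq_one_of_mul_eq_one_right this.symm, mul_one]

lemma Nice.neg {N : O → ℕ} (H : Nice N) (a : O) : N (-a) = N a := by
  simpa using H.unit (u := -1) (v := -1) (by ring) a

variable {G : Type} [Group G]

lemma Data.x_zero (A : Data O G) : A.x 0 = 1 := by
  have := A.x_add 0 0
  rw [add_zero] at this
  exact left_eq_mul.1 this

lemma Data.h_one (A : Data O G) : A.h 1 = 1 := by
  have := A.h_mul 1 1 isUnit_one isUnit_one
  rw [mul_one] at this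
  exact left_eq_mul.1 this

lemma Data.x_neg (A : Data O G) (a : O) : A.x (-a) = (A.x a)⁻¹ := by
  rw [eq_inv_iff_mul_eq_one, ← A.x_add, neg_add_cancel, A.x_zero]

lemma Data.w_inv (A : Data O G) : A.w⁻¹ = A.w := inv_eq_of_mul_eq_one_right A.w_sq

open Classical in
/-- The value of the homomorphism, computed by the Euclidean algorithm. -/
noncomputable def phi {N : O → ℕ} (H : Nice N) (A : Data O G)
    (M : SpecialLinearGroup (Fin 2) O) : G :=
  if hc : M 1 0 = 0 then A.x (M 0 1 * M 0 0) * A.h (M 0 0) else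
    phi H A (M * E (-(H.euc _ (M 1 1) hc).choose) * S O) * A.w * A.x (H.euc _ (M 1 1) hc).choose
termination_by N (M 1 0)
decreasing_by
  rw [step_entry]
  exact (H.euc _ (M 1 1) hc).choose_spec

variable {N : O → ℕ} (H : Nice N) (A : Data O G)

/-- The induction hypothesis. -/
def Good (n : ℕ) : Prop := ∀ M : SpecialLinearGroup (Fin 2) O, N (M 1 0) < n →
  (∀ a, phi H A (M * E a) = phi H A M * A.x a) ∧
  (∀ u v h, phi H A (M * D u v h) = phi H A M * A.h u) ∧
  (N (M 1 1) < n → phi H A (M * S O) = phi H A M * A.w)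

lemma E_E (a b : O) : M * E a * E b = M * E (a + b) :=
  ext4 fun i => by simp only [mulE]; exact ⟨trivial, by ring⟩

lemma E_zero : M * E 0 = M := ext4 fun i => by simp only [mulE]; exact ⟨trivial, by ring⟩

lemma key_id {u v : O} (h : u * v = 1) (h' : v * u = 1) :
    M * E (-u) * S O * E (-v) = M * S O * E v * D v u h' * S O := ext4 fun i => by
  simp only [mulE, mulS, mulD]
  constructor
  · linear_combination (-M i 1) * h
  · linear_combination (M i 0) * h

lemma key_grp {u v : O} (h : u * v = 1) :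
    A.x v * A.h v * A.w * A.x v * A.w * A.x u = A.x v * A.h v * (A.x u)⁻¹ * A.h u * A.w := by
  have := A.tri u v h
  rw [mul_assoc _ (A.h u), ← this]
  group

lemma key_grp' {u v : O} (h : u * v = 1) :
    A.x v * A.h v * A.w * A.x v * A.w * A.x u = A.w := by
  have hv : IsUnit v := .of_mul_eq_one_right u h
  have hu : IsUnit u := .of_mul_eq_one v h
  have h1 := A.h_x v u hv
  rw [show v ^ 2 * u = v by linear_combination v * h] at h1
  have h2 := A.h_mul v u hv hu
  rw [mul_comm v u, h, A.h_one] at h2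
  rw [key_grp A h, ← h1, mul_inv_cancel_right, ← h2, one_mul]

variable {H A}

lemma unit_step {n : ℕ} (hG : Good H A n) {u : O} (hu : IsUnit u) (h1 : N (M 1 1) < n)
    (h2 : N (M 1 1 - u * M 1 0) < n) :
    phi H A (M * E (-u) * S O) * A.w * A.x u = phi H A (M * S O) * A.w := by
  obtain ⟨v, h⟩ := hu.exists_right_inv
  have h' : v * u = 1 := by rwa [mul_comm]
  have a1 : N ((M * S O) 1 0) < n := by rwa [(mulS M 1).1]
  have a2 : N ((M * S O * E v) 1 0) < n := by rwa [(mulE _ _ 1).1]
  have a3 : N ((M * S O * E v * D v u h') 1 0) < n := by rwa [(mulD _ _ _ _ 1).1, H.unit h']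
  have a4 : N ((M * E (-u) * S O) 1 0) < n := by rwa [step_entry]
  have a5 : N ((M * S O * E v * D v u h') 1 1) < n := by
    rwa [← (mulS _ 1).1, ← key_id M h h', (mulE _ _ 1).1]
  have b1 := (hG _ a4).1 (-v)
  rw [key_id M h h', (hG _ a3).2.2 a5, (hG _ a2).2.1, (hG _ a1).1, A.x_neg,
    eq_mul_inv_iff_mul_eq] at b1
  rw [← b1, ← congrArg (phi H A (M * S O) * ·) (key_grp' A h)]
  simp only [mul_assoc]

lemma indep {n : ℕ} (hG : Good H A n) (hn : N (M 1 0) = n) (q : O)
    (hq : N (M 1 1 - q * M 1 0) < n) : phi H A M = phi H A (M * E (-q) * S O) * A.w * A.x q := by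
  have hc : M 1 0 ≠ 0 := fun h => by
    rw [(H.zero _).2 h] at hn
    omega
  rw [phi, dif_neg hc]
  have h0 := (H.euc _ (M 1 1) hc).choose_spec
  generalize (H.euc _ (M 1 1) hc).choose = q₀ at h0 ⊢
  have step : ∀ a e : O, IsUnit e → N (M 1 1 - a * M 1 0) < n →
      N (M 1 1 - (a + e) * M 1 0) < n →
      phi H A (M * E (-a) * S O) * A.w * A.x a =
        phi H A (M * E (-(a + e)) * S O) * A.w * A.x (a + e) := by
    intro a e he h1 h2
    have h3 := unit_step (M * E (-a)) hG he (by rw [(mulE _ _ 1).2]; convert h1 using 2; ring)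
      (by rw [(mulE _ _ 1).2, (mulE _ _ 1).1]; convert h2 using 2; ring)
    rw [← h3, E_E, add_comm a e, A.x_add, neg_add, add_comm (-e)]
    simp only [mul_assoc]
  rcases H.conn (M 1 0) (M 1 1 - q₀ * M 1 0) (q - q₀) h0 (by rw [hn]; convert hq using 2; ring)
    with h | h | ⟨e, h1, h2, h3⟩
  · rw [sub_eq_zero.1 h]
  · have := step q₀ (q - q₀) h (hn ▸ h0) (by simpa using hq)
    simpa using this
  · have h4 : N (M 1 1 - (q₀ + e) * M 1 0) < n := by rw [← hn]; convert h3 using 2; ring
    have h5 := step (q₀ + e) (q - q₀ - e) h2 h4 (by convert hq using 3; ring)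
    rw [step q₀ e h1 (hn ▸ h0) h4, h5, show q₀ + e + (q - q₀ - e) = q by ring]

lemma level_E {n : ℕ} (hG : Good H A n) (hn : N (M 1 0) = n) (a : O) :
    phi H A (M * E a) = phi H A M * A.x a := by
  by_cases hc : M 1 0 = 0
  · have hd := det_eq M
    rw [hc, mul_zero, sub_zero] at hd
    rw [phi, dif_pos (by rwa [(mulE _ _ 1).1]), phi.eq_1 H A M, dif_pos hc, mul_assoc,
      A.h_x _ _ (.of_mul_eq_one _ hd), ← mul_assoc, ← A.x_add, (mulE _ _ 0).1, (mulE _ _ 0).2]
    congr 2
    ring
  · obtain ⟨q, hq⟩ := H.euc _ (M 1 1) hc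
    rw [indep M hG hn q (hn ▸ hq), indep (M * E a) hG (by rwa [(mulE _ _ 1).1]) (q + a)
      (by rw [(mulE _ _ 1).1, (mulE _ _ 1).2, ← hn]; convert hq using 2; ring), E_E, A.x_add,
      show a + -(q + a) = -q by ring]
    simp only [mul_assoc]

lemma level_D {n : ℕ} (hG : Good H A n) (hn : N (M 1 0) = n) (u v : O) (h : u * v = 1) :
    phi H A (M * D u v h) = phi H A M * A.h u := by
  have h' : v * u = 1 := by rwa [mul_comm]
  have hu : IsUnit u := .of_mul_eq_one v h
  by_cases hc : M 1 0 = 0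
  · have hd := det_eq M
    rw [hc, mul_zero, sub_zero] at hd
    rw [phi, dif_pos (by rw [(mulD _ _ _ _ 1).1, hc, zero_mul]), phi.eq_1 H A M, dif_pos hc,
      mul_assoc, ← A.h_mul _ _ (.of_mul_eq_one _ hd) hu, (mulD _ _ _ _ 0).1, (mulD _ _ _ _ 0).2]
    congr 2
    linear_combination (M 0 1 * M 0 0) * h
  · obtain ⟨q, hq⟩ := H.euc _ (M 1 1) hc
    have e : M * D u v h * E (-(q * v ^ 2)) * S O = M * E (-q) * S O * D v u h' := ext4 fun i => by
      simp only [mulE, mulS, mulD]
      constructor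
      · linear_combination (-M i 0 * q * v) * h
      · ring
    have e' : (M * D u v h) 1 1 - q * v ^ 2 * (M * D u v h) 1 0 = (M 1 1 - q * M 1 0) * v := by
      simp only [mulD]
      linear_combination (-M 1 0 * q * v) * h
    have e'' := A.h_x u (q * v ^ 2) hu
    rw [show u ^ 2 * (q * v ^ 2) = q by linear_combination q * (u * v + 1) * h] at e''
    rw [indep M hG hn q (hn ▸ hq), indep (M * D u v h) hG (by rwa [(mulD _ _ _ _ 1).1, H.unit h])
      (q * v ^ 2) (by rwa [e', H.unit h', ← hn]), e,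
      (hG _ (by rwa [step_entry, ← hn])).2.1, mul_assoc _ (A.h v), A.h_w v u h',
      mul_assoc _ _ (A.x _), mul_assoc _ _ (A.x _), e'']
    simp only [mul_assoc]

lemma level_lt {n : ℕ} (hG : Good H A n) (hn : N (M 1 0) = n) (h : N (M 1 1) < n) :
    phi H A (M * S O) = phi H A M * A.w := by
  rw [indep M hG hn 0 (by simpa using h), neg_zero, E_zero, A.x_zero, mul_one, mul_assoc,
    A.w_sq, mul_one]

lemma level_S {n : ℕ} (hG : Good H A n) (h1 : N (M 1 0) ≤ n) (h2 : N (M 1 1) ≤ n) :
    phi H A (M * S O) = phi H A M * A.w := by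
  rcases h1.lt_or_eq with h1 | h1 <;> rcases h2.lt_or_eq with h2 | h2
  · exact (hG M h1).2.2 h2
  · have e : M * S O * S O = M * D (-1) (-1) (by ring) := ext4 fun i => by
      simp only [mulS, mulD]
      constructor <;> ring
    have := level_lt (M * S O) hG (by rwa [(mulS _ 1).1]) (by rwa [(mulS _ 1).2, H.neg])
    rw [e, (hG M h1).2.1, A.h_neg, mul_one] at this
    rw [this, mul_assoc, A.w_sq, mul_one]
  · exact level_lt M hG h1 h2
  · have hc : M 1 0 ≠ 0 := fun h => by
      have hd := det_eq M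
      have h3 : M 1 1 = 0 := (H.zero _).1 (by rw [h2, ← h1, (H.zero _).2 h])
      rw [h, h3, mul_zero, mul_zero, sub_zero] at hd
      have := H.one
      rw [← hd, (H.zero _).2 rfl] at this
      omega
    obtain ⟨u, hu, h3⟩ := H.tie _ _ hc (h2.trans h1.symm)
    rw [h1] at h3
    obtain ⟨v, h⟩ := hu.exists_right_inv
    have h' : v * u = 1 := by rwa [mul_comm]
    have a1 : N ((M * S O) 1 0) = n := by rwa [(mulS M 1).1]
    have a2 : N ((M * S O * E v) 1 0) = n := by rwa [(mulE _ _ 1).1]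
    have a3 : N ((M * S O * E v * D v u h') 1 0) = n := by rwa [(mulD _ _ _ _ 1).1, H.unit h']
    have a4 : N ((M * E (-u) * S O) 1 0) < n := by rwa [step_entry]
    have a5 : N ((M * S O * E v * D v u h') 1 1) < n := by
      rwa [← (mulS _ 1).1, ← key_id M h h', (mulE _ _ 1).1]
    have b1 := (hG _ a4).1 (-v)
    rw [key_id M h h', level_lt _ hG a3 a5, level_D _ hG a2, level_E _ hG a1, A.x_neg,
      eq_mul_inv_iff_mul_eq] at b1
    rw [indep M hG h1 u h3, ← b1, ← mul_one (phi H A (M * S O)), ← A.w_sq]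
    conv_lhs => rw [← congrArg (· * A.w) (key_grp' A h)]
    simp only [mul_assoc, A.w_sq, mul_one]

lemma good (n : ℕ) : Good H A n := by
  induction n with
  | zero => exact fun M h => absurd h (Nat.not_lt_zero _)
  | succ n ih =>
    intro M hM
    refine ⟨fun a => ?_, fun u v h => ?_, fun h => level_S M ih (by omega) (by omega)⟩
    · rcases (Nat.le_of_lt_succ hM).lt_or_eq with h1 | h1
      · exact (ih M h1).1 a
      · exact level_E M ih h1 a
    · rcases (Nat.le_of_lt_succ hM).lt_or_eq with h1 | h1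
      · exact (ih M h1).2.1 u v h
      · exact level_D M ih h1 u v h

lemma phi_E (a : O) : phi H A (M * E a) = phi H A M * A.x a := level_E M (good _) rfl a

lemma phi_S : phi H A (M * S O) = phi H A M * A.w :=
  level_S M (good _) (le_max_left _ _) (le_max_right _ _)

lemma phi_mul (M' : SpecialLinearGroup (Fin 2) O) : phi H A (M * M') = phi H A M * phi H A M' := by
  induction hn : N (M' 1 0) using Nat.strong_induction_on generalizing M' with
  | _ n ih =>
    by_cases hc : M' 1 0 = 0
    · have hd := det_eq M'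
      rw [hc, mul_zero, sub_zero] at hd
      have e : M * M' = M * E (M' 0 1 * M' 0 0) * D _ _ hd := ext4 fun i => by
        rw [mul_ent M M', mul_ent M M']
        simp only [mulE, mulD, hc]
        constructor
        · ring
        · linear_combination (-M i 0 * M' 0 1) * hd
      rw [e, level_D _ (good _) rfl, phi_E, phi.eq_1 H A M', dif_pos hc, mul_assoc]
    · obtain ⟨q, hq⟩ := H.euc _ (M' 1 1) hc
      have := ih _ (hn ▸ hq) (M' * E (-q) * S O) (by rw [step_entry])
      rw [← mul_assoc, ← mul_assoc, phi_S, phi_E, phi_S, phi_E, ← mul_assoc, ← mul_assoc] at this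
      exact mul_right_cancel (mul_right_cancel this)

theorem exists_hom (H : Nice N) (A : Data O G) : ∃ Φ : SpecialLinearGroup (Fin 2) O →* G,
    (∀ a, Φ (E a) = A.x a) ∧ Φ (S O) = A.w := by
  have h1 : phi H A 1 = 1 := by
    have := phi_mul (H := H) (A := A) 1 1
    rw [mul_one] at this
    exact left_eq_mul.1 this
  refine ⟨MonoidHom.mk' (phi H A) fun a b => phi_mul a b, fun a => ?_, ?_⟩
  · simpa [h1] using phi_E (H := H) (A := A) 1 a
  · simpa [h1] using phi_S (H := H) (A := A) 1

end Pool.Agent.Lib.MP_89352f_al.GE2
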