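import Pool.Agent.Lib.MP_89352f_al.Basic
import Pool.Agent.Lib.MP_89352f_al.GE2

/-! The action of automorphisms of the free group of rank three on twisted homology. -/

namespace Pool.Agent.Lib.MP_89352f_al.Cover

open FreeGroup (of)
open Matrix GE2

variable {O : Type} [CommRing O]

/-- The free group of rank three. -/
abbrev F := FreeGroup (Fin 3)

/-- Crossed homomorphisms. -/
def Crossed (χ : F →* Oˣ) (δ : F → O) : Prop := ∀ g h, δ (g * h) = δ g + χ g * δ h

/-- Fox derivatives twisted by a character. -/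
def fox (χ : F →* Oˣ) (i : Fin 3) (g : F) : O :=
  (FreeGroup.lift (fun j => (⟨χ (of j), if j = i then 1 else 0⟩ : Aff Oˣ O)) g).t

lemma fox_crossed (χ : F →* Oˣ) (i : Fin 3) : Crossed χ (fox χ i) := by
  intro g h
  have : Aff.lin.comp (FreeGroup.lift
      (fun j => (⟨χ (of j), if j = i then 1 else 0⟩ : Aff Oˣ O))) = χ := by
    ext j
    simp
  have h1 := DFunLike.congr_fun this g
  simp only [MonoidHom.comp_apply, Aff.lin_apply] at h1
  simp only [fox, map_mul, Aff.mul_t, h1, Units.smul_def, smul_eq_mul]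

lemma fox_of (χ : F →* Oˣ) (i j : Fin 3) : fox χ i (of j) = if j = i then 1 else 0 := by
  simp [fox]

variable {χ : F →* Oˣ} {δ δ' : F → O}

lemma Crossed.one (h : Crossed χ δ) : δ 1 = 0 := by
  have := h 1 1
  simpa using this

lemma Crossed.inv (h : Crossed χ δ) (g : F) : δ g⁻¹ = -((χ g⁻¹ : Oˣ) * δ g) := by
  have := h g⁻¹ g
  rw [inv_mul_cancel, h.one] at this
  linear_combination -this

lemma Crossed.pow (h : Crossed χ δ) (g : F) (k : ℕ) :
    δ (g ^ k) = (∑ j ∈ Finset.range k, (χ g : O) ^ j) * δ g := by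
  induction k with
  | zero => simp [h.one]
  | succ k ih =>
    rw [pow_succ, h, ih, Finset.sum_range_succ, map_pow, Units.val_pow_eq_pow_val]
    ring

lemma Crossed.ext (h : Crossed χ δ) (h' : Crossed χ δ') (e : ∀ j, δ (of j) = δ' (of j)) (g : F) :
    δ g = δ' g := by
  induction g using FreeGroup.induction_on with
  | C1 => rw [h.one, h'.one]
  | of j => exact e j
  | inv_of j ih => rw [h.inv, h'.inv, ih]
  | mul a b ha hb => rw [h, h', ha, hb]

lemma Crossed.ext_aut (h : Crossed χ δ) (h' : Crossed χ δ') (α : MulAut F)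
    (e : ∀ j, δ (α (of j)) = δ' (α (of j))) (g : F) : δ g = δ' g := by
  have := Crossed.ext (χ := χ.comp α.toMonoidHom) (δ := fun g => δ (α g))
    (δ' := fun g => δ' (α g)) (fun a b => by simp [h (α a)]) (fun a b => by simp [h' (α a)]) e
    (α⁻¹ g)
  simpa using this

lemma Crossed.expand (h : Crossed χ δ) (g : F) :
    δ g = fox χ 0 g * δ (of 0) + fox χ 1 g * δ (of 1) + fox χ 2 g * δ (of 2) := by
  refine h.ext (δ' := fun g => fox χ 0 g * δ (of 0) + fox χ 1 g * δ (of 1) + fox χ 2 g * δ (of 2))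
    (fun a b => ?_) (fun j => ?_) g
  · simp only [fox_crossed χ _ a b]
    ring
  · fin_cases j <;> simp [fox_of]

/-- The character killing the first two generators. -/
def chi (ε : Oˣ) : F →* Oˣ := FreeGroup.lift ![1, 1, ε]

variable [IsDomain O] {ε : Oˣ}

lemma Crossed.ker (hε : ε ≠ 1) (h : Crossed (chi ε) δ) {g : F} (hg : chi ε g = 1) :
    δ g = fox (chi ε) 0 g * δ (of 0) + fox (chi ε) 1 g * δ (of 1) := by
  have h1 := Crossed.expand (χ := chi ε) (δ := fun g => (chi ε g : O) - 1)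
    (fun a b => by simp only [map_mul, Units.val_mul]; ring) g
  rw [hg] at h1
  have h2 : fox (chi ε) 2 g * ((ε : O) - 1) = 0 := by simpa [chi] using h1.symm
  have h3 : (ε : O) - 1 ≠ 0 := sub_ne_zero.2 (by simpa using hε)
  rw [h.expand g, (mul_eq_zero.1 h2).resolve_right h3, zero_mul, add_zero]

/-- The matrix of an automorphism on the twisted homology. -/
def mat (ε : Oˣ) (γ : MulAut F) : Matrix (Fin 2) (Fin 2) O :=
  !![fox (chi ε) 0 (γ (of 0)), fox (chi ε) 0 (γ (of 1));
    fox (chi ε) 1 (γ (of 0)), fox (chi ε) 1 (γ (of 1))]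

omit [IsDomain O] in
lemma mat_one : mat ε 1 = 1 := by
  simp [mat, fox_of, one_fin_two]

lemma mat_mul (hε : ε ≠ 1) {a b : MulAut F} (ha : a ∈ fixer (chi ε)) (hb : b ∈ fixer (chi ε)) :
    mat ε (a * b) = mat ε a * mat ε b := by
  have h1 : ∀ i, Crossed (chi ε) fun g => fox (chi ε) i (a g) := fun i g h => by
    simp only [map_mul, fox_crossed _ _ (a g), ha g]
  have h2 : chi ε (b (of 0)) = 1 := by rw [hb]; simp [chi]
  have h3 : chi ε (b (of 1)) = 1 := by rw [hb]; simp [chi]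
  simp only [mat, MulAut.mul_apply, (h1 _).ker hε h2, (h1 _).ker hε h3, mul_fin_two, mul_comm]

/-- The automorphisms fixing the character and acting with determinant one. -/
def Gam (hε : ε ≠ 1) : Subgroup (MulAut F) where
  carrier := {γ | γ ∈ fixer (chi ε) ∧ (mat ε γ).det = 1}
  one_mem' := ⟨one_mem _, by simp [mat_one]⟩
  mul_mem' := fun ha hb => ⟨mul_mem ha.1 hb.1, by rw [mat_mul hε ha.1 hb.1, det_mul, ha.2, hb.2,
    mul_one]⟩
  inv_mem' := fun {a} ha => ⟨inv_mem ha.1, by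
    have := congrArg det (mat_mul hε ha.1 (inv_mem ha.1))
    rw [mul_inv_cancel, mat_one, det_one, det_mul, ha.2, one_mul] at this
    exact this.symm⟩

/-- The representation on twisted homology. -/
def rep (hε : ε ≠ 1) : Gam hε →* SpecialLinearGroup (Fin 2) O :=
  MonoidHom.mk' (fun γ => ⟨mat ε γ, γ.2.2⟩) fun a b => Subtype.ext (mat_mul hε a.2.1 b.2.1)

lemma conj_mat {m : ℕ} (hm : ε ^ m = 1) (hε : ε ≠ 1) (α : MulAut F) :
    α * nielsen 3 (by norm_num) ^ m * α⁻¹ ∈ fixer (chi ε) ∧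
    ∃ (g : SpecialLinearGroup (Fin 2) O) (c : O),
      mat ε (α * nielsen 3 (by norm_num) ^ m * α⁻¹) = (g * E (m * c) * g⁻¹ :) := by
  have hpow : ∀ g, chi ε g ^ m = 1 := fun g => by
    have : (powMonoidHom m).comp (chi ε) = 1 := by
      ext j
      fin_cases j <;> simp [chi, hm]
    exact DFunLike.congr_fun this g
  have hfix : α * nielsen 3 (by norm_num) ^ m * α⁻¹ ∈ fixer (chi ε) :=
    conj_fix 3 (by norm_num) m (chi ε) α (hpow _)
  refine ⟨hfix, ?_⟩
  set γ := α * nielsen 3 (by norm_num) ^ m * α⁻¹ with hγ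
  obtain ⟨f, hf, hf'⟩ : ∃ f : Fin 3 → F → O, (∀ i, Crossed (chi ε) (f i)) ∧
      ∀ i j, f i (α (of j)) = if j = i then 1 else 0 := by
    refine ⟨fun i g => fox ((chi ε).comp α.toMonoidHom) i (α⁻¹ g), fun i a b => ?_,
      fun i j => by simp [fox_of]⟩
    simp [fox_crossed _ _ (α.symm a)]
  set s := ∑ j ∈ Finset.range m, (chi ε (α (of 1)) : O) ^ j with hs
  have key : ∀ i g, fox (chi ε) i (γ g) =
      fox (chi ε) i g + s * f 0 g * fox (chi ε) i (α (of 1)) := by
    intro i g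
    refine Crossed.ext_aut (χ := chi ε) (δ := fun g => fox (chi ε) i (γ g)) (δ' := fun g =>
      fox (chi ε) i g + s * f 0 g * fox (chi ε) i (α (of 1))) (fun a b => ?_) (fun a b => ?_) α
      (fun j => ?_) g
    · simp only [map_mul, fox_crossed _ _ (γ a), hfix a]
    · simp only [fox_crossed _ _ a, hf 0 a]
      ring
    · by_cases hj : j = 0
      · have e : γ (α (of 0)) = α (of 1) ^ m * α (of 0) := by
          have := nielsen_pow_zero 3 (by norm_num) m
          simp only [Fin.zero_eta, Fin.mk_one] at this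
          simp [hγ, this]
        simp only [hj, e, fox_crossed _ _ (α (of 1) ^ m), map_pow, hpow, hf',
          (fox_crossed _ _).pow, ← hs]
        simp [add_comm]
      · have e : γ (α (of j)) = α (of j) := by
          simp [hγ, nielsen_pow_ne 3 (by norm_num) m j hj]
        simp [e, hf', hj]
  by_cases h1 : chi ε (α (of 1)) = 1
  · have h2 := (hf 0).ker hε h1
    have h3 := (hf 1).ker hε h1
    rw [hf'] at h2 h3
    simp only [one_ne_zero, ↓reduceIte] at h2 h3
    have hs' : s = m := by simp [hs, h1]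
    refine ⟨⟨!![fox (chi ε) 0 (α (of 1)), -f 1 (of 1); fox (chi ε) 1 (α (of 1)), f 1 (of 0)],
      by rw [det_fin_two_of]; linear_combination -h3⟩,
      f 0 (of 1) * f 1 (of 0) - f 0 (of 0) * f 1 (of 1), ?_⟩
    simp only [mat, key, fox_of, hs', SpecialLinearGroup.SL2_inv_expl, E,
      SpecialLinearGroup.coe_mul]
    ext i j
    fin_cases i <;> fin_cases j <;> simp [mul_apply, Fin.sum_univ_two]
    · linear_combination (1 + m * f 0 (of 0) * fox (chi ε) 0 (α (of 1))) * h3 -
        m * fox (chi ε) 0 (α (of 1)) * f 1 (of 0) * h2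
    · linear_combination (m * f 0 (of 1) * fox (chi ε) 0 (α (of 1))) * h3 -
        m * fox (chi ε) 0 (α (of 1)) * f 1 (of 1) * h2
    · linear_combination (m * f 0 (of 0) * fox (chi ε) 1 (α (of 1))) * h3 -
        m * fox (chi ε) 1 (α (of 1)) * f 1 (of 0) * h2
    · linear_combination (1 + m * f 0 (of 1) * fox (chi ε) 1 (α (of 1))) * h3 -
        m * fox (chi ε) 1 (α (of 1)) * f 1 (of 1) * h2
  · have h2 : s * ((chi ε (α (of 1)) : O) - 1) = 0 := by
      rw [hs, geom_sum_mul, ← Units.val_pow_eq_pow_val, hpow, Units.val_one, sub_self]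
    have h3 : s = 0 := (mul_eq_zero.1 h2).resolve_right (sub_ne_zero.2 (by simpa using h1))
    refine ⟨1, 0, ?_⟩
    simp [mat, key, h3, fox_of, E]

/-- The automorphism multiplying the second generator on the left by a conjugate of the first. -/
def tr (c : F) (hc : c = 1 ∨ c = of 2) : MulAut F :=
  MonoidHom.toMulEquiv (FreeGroup.lift ![of 0, c * of 0 * c⁻¹ * of 1, of 2])
    (FreeGroup.lift ![of 0, (c * of 0 * c⁻¹)⁻¹ * of 1, of 2])
    (by ext i; rcases hc with rfl | rfl <;> fin_cases i <;> simp [mul_assoc])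
    (by ext i; rcases hc with rfl | rfl <;> fin_cases i <;> simp [mul_assoc])

/-- The automorphism rotating the first two generators. -/
def rot : MulAut F :=
  MonoidHom.toMulEquiv (FreeGroup.lift ![of 1, (of 0)⁻¹, of 2])
    (FreeGroup.lift ![(of 1)⁻¹, of 0, of 2])
    (by ext i; fin_cases i <;> simp) (by ext i; fin_cases i <;> simp)

omit [IsDomain O] in
lemma mem_fixer {γ : MulAut F} (h : ∀ j, chi ε (γ (of j)) = chi ε (of j)) : γ ∈ fixer (chi ε) :=
  fun g => DFunLike.congr_fun (show (chi ε).comp γ.toMonoidHom = chi ε by ext j; simp [h]) g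

lemma exists_tr (hε : ε ≠ 1) (c : F) (hc : c = 1 ∨ c = of 2) :
    ∃ γ : Gam hε, rep hε γ = E (chi ε c : O) := by
  have h1 : mat ε (tr c hc) = (E (chi ε c : O) :) := by
    rcases hc with rfl | rfl <;>
      simp [mat, tr, E, fox_crossed _ _ _ _, (fox_crossed _ _).inv, fox_of, chi]
  refine ⟨⟨tr c hc, mem_fixer fun j => ?_, by rw [h1]; exact (E _).2⟩, Subtype.ext h1⟩
  fin_cases j <;> simp [tr, chi]

lemma exists_rot (hε : ε ≠ 1) : ∃ γ : Gam hε, rep hε γ = S O := by
  have h1 : mat ε rot = (S O :) := by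
    simp [mat, rot, S, (fox_crossed _ _).inv, fox_of, chi]
  refine ⟨⟨rot, mem_fixer fun j => ?_, by rw [h1]; exact (S O).2⟩, Subtype.ext h1⟩
  fin_cases j <;> simp [rot, chi]

theorem infinite_of_data {G : Type} [Group G] {N : O → ℕ} (H : Nice N) (A : Data O G) {m : ℕ}
    (hm : ε ^ m = 1) (hε : ε ≠ 1) (hx : ∀ c, A.x (m * c) = 1) {g : G}
    (hg : g ∈ Subgroup.closure {A.x 1, A.x ε, A.w}) (hg' : ¬ IsOfFinOrder g) :
    ∃ q : Q 3 (by norm_num) m, ¬ IsOfFinOrder q := by
  obtain ⟨Φ, h1, h2⟩ := exists_hom H A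
  obtain ⟨γ, rfl⟩ : g ∈ (Φ.comp (rep hε)).range := by
    refine (Subgroup.closure_le _).2 ?_ hg
    rintro _ (rfl | rfl | rfl)
    · obtain ⟨γ, h⟩ := exists_tr hε 1 (Or.inl rfl)
      exact ⟨γ, by simp [h, h1]⟩
    · obtain ⟨γ, h⟩ := exists_tr hε (of 2) (Or.inr rfl)
      exact ⟨γ, by simp [h, h1, chi]⟩
    · obtain ⟨γ, h⟩ := exists_rot hε
      exact ⟨γ, by simp [h, h2]⟩
  refine exists_infinite_order 3 _ m ((Φ.comp (rep hε)).ker.map (Gam hε).subtype) (fun α => ?_) γ
    fun k hk h => hg' (isOfFinOrder_iff_pow_eq_one.2 ⟨k, hk, ?_⟩)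
  · obtain ⟨a1, g, c, a2⟩ := conj_mat hm hε α
    refine ⟨⟨_, a1, by rw [a2]; exact (g * E (m * c) * g⁻¹).2⟩, ?_, rfl⟩
    have : rep hε ⟨_, a1, by rw [a2]; exact (g * E (m * c) * g⁻¹).2⟩ = g * E (m * c) * g⁻¹ :=
      Subtype.ext a2
    simp [this, h1, hx]
  · obtain ⟨γ', a1, a2⟩ := h
    obtain rfl : γ' = γ ^ k := Subtype.ext a2
    rw [← map_pow]
    exact a1

end Pool.Agent.Lib.MP_89352f_al.Cover
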