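import Mathlib

namespace Pool.Agent.Lib.MP_89352f_al

/-- The Nielsen move `a₁ ↦ a₂ a₁`, `aᵢ ↦ aᵢ` (`i ≥ 2`) of the free group of rank `n ≥ 2`;
the basis elements `a₁, a₂` are `FreeGroup.of 0`, `FreeGroup.of 1`. -/
def nielsen (n : ℕ) (hn : 2 ≤ n) : MulAut (FreeGroup (Fin n)) :=
  MonoidHom.toMulEquiv
    (FreeGroup.lift fun i : Fin n =>
      if i = ⟨0, by omega⟩ then FreeGroup.of (⟨1, by omega⟩ : Fin n) * FreeGroup.of i
      else FreeGroup.of i)
    (FreeGroup.lift fun i : Fin n =>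
      if i = ⟨0, by omega⟩ then (FreeGroup.of (⟨1, by omega⟩ : Fin n))⁻¹ * FreeGroup.of i
      else FreeGroup.of i)
    (by
      ext i
      by_cases h : i = ⟨0, by omega⟩
      · simp [h]
      · simp [h])
    (by
      ext i
      by_cases h : i = ⟨0, by omega⟩
      · simp [h]
      · simp [h])

/-- `Q(n,m)`: the quotient of `Aut(F_n)` by the normal closure of the `m`-th power of the
Nielsen move. -/
abbrev Q (n : ℕ) (hn : 2 ≤ n) (m : ℕ) : Type :=
  MulAut (FreeGroup (Fin n)) ⧸ Subgroup.normalClosure {nielsen n hn ^ m}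

end Pool.Agent.Lib.MP_89352f_al
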