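import Pool.Agent.Lib.MP_89352f_al.GE2

/-! The Gaussian and Eisenstein integers have well-behaved Euclidean norms. -/

namespace Pool.Agent.Lib.MP_89352f_al.GE2

open QuadraticAlgebra

lemma Nice.isDomain {O : Type} [CommRing O] {N : O → ℕ} (H : Nice N) : IsDomain O := by
  have : Nontrivial O := ⟨1, 0, fun h => by
    have h1 := H.one
    rw [(H.zero _).2 h] at h1
    omega⟩
  have : NoZeroDivisors O := ⟨fun {a b} h => by
    have h1 := (H.zero _).2 h
    rwa [H.mul, mul_eq_zero, H.zero, H.zero] at h1⟩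
  exact NoZeroDivisors.to_isDomain O

/-- The Gaussian integers for `t = 0` and the Eisenstein integers for `t = 1`. -/
abbrev R (t : ℤ) := QuadraticAlgebra ℤ (-1) t

variable {t : ℤ}

lemma norm_eq (z : R t) : z.norm = z.re ^ 2 + t * z.re * z.im + z.im ^ 2 := by
  rw [norm_def]
  ring

lemma norm_nonneg (ht : t = 0 ∨ t = 1) (z : R t) : 0 ≤ z.norm := by
  rw [norm_eq]
  rcases ht with rfl | rfl <;> nlinarith [sq_nonneg (z.re + z.im), sq_nonneg z.re, sq_nonneg z.im]

lemma norm_pos (ht : t = 0 ∨ t = 1) {z : R t} (hz : z ≠ 0) : 0 < z.norm := by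
  refine (norm_nonneg ht z).lt_of_ne fun h => hz ?_
  rw [norm_eq] at h
  ext <;> rcases ht with rfl | rfl <;> simp only [re_zero, im_zero] <;>
    nlinarith [sq_nonneg (z.re + z.im), sq_nonneg z.re, sq_nonneg z.im]

lemma unit_of_norm {z : R t} (h : z.norm = 1) : IsUnit z := by
  rw [isUnit_iff_norm_isUnit, h]
  exact isUnit_one

lemma norm_of_unit (ht : t = 0 ∨ t = 1) {z : R t} (h : IsUnit z) : z.norm = 1 := by
  rcases Int.isUnit_iff.1 (isUnit_iff_norm_isUnit.1 h) with h1 | h1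
  · exact h1
  · linarith [norm_nonneg ht z]

lemma small (ht : t = 0 ∨ t = 1) {z : R t} (h : z.norm < 4) :
    -2 ≤ z.re ∧ z.re ≤ 2 ∧ -2 ≤ z.im ∧ z.im ≤ 2 := by
  rw [norm_eq] at h
  rcases ht with rfl | rfl <;> refine ⟨?_, ?_, ?_, ?_⟩ <;>
    nlinarith [sq_nonneg (z.re + 2 * z.im), sq_nonneg (2 * z.re + z.im), sq_nonneg z.re,
      sq_nonneg z.im]

lemma norm_sub_mul (c d q : R t) :
    (d - q * c).norm * c.norm = (d * star c - q * (c.norm : R t)).norm := by
  have : (d - q * c) * star c = d * star c - q * (c.norm : R t) := by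
    rw [sub_mul, mul_assoc, ← algebraMap_norm_eq_mul_star]
    simp
  rw [← this, map_mul, QuadraticAlgebra.norm_star]

lemma exists_round {n : ℤ} (hn : 0 < n) (a : ℤ) : ∃ q, |2 * (a - q * n)| ≤ n := by
  have h1 := Int.emod_add_mul_ediv (2 * a + n) (2 * n)
  have h2 := Int.emod_nonneg (2 * a + n) (show 2 * n ≠ 0 by omega)
  have h3 := Int.emod_lt_of_pos (2 * a + n) (show 0 < 2 * n by omega)
  exact ⟨(2 * a + n) / (2 * n), abs_le.2 ⟨by linarith, by linarith⟩⟩

lemma split_unit (ht : t = 0 ∨ t = 1) (δ : R t) (h : δ.norm < 4) : δ = 0 ∨ δ.norm = 1 ∨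
    (2 ≤ δ.norm ∧ ∃ e : R t, e.norm = 1 ∧ (δ - e).norm = 1) := by
  obtain ⟨h1, h2, h3, h4⟩ := small ht h
  obtain ⟨a, b⟩ := δ
  simp only at h1 h2 h3 h4
  have key : ∀ t ∈ ({0, 1} : Finset ℤ), ∀ a ∈ Finset.Icc (-2 : ℤ) 2, ∀ b ∈ Finset.Icc (-2 : ℤ) 2,
      a ^ 2 + t * a * b + b ^ 2 < 4 → (a = 0 ∧ b = 0) ∨ a ^ 2 + t * a * b + b ^ 2 = 1 ∨
        (2 ≤ a ^ 2 + t * a * b + b ^ 2 ∧ ∃ x ∈ Finset.Icc (-1 : ℤ) 1, ∃ y ∈ Finset.Icc (-1 : ℤ) 1,
          x ^ 2 + t * x * y + y ^ 2 = 1 ∧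
          (a - x) ^ 2 + t * (a - x) * (b - y) + (b - y) ^ 2 = 1) := by decide
  simp only [norm_eq] at h ⊢
  rcases key t (by simpa using ht) a (Finset.mem_Icc.2 ⟨h1, h2⟩) b (Finset.mem_Icc.2 ⟨h3, h4⟩) h
    with ⟨rfl, rfl⟩ | h5 | ⟨h5, x, -, y, -, h6, h7⟩
  · exact Or.inl rfl
  · exact Or.inr (Or.inl h5)
  · exact Or.inr (Or.inr ⟨h5, ⟨x, y⟩, h6, h7⟩)

lemma nice (ht : t = 0 ∨ t = 1) : Nice fun z : R t => z.norm.natAbs := by
  have lt : ∀ a b : R t, a.norm.natAbs < b.norm.natAbs ↔ a.norm < b.norm := fun a b => by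
    have := norm_nonneg ht a
    have := norm_nonneg ht b
    omega
  refine ⟨fun a b => by simp [Int.natAbs_mul], by simp, fun a => ⟨fun h => ?_, fun h => by simp [h]⟩,
    fun c d hc => ?_, fun c d δ h1 h2 => ?_, fun c d hc h => ?_⟩
  · by_contra h1
    have := norm_pos ht h1
    omega
  · have hn := norm_pos ht hc
    obtain ⟨q₁, h1⟩ := exists_round hn (d * star c).re
    obtain ⟨q₂, h2⟩ := exists_round hn (d * star c).im
    refine ⟨⟨q₁, q₂⟩, (lt _ _).2 (lt_of_mul_lt_mul_right ?_ hn.le)⟩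
    rw [norm_sub_mul, norm_eq (_ - _)]
    have e1 : (d * star c - ⟨q₁, q₂⟩ * (c.norm : R t)).re = (d * star c).re - q₁ * c.norm := by
      simp
    have e2 : (d * star c - ⟨q₁, q₂⟩ * (c.norm : R t)).im = (d * star c).im - q₂ * c.norm := by
      simp
    rw [e1, e2]
    generalize (d * star c).re - q₁ * c.norm = x at h1
    generalize (d * star c).im - q₂ * c.norm = y at h2
    have h3 := sq_le_sq' (abs_le.1 h1).1 (abs_le.1 h1).2
    have h4 := sq_le_sq' (abs_le.1 h2).1 (abs_le.1 h2).2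
    rcases ht with rfl | rfl <;> nlinarith [sq_nonneg (x - y), mul_pos hn hn]
  · rw [lt] at h1 h2
    have hn : 0 < c.norm := (norm_nonneg ht d).trans_lt h1
    have par : ∀ x y : R t, (x + y).norm + (x - y).norm = 2 * x.norm + 2 * y.norm := fun x y => by
      simp only [norm_eq, re_add, im_add, re_sub, im_sub]
      ring
    have h3 : δ.norm < 4 := by
      have h4 := par d (d - δ * c)
      rw [sub_sub_cancel, map_mul] at h4
      exact lt_of_mul_lt_mul_right (by linarith [norm_nonneg ht (d + (d - δ * c))]) hn.le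
    rcases split_unit ht δ h3 with h4 | h4 | ⟨h4, e, h5, h6⟩
    · exact Or.inl h4
    · exact Or.inr (Or.inl (unit_of_norm h4))
    have quad : ∀ x y z : R t, (x - y).norm + (x - z).norm + (y + z).norm =
        x.norm + (x - (y + z)).norm + y.norm + z.norm := fun x y z => by
      simp only [norm_eq, re_add, im_add, re_sub, im_sub]
      ring
    have h7 := quad d (e * c) ((δ - e) * c)
    rw [← add_mul, add_sub_cancel, map_mul, map_mul, map_mul, h5, h6] at h7
    by_cases h8 : (d - e * c).norm < c.norm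
    · exact Or.inr (Or.inr ⟨e, unit_of_norm h5, unit_of_norm h6, (lt _ _).2 h8⟩)
    · exact Or.inr (Or.inr ⟨δ - e, unit_of_norm h6, by simpa using unit_of_norm h5,
        (lt _ _).2 (by nlinarith)⟩)
  · have hn := norm_pos ht hc
    have h1 : d.norm = c.norm := by
      have := norm_nonneg ht d
      omega
    have h2 : (d * star c).norm = c.norm ^ 2 := by rw [map_mul, QuadraticAlgebra.norm_star, h1, sq]
    by_contra hcon
    have h3 : ∀ x y : ℤ, x ^ 2 + t * x * y + y ^ 2 = 1 → c.norm * c.norm ≤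
        ((d * star c).re - x * c.norm) ^ 2 + t * ((d * star c).re - x * c.norm) *
          ((d * star c).im - y * c.norm) + ((d * star c).im - y * c.norm) ^ 2 := by
      intro x y hxy
      have h4 : c.norm ≤ (d - ⟨x, y⟩ * c).norm := not_lt.1 fun h4 =>
        hcon ⟨⟨x, y⟩, unit_of_norm (by rw [norm_eq]; exact hxy), (lt _ _).2 h4⟩
      have h5 := mul_le_mul_of_nonneg_right h4 hn.le
      rw [norm_sub_mul, norm_eq (_ - _)] at h5
      simpa using h5
    rw [norm_eq] at h2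
    generalize (d * star c).re = A at h2 h3
    generalize (d * star c).im = B at h2 h3
    generalize c.norm = n at h2 h3 hn
    have le : ∀ L : ℤ, L * n ≤ n * n → -L * n ≤ n * n → L ^ 2 ≤ n ^ 2 := fun L a b =>
      sq_le_sq' (by linarith [le_of_mul_le_mul_right b hn]) (le_of_mul_le_mul_right a hn)
    rcases ht with rfl | rfl
    · have a1 := le (2 * A) (by linarith [h3 1 0 (by norm_num)])
        (by linarith [h3 (-1) 0 (by norm_num)])
      have a2 := le (2 * B) (by linarith [h3 0 1 (by norm_num)])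
        (by linarith [h3 0 (-1) (by norm_num)])
      nlinarith [mul_pos hn hn]
    · have a1 := le (2 * A + B) (by linarith [h3 1 0 (by norm_num)])
        (by linarith [h3 (-1) 0 (by norm_num)])
      have a2 := le (A + 2 * B) (by linarith [h3 0 1 (by norm_num)])
        (by linarith [h3 0 (-1) (by norm_num)])
      have a3 := le (A - B) (by linarith [h3 1 (-1) (by norm_num)])
        (by linarith [h3 (-1) 1 (by norm_num)])
      nlinarith [mul_pos hn hn]

lemma units_zero {u : R 0} (h : IsUnit u) : u = ⟨1, 0⟩ ∨ u = ⟨-1, 0⟩ ∨ u = ⟨0, 1⟩ ∨ u = ⟨0, -1⟩ := by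
  have h0 := norm_of_unit (Or.inl rfl) h
  obtain ⟨h1, h2, h3, h4⟩ := small (Or.inl rfl) (h0.trans_lt (by norm_num))
  obtain ⟨a, b⟩ := u
  rw [norm_eq] at h0
  simp only at h0 h1 h2 h3 h4
  interval_cases a <;> interval_cases b <;> simp_all

lemma units_one {u : R 1} (h : IsUnit u) : u = ⟨1, 0⟩ ∨ u = ⟨-1, 0⟩ ∨ u = ⟨0, 1⟩ ∨ u = ⟨0, -1⟩ ∨
    u = ⟨1, -1⟩ ∨ u = ⟨-1, 1⟩ := by
  have h0 := norm_of_unit (Or.inr rfl) h
  obtain ⟨h1, h2, h3, h4⟩ := small (Or.inr rfl) (h0.trans_lt (by norm_num))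
  obtain ⟨a, b⟩ := u
  rw [norm_eq] at h0
  simp only at h0 h1 h2 h3 h4
  interval_cases a <;> interval_cases b <;> simp_all

end Pool.Agent.Lib.MP_89352f_al.GE2
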