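import Pool.Agent.Lib.MP_89352f_al.Cover
import Pool.Agent.Lib.MP_89352f_al.Rings

/-! Exponents at least six divisible by two or three, through a complex reflection group. -/

namespace Pool.Agent.Lib.MP_89352f_al.Eisen

open GE2 QuadraticAlgebra

/-- The representation space. -/
abbrev V := ℂ × ℂ × ℂ × ℂ

/-- Diagonal maps. -/
noncomputable def dg (ζ : ℂˣ) (a b c : ℤ) : Equiv.Perm V :=
  ⟨fun v => ((ζ ^ a :) * v.1, (ζ ^ b :) * v.2.1, (ζ ^ c :) * v.2.2.1, v.2.2.2),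
    fun v => ((ζ ^ (-a) :) * v.1, (ζ ^ (-b) :) * v.2.1, (ζ ^ (-c) :) * v.2.2.1, v.2.2.2),
    fun v => by simp [-Units.val_zpow_eq_zpow_val],
    fun v => by simp [-Units.val_zpow_eq_zpow_val]⟩

lemma dg_apply (ζ : ℂˣ) (a b c : ℤ) (v : V) : dg ζ a b c v =
    ((ζ : ℂ) ^ a * v.1, (ζ : ℂ) ^ b * v.2.1, (ζ : ℂ) ^ c * v.2.2.1, v.2.2.2) := by
  simp [dg]

/-- The cyclic shift of the first three coordinates. -/
def C : Equiv.Perm V := ⟨fun v => (v.2.1, v.2.2.1, v.1, v.2.2.2),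
  fun v => (v.2.2.1, v.1, v.2.1, v.2.2.2), fun v => by simp, fun v => by simp⟩

lemma C_apply (v : V) : C v = (v.2.1, v.2.2.1, v.1, v.2.2.2) := rfl

/-- The linear form of the reflection. -/
def β (c : ℂ) (v : V) : ℂ := c * (v.1 + v.2.1 + v.2.2.1) + (2 - 3 * c) * v.2.2.2

/-- The product of two commuting reflections. -/
def W (c : ℂ) : Equiv.Perm V := Function.Involutive.toPerm
  (fun v => (v.2.2.1 - β c v, v.2.1 - β c v, v.1 - β c v, v.2.2.2 - β c v))
  fun v => by ext <;> simp only [β] <;> ring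

lemma W_apply (c : ℂ) (v : V) :
    W c v = (v.2.2.1 - β c v, v.2.1 - β c v, v.1 - β c v, v.2.2.2 - β c v) := rfl

lemma dg_mul (ζ : ℂˣ) (a b c a' b' c' : ℤ) :
    dg ζ a b c * dg ζ a' b' c' = dg ζ (a + a') (b + b') (c + c') := by
  refine Equiv.ext fun v => ?_
  simp [dg_apply, zpow_add₀, mul_assoc]

lemma C_dg (ζ : ℂˣ) (a b c : ℤ) : C * dg ζ a b c = dg ζ b c a * C := by
  refine Equiv.ext fun v => ?_
  simp [dg_apply, C_apply]

lemma CC_dg (ζ : ℂˣ) (a b c : ℤ) : C * C * dg ζ a b c = dg ζ c a b * (C * C) := by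
  refine Equiv.ext fun v => ?_
  simp [dg_apply, C_apply]

lemma CCC : C * (C * C) = 1 := Equiv.ext fun _ => rfl

lemma C_W (c : ℂ) : C * W c = W c * (C * C) := by
  refine Equiv.ext fun v => ?_
  ext <;> simp only [Equiv.Perm.mul_apply, W_apply, C_apply, β] <;> ring

lemma CC_W (c : ℂ) : C * C * W c = W c * C := by
  refine Equiv.ext fun v => ?_
  ext <;> simp only [Equiv.Perm.mul_apply, W_apply, C_apply, β] <;> ring

/-- The images of the standard generators. -/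
noncomputable def data (ζ : ℂˣ) (h : (ζ : ℂ) - 1 ≠ 0) : Data (R 1) (Equiv.Perm V) where
  x z := dg ζ (z.re + z.im) (-z.im) (-z.re)
  h u := if u.im = 0 then 1 else if u.re = 0 then C else C * C
  w := W (-ζ / (ζ - 1) ^ 2)
  x_add a b := by
    rw [dg_mul, re_add, im_add]
    congr 1 <;> ring
  h_mul u v hu hv := by
    rcases units_one hu with rfl | rfl | rfl | rfl | rfl | rfl <;>
      rcases units_one hv with rfl | rfl | rfl | rfl | rfl | rfl <;> simp [CCC, mul_assoc]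
  h_neg := by simp
  w_sq := Equiv.ext fun v => Function.Involutive.toPerm_involutive _ v
  h_x u a hu := by
    rcases units_one hu with rfl | rfl | rfl | rfl | rfl | rfl <;> simp [sq, C_dg, CC_dg] <;>
      congr 1 <;> ring
  h_w u v h := by
    rcases units_one (IsUnit.of_mul_eq_one v h) with rfl | rfl | rfl | rfl | rfl | rfl <;>
      rcases units_one (IsUnit.of_mul_eq_one_right _ h) with rfl | rfl | rfl | rfl | rfl | rfl <;>
      simp [QuadraticAlgebra.ext_iff, C_W, CC_W] at h ⊢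
  tri u v huv := by
    refine Equiv.ext fun p => ?_
    have h0 := ζ.ne_zero
    rcases units_one (IsUnit.of_mul_eq_one v huv) with rfl | rfl | rfl | rfl | rfl | rfl <;>
      rcases units_one (IsUnit.of_mul_eq_one_right _ huv) with rfl | rfl | rfl | rfl | rfl | rfl <;>
      simp [QuadraticAlgebra.ext_iff] at huv
    all_goals
      simp only [Equiv.Perm.mul_apply, dg_apply, W_apply, β]
      simp [C_apply]
      refine ⟨?_, ?_, ?_, ?_⟩ <;> field_simp <;> ring

lemma exists_zeta {m : ℕ} (hm : 6 ≤ m) : ∃ (ζ : ℂˣ) (κ : ℝ), (ζ : ℂ) ^ m = 1 ∧ (ζ : ℂ) - 1 ≠ 0 ∧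
    (ζ : ℂ) ^ 2 + 1 = κ * ζ ∧ 1 ≤ κ := by
  have hm0 : m ≠ 0 := by omega
  have h1 := Complex.isPrimitiveRoot_exp m hm0
  refine ⟨Units.mk0 _ (Complex.exp_ne_zero (2 * Real.pi * Complex.I / m)),
    2 * Real.cos (2 * Real.pi / m), h1.pow_eq_one, sub_ne_zero.2 (h1.ne_one (by omega)), ?_, ?_⟩
  · push_cast
    rw [Complex.two_cos, Units.val_mk0, add_mul, ← Complex.exp_add, ← Complex.exp_add, sq,
      ← Complex.exp_add, ← Complex.exp_zero]
    congr 2 <;> ring
  · have h2 : (6 : ℝ) ≤ m := by exact_mod_cast hm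
    have h3 : 2 * Real.pi / m ≤ Real.pi / 3 := by
      rw [div_le_div_iff₀ (by linarith) (by norm_num)]
      nlinarith [Real.pi_pos]
    have h4 := Real.cos_le_cos_of_nonneg_of_le_pi (by positivity) (by linarith [Real.pi_pos]) h3
    rw [Real.cos_pi_div_three] at h4
    linarith

theorem six {m : ℕ} (hm : 6 ≤ m) (ε : (R 1)ˣ) (h1 : ε ^ m = 1) (h2 : ε ≠ 1) :
    ∃ q : Q 3 (by norm_num) m, ¬ IsOfFinOrder q := by
  have := (nice (t := 1) (Or.inr rfl)).isDomain
  obtain ⟨ζ, κ, z1, z2, z3, z4⟩ := exists_zeta hm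
  have z0 := ζ.ne_zero
  refine Cover.infinite_of_data (nice (Or.inr rfl)) (data ζ z2) h1 h2 (fun c => ?_)
    (g := (data ζ z2).w * ((data ζ z2).x 1 * (data ζ z2).x 1 * (data ζ z2).x 1)) ?_ fun h => ?_
  · refine Equiv.ext fun v => ?_
    simp [data, dg_apply, ← mul_add, zpow_mul, z1]
  · refine mul_mem ?_ (mul_mem (mul_mem ?_ ?_) ?_) <;> apply Subgroup.subset_closure <;> simp
  · obtain ⟨k, hk, h⟩ := isOfFinOrder_iff_pow_eq_one.1 h
    generalize hg : (data ζ z2).w * ((data ζ z2).x 1 * (data ζ z2).x 1 * (data ζ z2).x 1) = g at h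
    have key : ∀ k : ℕ, ∃ A B : ℝ, k ≤ B ∧ B + 1 ≤ A ∧
        (g ^ k) (1, 1, 1, 1) = (A + B * (ζ : ℂ)⁻¹ ^ 3, (A : ℂ) + B, A + B * (ζ : ℂ) ^ 3,
          (A : ℂ) + B) := by
      intro k
      induction k with
      | zero => exact ⟨1, 0, by simp, by simp, by simp⟩
      | succ k ih =>
        obtain ⟨A, B, a1, a2, a3⟩ := ih
        have a4 : (0 : ℝ) ≤ k := by positivity
        have a5 : (0 : ℝ) ≤ (1 + κ) ^ 2 - 4 := by nlinarith
        refine ⟨((1 + κ) ^ 2 - 2) * A - B, A, by push_cast; linarith, by nlinarith, ?_⟩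
        have e : (κ : ℂ) = (ζ ^ 2 + 1) / ζ := by rw [z3]; field_simp
        rw [pow_succ', Equiv.Perm.mul_apply, a3, ← hg]
        simp only [data, Equiv.Perm.mul_apply, dg_apply, W_apply, β]
        simp [e]
        refine ⟨?_, ?_, ?_, ?_⟩ <;> field_simp <;> ring
    obtain ⟨A, B, a1, a2, a3⟩ := key k
    rw [h] at a3
    have a4 : (1 : ℂ) = A + B := congrArg (·.2.1) a3
    have a5 : (1 : ℝ) = A + B := by exact_mod_cast a4
    have a6 : (1 : ℝ) ≤ k := by exact_mod_cast hk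
    linarith

end Pool.Agent.Lib.MP_89352f_al.Eisen
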