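import Pool.Agent.Lib.MP_89352f_al.Cover
import Pool.Agent.Lib.MP_89352f_al.Rings

/-! The exponent four, through symmetries of the cubic lattice in dimension four. -/

namespace Pool.Agent.Lib.MP_89352f_al.Gauss

open GE2 QuadraticAlgebra

/-- The lattice. -/
abbrev V := ℤ × ℤ × ℤ × ℤ

/-- First rotation. -/
def X : Equiv.Perm V := ⟨fun v => (v.2.1, -v.1, v.2.2.1, v.2.2.2),
  fun v => (-v.2.1, v.1, v.2.2.1, v.2.2.2), fun v => by simp, fun v => by simp⟩

/-- Second rotation. -/
def Y : Equiv.Perm V := ⟨fun v => (v.1, v.2.1, 1 - v.2.2.2, v.2.2.1),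
  fun v => (v.1, v.2.1, v.2.2.2, 1 - v.2.2.1), fun v => by simp, fun v => by simp⟩

/-- First involution. -/
def W : Equiv.Perm V := ⟨fun v => (-v.1, v.2.2.1, v.2.1, v.2.2.2),
  fun v => (-v.1, v.2.2.1, v.2.1, v.2.2.2), fun v => by simp, fun v => by simp⟩

/-- Second involution. -/
def H : Equiv.Perm V := ⟨fun v => (-v.1, v.2.1, v.2.2.1, 1 - v.2.2.2),
  fun v => (-v.1, v.2.1, v.2.2.1, 1 - v.2.2.2), fun v => by simp, fun v => by simp⟩

lemma XY : Commute X Y := by
  refine Equiv.ext fun v => ?_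
  simp [X, Y]

lemma HX : SemiconjBy H X X⁻¹ := by
  refine Equiv.ext fun v => ?_
  simp [X, H, Equiv.Perm.inv_def]

lemma HY : SemiconjBy H Y Y⁻¹ := by
  refine Equiv.ext fun v => ?_
  simp [Y, H, Equiv.Perm.inv_def]

lemma HH : H * H = 1 := by
  refine Equiv.ext fun v => ?_
  simp [H]

lemma HW : H * W = W * H := by
  refine Equiv.ext fun v => ?_
  simp [H, W]

/-- The images of the standard generators. -/
def data : Data (R 0) (Equiv.Perm V) where
  x z := X ^ z.re * Y ^ z.im
  h u := if u.im = 0 then 1 else H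
  w := W
  x_add a b := by
    rw [re_add, im_add, zpow_add, zpow_add, (XY.zpow_zpow _ _).mul_mul_mul_comm]
  h_mul u v hu hv := by
    rcases units_zero hu with rfl | rfl | rfl | rfl <;>
      rcases units_zero hv with rfl | rfl | rfl | rfl <;> simp [HH]
  h_neg := by simp
  w_sq := by
    refine Equiv.ext fun v => ?_
    simp [W]
  h_x u a hu := by
    have := ((HX.zpow_right a.re).mul_right (HY.zpow_right a.im)).eq
    rcases units_zero hu with rfl | rfl | rfl | rfl <;> simp [sq, this]
  h_w u v h := by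
    rcases units_zero (IsUnit.of_mul_eq_one v h) with rfl | rfl | rfl | rfl <;>
      rcases units_zero (IsUnit.of_mul_eq_one_right _ h) with rfl | rfl | rfl | rfl <;>
      simp [QuadraticAlgebra.ext_iff, HW] at h ⊢
  tri u v h := by
    refine Equiv.ext fun p => ?_
    rcases units_zero (IsUnit.of_mul_eq_one v h) with rfl | rfl | rfl | rfl <;>
      rcases units_zero (IsUnit.of_mul_eq_one_right _ h) with rfl | rfl | rfl | rfl <;>
      simp [QuadraticAlgebra.ext_iff, X, Y, W, H, Equiv.Perm.inv_def] at h ⊢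

theorem four : ∃ q : Q 3 (by norm_num) 4, ¬ IsOfFinOrder q := by
  have := (nice (t := 0) (Or.inl rfl)).isDomain
  have hX : X ^ (4 : ℤ) = 1 := by
    refine Equiv.ext fun v => ?_
    simp [X, zpow_ofNat, pow_succ]
  have hY : Y ^ (4 : ℤ) = 1 := by
    refine Equiv.ext fun v => ?_
    simp [Y, zpow_ofNat, pow_succ]
  refine Cover.infinite_of_data (ε := ⟨⟨0, 1⟩, ⟨0, -1⟩, by ext <;> simp, by ext <;> simp⟩)
    (nice (Or.inl rfl)) data (by ext <;> simp [pow_succ])
    (by simp [Units.ext_iff, QuadraticAlgebra.ext_iff])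
    (fun c => by simp [data, zpow_mul, hX, hY]) (g := W * X * X * Y) ?_ fun h => ?_
  · refine mul_mem (mul_mem (mul_mem ?_ ?_) ?_) ?_ <;> apply Subgroup.subset_closure <;>
      simp [data]
  · obtain ⟨k, hk, h⟩ := isOfFinOrder_iff_pow_eq_one.1 h
    have key : ∀ k : ℕ, (((W * X * X * Y) ^ k) 0).2.1 - (((W * X * X * Y) ^ k) 0).2.2.1 -
        (((W * X * X * Y) ^ k) 0).2.2.2 = k := by
      intro k
      induction k with
      | zero => simp
      | succ k ih =>
        rw [pow_succ', Equiv.Perm.mul_apply]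
        generalize ((W * X * X * Y) ^ k) 0 = v at ih
        simp [W, X, Y]
        linarith
    have := key k
    rw [h] at this
    simp at this
    omega

end Pool.Agent.Lib.MP_89352f_al.Gauss
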