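import Pool.Agent.Lib.MP_89352f_al.H60Tab
import Pool.Agent.Lib.MP_3dc428_gt.Nielsen

/-!
Nielsen's theorem for the free group of rank three, as an induction principle.
-/

namespace Pool.Agent.Lib.MP_89352f_al.H60

open FreeGroup Pool.Agent.Lib.MP_3dc428_gt

def val : List ℕ → ℕ
  | [] => 0
  | x :: l => x * 6 ^ l.length + val l

lemma val_lt : ∀ {l : List ℕ}, (∀ x ∈ l, x < 6) → val l < 6 ^ l.length
  | [], _ => by simp [val]
  | x :: l, h => by
    have h1 := val_lt fun y hy => h y (List.mem_cons_of_mem _ hy)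
    have h2 := h x List.mem_cons_self
    simp only [val, List.length_cons, pow_succ]
    nlinarith

lemma val_append (p c : List ℕ) : val (p ++ c) = val p * 6 ^ c.length + val c := by
  induction p with
  | nil => simp [val]
  | cons x p ih => simp only [List.cons_append, val, ih, List.length_append]; ring

lemma val_inj : ∀ {p q : List ℕ}, (∀ x ∈ p, x < 6) → (∀ x ∈ q, x < 6) → p.length = q.length →
    val p = val q → p = q
  | [], [], _, _, _, _ => rfl
  | [], _ :: _, _, _, h, _ => by simp at h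
  | _ :: _, [], _, _, h, _ => by simp at h
  | x :: p, y :: q, h1, h2, h3, h4 => by
    have a1 : ∀ z ∈ p, z < 6 := fun y hy => h1 y (List.mem_cons_of_mem _ hy)
    have a2 : ∀ z ∈ q, z < 6 := fun y hy => h2 y (List.mem_cons_of_mem _ hy)
    have b1 := val_lt a1
    have b2 := val_lt a2
    have h5 : p.length = q.length := by simpa using h3
    simp only [val, h5] at h4 b1
    have h6 : x = y := by
      rcases lt_trichotomy x y with h | h | h
      · nlinarith
      · exact h
      · nlinarith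
    subst h6
    rw [val_inj a1 a2 h5 (by omega)]

lemma val_lt_of_take {s t : List ℕ} {k : ℕ} (hs : ∀ x ∈ s, x < 6) (hl : s.length = t.length)
    (h : val (s.take k) < val (t.take k)) : val s < val t := by
  have h1 := val_lt (l := s.drop k) fun x hx => hs x (List.mem_of_mem_drop hx)
  rw [← List.take_append_drop k s, ← List.take_append_drop k t, val_append, val_append]
  simp only [List.length_drop, hl] at h1 ⊢
  nlinarith [Nat.zero_le (val (t.drop k))]

lemma take_eq_of_lcp {β : Type*} [DecidableEq β] : ∀ (k : ℕ) (s t : List β), k ≤ lcp s t →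
    s.take k = t.take k
  | 0, _, _, _ => by simp
  | k + 1, [], t, h => by simp [lcp_nil_left] at h
  | k + 1, s, [], h => by simp [lcp_nil_right] at h
  | k + 1, a :: s, b :: t, h => by
    rw [lcp_cons] at h
    split_ifs at h with e
    · simp [e, take_eq_of_lcp k s t (by omega)]
    · omega

lemma lcp_of_take_eq {β : Type*} [DecidableEq β] : ∀ (k : ℕ) (s t : List β), k ≤ s.length →
    s.take k = t.take k → k ≤ lcp s t
  | 0, _, _, _, _ => Nat.zero_le _
  | k + 1, [], t, h, _ => by simp at h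
  | k + 1, a :: s, [], _, h => by simp at h
  | k + 1, a :: s, b :: t, h, h' => by
    simp only [List.take_succ_cons, List.cons.injEq] at h'
    have := lcp_of_take_eq k s t (by simpa using h) h'.2
    rw [lcp_cons, if_pos h'.1]
    omega

lemma take_wd {g h : F} {k : ℕ} (hk : k ≤ gp g h) : (wd g).take k = (wd h).take k := by
  simp only [wd, ← List.map_take, take_eq_of_lcp k _ _ hk]

lemma le_gp {g h : F} {k : ℕ} (hk : k ≤ norm g) (e : (wd g).take k = (wd h).take k) :
    k ≤ gp g h := by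
  refine lcp_of_take_eq k _ _ hk ?_
  simp only [wd, ← List.map_take] at e
  exact List.map_injective_iff.2 (Function.LeftInverse.injective dc_cd) e

/-- The value of the left half of the reduced word. -/
def vl (g : F) : ℕ := val ((wd g).take ((norm g + 1) / 2))

def T (h : F → ℕ) (φ : F →* F) : ℕ := ∑ x ∈ Finset.range 6, h (φ (el x))

set_option synthInstance.maxSize 2048 in
lemma nv_spec : ∀ a < 6, ∀ z < 6, z ≠ a → z ≠ iv a → valid (2 ^ a + 2 ^ z) a = true ∧
    ∀ t < 6, img (whL (2 ^ a + 2 ^ z) a) t =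
      if t = z then [a, z] else if t = iv z then [iv z, iv a] else [t] := by decide +kernel

lemma T_nv (h : F → ℕ) (φ : F →* F) {a z : ℕ} (ha : a < 6) (hz : z < 6) (h1 : z ≠ a)
    (h2 : z ≠ iv a) : T h (φ.comp (wh (2 ^ a + 2 ^ z) a)) + h (φ (el z)) + h (φ (el z))⁻¹ =
      T h φ + h (φ (el a) * φ (el z)) + h (φ (el a) * φ (el z))⁻¹ := by
  have key : ∀ t < 6, h (φ (wh (2 ^ a + 2 ^ z) a (el t))) = if t = z then h (φ (el a) * φ (el z))
      else if t = iv z then h (φ (el a) * φ (el z))⁻¹ else h (φ (el t)) := by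
    intro t ht
    rw [wh, hom_el, (nv_spec a ha z hz h1 h2).2 t ht]
    split_ifs <;> simp [el_iv]
  have e : (φ (el z))⁻¹ = φ (el (iv z)) := by rw [el_iv, _root_.map_inv]
  simp only [T, Finset.sum_range_succ, Finset.sum_range_zero, MonoidHom.comp_apply,
    key 0 (by norm_num), key 1 (by norm_num), key 2 (by norm_num), key 3 (by norm_num),
    key 4 (by norm_num), key 5 (by norm_num), e]
  generalize h (φ (el a) * φ (el z)) = p
  generalize h (φ (el a) * φ (el z))⁻¹ = q
  interval_cases z <;> simp [iv] <;> omega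

lemma el_ne_one {x : ℕ} (hx : x < 6) : el x ≠ 1 := by
  have h : Rd 6 [x] := ⟨hx, hx.ne, trivial⟩
  intro e
  simpa [e] using h.norm

lemma wh_inv {m a : ℕ} (h : valid m a = true) : valid (ivm m a) (iv a) = true ∧
    (wh (ivm m a) (iv a)).comp (wh m a) = MonoidHom.id F := by
  have hc := allW_spec cInv_all h
  simp only [cInv, all3, Bool.and_eq_true] at hc
  refine ⟨hc.1.1, hom_ext ?_ ?_ ?_⟩ <;>
    simp only [wh, MonoidHom.comp_apply, pr_cons, pr_nil, mul_one, hom_el, hom_pr,
      MonoidHom.id_apply]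
  · simpa using pr_eq_of_red hc.1.2.1.1
  · simpa using pr_eq_of_red hc.1.2.1.2
  · simpa using pr_eq_of_red hc.1.2.2

lemma wh_inv' {m a : ℕ} (h : valid m a = true) :
    (wh m a).comp (wh (ivm m a) (iv a)) = MonoidHom.id F := by
  obtain ⟨h1, h2⟩ := wh_inv h
  obtain ⟨-, h3⟩ := wh_inv h1
  have : wh (ivm (ivm m a) (iv a)) (iv (iv a)) = wh m a := by
    rw [← MonoidHom.comp_id (wh (ivm (ivm m a) (iv a)) (iv (iv a))), ← h2,
      ← MonoidHom.comp_assoc, h3, MonoidHom.id_comp]
  rw [← this, h3]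

lemma wh_bij {m a : ℕ} (h : valid m a = true) : Function.Bijective (wh m a) :=
  Function.bijective_iff_has_inverse.2 ⟨wh (ivm m a) (iv a),
    fun x => DFunLike.congr_fun (wh_inv h).2 x, fun x => DFunLike.congr_fun (wh_inv' h) x⟩

def tL (x : ℕ) : List ℕ := [cond (Nat.beq x 4) 5 x]

/-- The automorphism inverting the third generator. -/
def tau : F →* F := hom tL

set_option synthInstance.maxSize 2048 in
lemma perm_all : ∀ y0 < 6, ∀ y1 < 6, ∀ y2 < 6, y0 = y1 ∨ y0 = iv y1 ∨ y0 = y2 ∨ y0 = iv y2 ∨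
    y1 = y2 ∨ y1 = iv y2 ∨ ∃ j < 24,
      (apS (nf j) [0] = [y0] ∧ apS (nf j) [2] = [y1] ∧ apS (nf j) [4] = [y2]) ∨
      (ap tL (apS (nf j) [0]) = [y0] ∧ ap tL (apS (nf j) [2]) = [y1] ∧
        ap tL (apS (nf j) [4]) = [y2]) := by decide +kernel

lemma exists_letter {g : F} (h1 : g ≠ 1) (h2 : norm g ≤ 1) : ∃ y < 6, g = el y := by
  have h3 := length_wd g
  have h4 := pr_wd g
  have h5 := (rd_wd g).lt
  generalize wd g = l at h3 h4 h5
  match l with
  | [] => exact absurd h4.symm h1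
  | [y] => exact ⟨y, h5 y (by simp), by simpa using h4.symm⟩
  | _ :: _ :: _ => simp at h3; omega

lemma short_of_reduced {φ : F →* F} (hφ : Function.Bijective φ)
    (h : ∀ (x : Fin 3 × Bool) (L : List (Fin 3 × Bool)), IsReduced (x :: L) →
      ∀ y ∈ x :: L, norm (φ (mk [y])) ≤ norm (φ (mk (x :: L)))) (k : Fin 3) :
    norm (φ (of k)) ≤ 1 := by
  by_contra hk
  let e := MulEquiv.ofBijective φ hφ
  let κ : F →* F := lift fun j => if j = k then of k else 1
  have h1 : ∀ L : List (Fin 3 × Bool), (∀ y ∈ L, y.1 ≠ k) → κ (mk L) = 1 := by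
    intro L hL
    rw [lift_mk]
    refine List.prod_eq_one fun x hx => ?_
    obtain ⟨y, hy, rfl⟩ := List.mem_map.1 hx
    simp [hL y hy]
  have h2 : κ.comp e.symm.toMonoidHom = 1 := by
    ext i
    have h3 : φ (mk (e.symm (of i)).toWord) = of i := by
      rw [mk_toWord]; exact e.apply_symm_apply _
    have h4 : IsReduced (e.symm (of i)).toWord := isReduced_toWord
    simp only [MonoidHom.comp_apply, MulEquiv.coe_toMonoidHom, MonoidHom.one_apply]
    rw [← mk_toWord (x := e.symm (of i))]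
    refine h1 _ fun y hy e' => hk ?_
    generalize (e.symm (of i)).toWord = L at h3 h4 hy
    cases L with
    | nil => simp at hy
    | cons x L =>
      have h5 := h x L h4 y hy
      rw [h3, norm_of] at h5
      obtain ⟨y, b⟩ := y
      obtain rfl : y = k := e'
      cases b
      · have : mk [(y, false)] = (of y : F)⁻¹ := rfl
        rwa [this, _root_.map_inv, norm_inv_eq] at h5
      · exact h5
  have h3 := DFunLike.congr_fun h2 (e (of k))
  simp [κ] at h3

theorem gen (P : (F →* F) → Prop)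
    (base : ∀ j < 24, P (rotS (nf j)) ∧ P (tau.comp (rotS (nf j))))
    (step : ∀ φ m a, valid m a = true → P (φ.comp (wh m a)) → P φ)
    {φ : F →* F} (hφ : Function.Bijective φ) : P φ := by
  suffices main : ∀ (n k : ℕ) (φ : F →* F), Function.Bijective φ → T FreeGroup.norm φ = n →
      T vl φ = k → P φ from
    main _ _ φ hφ rfl rfl
  intro n
  induction n using Nat.strong_induction_on with | _ n ih1 => ?_
  intro k
  induction k using Nat.strong_induction_on with | _ k ih2 => ?_
  intro φ hφ hn hk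
  have ne1 : ∀ x < 6, φ (el x) ≠ 1 := fun x hx e =>
    el_ne_one hx (hφ.1 (by rw [e, _root_.map_one]))
  have dec1 : ∀ a < 6, ∀ z < 6, z ≠ iv a → norm (φ (el a) * φ (el z)) < norm (φ (el z)) →
      P φ := by
    intro a ha z hz h1 h2
    have h3 : z ≠ a := by
      rintro rfl
      exact absurd (norm_lt_norm_sq (ne1 z hz)) (by omega)
    have v := (nv_spec a ha z hz h3 h1).1
    have h4 := T_nv FreeGroup.norm φ ha hz h3 h1
    simp only [norm_inv_eq] at h4
    exact step φ _ _ v (ih1 _ (by omega) _ _ (hφ.comp (wh_bij v)) rfl rfl)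
  have dec2 : ∀ y < 6, ∀ z < 6, z ≠ iv y → ∀ r, norm (φ (el y)) = 2 * r →
      gp (φ (el y))⁻¹ (φ (el z)) = r → 2 * r ≤ norm (φ (el z)) →
      val ((wd (φ (el y))).take r) < val ((wd (φ (el y))⁻¹).take r) → P φ := by
    intro y hy z hz h1 r h2 h3 h4 h5
    have h6 : z ≠ y := by
      rintro rfl
      have := gp_self_inv (ne1 z hz)
      omega
    have v := (nv_spec y hy z hz h6 h1).1
    have a1 := T_nv FreeGroup.norm φ hy hz h6 h1
    have a2 := T_nv vl φ hy hz h6 h1
    generalize φ (el y) = Y at *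
    generalize φ (el z) = Z at *
    have b1 := gp_eq' Y Z
    have b2 := gp_eq Y (Y * Z)
    have b3 := gp_eq (Y * Z)⁻¹ Z⁻¹
    rw [inv_mul_cancel_left] at b2
    rw [inv_inv, mul_inv_cancel_right] at b3
    simp only [norm_inv_eq] at a1 b3
    have b4 : norm (Y * Z) = norm Z := by omega
    have c1 : vl (Y * Z)⁻¹ = vl Z⁻¹ := by
      rw [vl, vl, norm_inv_eq, norm_inv_eq, b4, take_wd (h := Z⁻¹) (by omega)]
    have c2 : vl (Y * Z) < vl Z := by
      refine val_lt_of_take (k := r) (fun x hx => (rd_wd _).lt x (List.mem_of_mem_take hx))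
        (by simp [length_wd, b4]) ?_
      rw [List.take_take, List.take_take, b4, min_eq_left (by omega),
        ← take_wd (g := Y) (h := Y * Z) (by omega), ← take_wd (g := Y⁻¹) (h := Z) (by omega)]
      exact h5
    exact step φ _ _ v (ih2 _ (by omega) _ (hφ.comp (wh_bij v)) (by omega) rfl)
  have cdn : ∀ x y : Fin 3 × Bool, (x.1 = y.1 → x.2 = y.2) → cd y ≠ iv (cd x) := by decide
  have ivn : ∀ x y : ℕ, y ≠ iv x → iv x ≠ iv (iv y) := fun x y h => by rw [iv_iv]; exact h.symm
  by_cases N1 : ∀ x y : Fin 3 × Bool, (x.1 = y.1 → x.2 = y.2) →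
      2 * gp (φ (mk [x]))⁻¹ (φ (mk [y])) ≤ norm (φ (mk [x])) ∧
      2 * gp (φ (mk [x]))⁻¹ (φ (mk [y])) ≤ norm (φ (mk [y]))
  swap
  · push Not at N1
    obtain ⟨x, y, h1, h2⟩ := N1
    have h3 := gp_eq' (φ (mk [x])) (φ (mk [y]))
    by_cases h4 : 2 * gp (φ (mk [x]))⁻¹ (φ (mk [y])) ≤ norm (φ (mk [x]))
    · refine dec1 _ (iv_lt (cd_lt y)) _ (iv_lt (cd_lt x)) (ivn _ _ (cdn x y h1)) ?_
      have := h2 h4
      simp only [el_iv, el_cd, _root_.map_inv, ← mul_inv_rev, norm_inv_eq]
      omega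
    · refine dec1 _ (cd_lt x) _ (cd_lt y) (cdn x y h1) ?_
      simp only [el_cd]
      omega
  by_cases N2 : ∀ x y z : Fin 3 × Bool, (x.1 = y.1 → x.2 = y.2) → (y.1 = z.1 → y.2 = z.2) →
      gp (φ (mk [x]))⁻¹ (φ (mk [y])) + gp (φ (mk [y]))⁻¹ (φ (mk [z])) < norm (φ (mk [y]))
  swap
  · push Not at N2
    obtain ⟨x, y, z, h1, h2, h3⟩ := N2
    have a1 := N1 x y h1
    have a2 := N1 y z h2
    obtain ⟨r, hr⟩ : ∃ r, gp (φ (mk [y]))⁻¹ (φ (mk [z])) = r := ⟨_, rfl⟩
    rcases lt_trichotomy (val ((wd (φ (mk [y]))).take r)) (val ((wd (φ (mk [y]))⁻¹).take r))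
      with h | h | h
    · refine dec2 _ (cd_lt y) _ (cd_lt z) (cdn y z h2) r ?_ ?_ ?_ ?_ <;> simp only [el_cd]
      · omega
      · exact hr
      · omega
      · exact h
    · have h4 := val_inj (fun x hx => (rd_wd _).lt x (List.mem_of_mem_take hx))
        (fun x hx => (rd_wd _).lt x (List.mem_of_mem_take hx)) (by simp [length_wd]) h
      have h5 := le_gp (by rw [norm_inv_eq]; omega) h4.symm
      have h6 := gp_self_inv (ne1 _ (cd_lt y))
      rw [el_cd] at h6
      omega
    · refine dec2 _ (iv_lt (cd_lt y)) _ (iv_lt (cd_lt x)) (ivn _ _ (cdn x y h1)) r ?_ ?_ ?_ ?_ <;>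
        simp only [el_iv, el_cd, _root_.map_inv, norm_inv_eq, inv_inv]
      · omega
      · rw [gp_symm]; omega
      · omega
      · exact h
  have sh := short_of_reduced hφ fun x L hL => (reduced_words φ N1 N2 x L hL).2
  obtain ⟨y0, l0, e0⟩ := exists_letter (ne1 0 (by norm_num)) (sh 0)
  obtain ⟨y1, l1, e1⟩ := exists_letter (ne1 2 (by norm_num)) (sh 1)
  obtain ⟨y2, l2, e2⟩ := exists_letter (ne1 4 (by norm_num)) (sh 2)
  have dis : ∀ s t y y' : ℕ, φ (el s) = el y → φ (el t) = el y' → el s ≠ el t →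
      el s ≠ (el t)⁻¹ → y ≠ y' ∧ y ≠ iv y' := by
    intro s t y y' h1 h2 h3 h4
    constructor <;> rintro rfl
    · exact h3 (hφ.1 (h1.trans h2.symm))
    · exact h4 (hφ.1 (by rw [h1, _root_.map_inv, h2, el_iv]))
  have d1 := dis 0 2 _ _ e0 e1 (by decide) (by decide)
  have d2 := dis 0 4 _ _ e0 e2 (by decide) (by decide)
  have d3 := dis 2 4 _ _ e1 e2 (by decide) (by decide)
  have hp := perm_all y0 l0 y1 l1 y2 l2
  simp only [d1.1, d1.2, d2.1, d2.2, d3.1, d3.2, false_or] at hp
  obtain ⟨j, hj, h | h⟩ := hp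
  · have : φ = rotS (nf j) := by
      refine hom_ext ?_ ?_ ?_ <;> rw [rotS_pr] <;> simp [h.1, h.2.1, h.2.2, e0, e1, e2]
    exact this ▸ (base j hj).1
  · have : φ = tau.comp (rotS (nf j)) := by
      refine hom_ext ?_ ?_ ?_ <;> rw [MonoidHom.comp_apply, rotS_pr, tau, hom_pr] <;>
        simp [h.1, h.2.1, h.2.2, e0, e1, e2]
    exact this ▸ (base j hj).2

end Pool.Agent.Lib.MP_89352f_al.H60
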