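import Pool.Agent.Lib.MP_89352f_al.H60Cert

/-!
Peak reduction: an assignment of monoid elements to Whitehead moves and rotations that satisfies
the tabulated relations extends to the group they generate.
-/

namespace Pool.Agent.Lib.MP_89352f_al.H60

open FreeGroup

lemma ext3 {Φ Ψ : F →* F} {A B : ℕ → List ℕ}
    (h : all3 (fun x => red (A x) == red (B x)) = true)
    (hA : ∀ x, Φ (el x) = pr (A x)) (hB : ∀ x, Ψ (el x) = pr (B x)) : Φ = Ψ := by
  simp only [all3, Bool.and_eq_true] at h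
  refine hom_ext ?_ ?_ ?_ <;> simp only [pr_cons, pr_nil, mul_one, hA, hB]
  exacts [pr_eq_of_red h.1.1, pr_eq_of_red h.1.2, pr_eq_of_red h.2]

lemma rd_rot {g : ℕ} (hg : g < 2) : ∀ (w : List ℕ) (u : ℕ), u < 7 → Rd u w →
    Rd (rt g u) (ap (rL g) w) ∧ (ap (rL g) w).length = w.length
  | [], _, _, _ => ⟨trivial, rfl⟩
  | x :: w, u, hu, h => by
    obtain ⟨h1, h2, h3, h4⟩ := rt_spec g hg x h.1
    obtain ⟨i1, i2⟩ := rd_rot hg w (iv x) (by have := iv_lt h.1; omega) h.2.2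
    have e : ap (rL g) (x :: w) = img (rL g) x ++ ap (rL g) w := rfl
    rw [e, h2]
    exact ⟨⟨h1, h4 u hu h.2.1, h3 ▸ i1⟩, by simp [i2]⟩

lemma nm_rot {g : ℕ} (hg : g < 2) (ψ : F →* F) : nm ((rot g).comp ψ) = nm ψ := by
  refine Finset.sum_congr rfl fun i _ => ?_
  obtain ⟨h1, h2⟩ := rd_rot hg (wd (ψ (of i))) 6 (by norm_num) (rd_wd _)
  rw [← length_wd (ψ (of i)), ← h2, ← h1.norm, ← hom_pr, pr_wd]
  rfl

lemma nm_id : nm (MonoidHom.id F) = 3 := by simp [nm]

lemma S_id (f : ℕ → ℕ → ℕ) : S f (MonoidHom.id F) =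
    f 6 0 + f 1 6 + (f 6 2 + f 3 6) + (f 6 4 + f 5 6) := by
  simp only [S, Fin.sum_univ_three, MonoidHom.id_apply, wd, toWord_of]
  rfl

lemma rot_four' {g : ℕ} (hg : g < 2) : rotS [g, g, g, g] = MonoidHom.id F :=
  ext3 (rot_four g hg) (fun x => by simpa using rotS_pr _ [x]) (fun x => by simp)

/-- A strictly reducing move compatible with two given moves. -/
lemma sector {ψ : F →* F} {m a n b : ℕ} (h1 : valid m a = true) (h2 : valid n b = true)
    (l1 : nm ((wh m a).comp ψ) < nm ψ) (l2 : nm ((wh n b).comp ψ) ≤ nm ψ) :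
    ∃ k g, valid k g = true ∧ cp m k = true ∧ cp k n = true ∧ nm ((wh k g).comp ψ) < nm ψ := by
  have hm := valid_lt h1
  have hn := valid_lt h2
  have e1 := nm_wh' h1 ψ
  have e2 := nm_wh' h2 ψ
  have hc := cp_sector m hm.2 n hn.2
  have key : ∀ k ∈ [m &&& n, m ||| n, m &&& (63 ^^^ n), n &&& (63 ^^^ m)], ∀ g < 6,
      tb k g ≠ tb k (iv g) → S (cr k) ψ < S (ind g) ψ →
      ∃ k g, valid k g = true ∧ cp m k = true ∧ cp k n = true ∧
        nm ((wh k g).comp ψ) < nm ψ := by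
    intro k hk g hg h3 h4
    obtain ⟨c1, c2, c3⟩ := hc k hk
    cases h5 : tb k g
    · have v : valid k (iv g) = true := by
        rw [h5] at h3
        simp [valid, iv_iv, h5, iv_lt hg, c1, Bool.eq_true_of_not_eq_false h3.symm]
      have e := nm_wh' v ψ
      have e' : ind (iv g) = ind g := by interval_cases g <;> rfl
      exact ⟨k, iv g, v, c2, c3, by rw [e'] at e; omega⟩
    · have v : valid k g = true := by
        rw [h5] at h3
        simp [valid, h5, hg, c1, Bool.eq_false_of_not_eq_true h3.symm]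
      have e := nm_wh' v ψ
      exact ⟨k, g, v, c2, c3, by omega⟩
  have t63 : ∀ x < 6, Nat.testBit 63 x = true := by decide
  have s1 : S (cr (m &&& n)) ψ + S (cr (m ||| n)) ψ ≤ S (cr m) ψ + S (cr n) ψ := by
    refine S_le (fun u _ v _ => ?_) ψ
    simp only [cr, tb, Nat.testBit_and, Nat.testBit_or]
    cases m.testBit u <;> cases m.testBit v <;> cases n.testBit u <;> cases n.testBit v <;> decide
  have s2 : S (cr (m &&& (63 ^^^ n))) ψ + S (cr (n &&& (63 ^^^ m))) ψ ≤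
      S (cr m) ψ + S (cr n) ψ := by
    refine S_le (fun u hu v hv => ?_) ψ
    have a1 : ∀ x < 7, (m &&& (63 ^^^ n)).testBit x = (m.testBit x && !n.testBit x) ∧
        (n &&& (63 ^^^ m)).testBit x = (n.testBit x && !m.testBit x) := by
      intro x hx
      by_cases h : x < 6
      · simp [t63 x h]
      · obtain rfl : x = 6 := by omega
        simp [Nat.testBit_lt_two_pow (i := 6) hm.2, Nat.testBit_lt_two_pow (i := 6) hn.2]
    simp only [cr, tb, a1 u hu, a1 v hv]
    cases m.testBit u <;> cases m.testBit v <;> cases n.testBit u <;> cases n.testBit v <;> decide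
  by_contra hcon
  have k : ∀ k ∈ [m &&& n, m ||| n, m &&& (63 ^^^ n), n &&& (63 ^^^ m)], ∀ g < 6,
      tb k g ≠ tb k (iv g) → S (ind g) ψ ≤ S (cr k) ψ :=
    fun k hk g hg h3 => not_lt.1 fun h4 => hcon (key k hk g hg h3 h4)
  have p1 := k (m &&& n) (by simp) a hm.1
  have p2 := k (m ||| n) (by simp) a hm.1
  have p3 := k (m &&& (63 ^^^ n)) (by simp) a hm.1
  have p4 := k (n &&& (63 ^^^ m)) (by simp) a hm.1
  have q1 := k (m &&& n) (by simp) b hn.1
  have q2 := k (m ||| n) (by simp) b hn.1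
  have q3 := k (m &&& (63 ^^^ n)) (by simp) b hn.1
  have q4 := k (n &&& (63 ^^^ m)) (by simp) b hn.1
  simp only [valid, Bool.and_eq_true, Bool.not_eq_true', tb] at h1 h2
  simp only [tb, Nat.testBit_and, Nat.testBit_or, Nat.testBit_xor, t63 _ hm.1, t63 _ hn.1,
    t63 _ (iv_lt hm.1), t63 _ (iv_lt hn.1), h1.1.2, h1.2, h2.1.2, h2.2] at p1 p2 p3 p4 q1 q2 q3 q4
  revert p1 p2 p3 p4 q1 q2 q3 q4
  cases n.testBit a <;> cases n.testBit (iv a) <;> cases m.testBit b <;> cases m.testBit (iv b) <;>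
    simp <;> omega

variable {M : Type} [Monoid M] (γ : ℕ → M)

def rho (w : List ℕ) : M := (w.map γ).prod

@[simp] lemma rho_nil : rho γ [] = 1 := rfl

@[simp] lemma rho_cons (g : ℕ) (w : List ℕ) : rho γ (g :: w) = γ g * rho γ w := by simp [rho]

@[simp] lemma rho_append (v w : List ℕ) : rho γ (v ++ w) = rho γ v * rho γ w := by simp [rho]

/-- The values attached to an endomorphism by ascending sequences of moves. -/
inductive R : (F →* F) → M → Prop
  | base : R (MonoidHom.id F) 1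
  | rot {g : ℕ} {ψ : F →* F} {X : M} : g < 2 → R ψ X → R ((rot g).comp ψ) (γ (24 + g) * X)
  | up {m a : ℕ} {ψ : F →* F} {X : M} : valid m a = true → nm ψ < nm ((wh m a).comp ψ) →
      R ψ X → R ((wh m a).comp ψ) (rho γ (ww m a) * X)

def Rel : Prop := ∀ w1 w2, inR w1 w2 = true → rho γ w1 = rho γ w2

def IH (n : ℕ) : Prop := ∀ ψ X, nm ψ < n → R γ ψ X → ∀ m a, valid m a = true →
  R γ ((wh m a).comp ψ) (rho γ (ww m a) * X)

def Pk (m a n b : ℕ) : Prop := ∀ ψ X, IH γ (nm ψ) → nm ((wh m a).comp ψ) < nm ψ →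
  nm ((wh n b).comp ψ) ≤ nm ψ → R γ ((wh m a).comp ψ) (rho γ (ww m a) * X) →
  R γ ((wh n b).comp ψ) (rho γ (ww n b) * X)

variable {γ}

lemma R.rotS {ψ : F →* F} {X : M} (h : R γ ψ X) : ∀ s : List ℕ, (∀ g ∈ s, g < 2) →
    R γ ((rotS s).comp ψ) (rho γ (sw s) * X)
  | [], _ => by rw [show rho γ (sw []) = 1 from rfl, one_mul]; exact h
  | g :: s, hs => by
    have := (h.rotS s fun x hx => hs x (List.mem_cons_of_mem _ hx)).rot (hs g List.mem_cons_self)
    rw [show sw (g :: s) = (24 + g) :: sw s from rfl, rho_cons, mul_assoc]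
    exact this

lemma gam_four (H : Rel γ) {g : ℕ} (hg : g < 2) : rho γ (sw [g, g, g, g]) = 1 := by
  interval_cases g
  · exact H _ _ inR_four.1
  · have h : rho γ [25, 25] = 1 := H _ _ inR_four.2
    have : rho γ (sw [1, 1, 1, 1]) = rho γ [25, 25] * rho γ [25, 25] := rho_append γ [25, 25] _
    rw [this, h, mul_one]

lemma R.unrot (H : Rel γ) {g : ℕ} (hg : g < 2) {ψ : F →* F} {X : M}
    (h : R γ ((H60.rot g).comp ψ) (γ (24 + g) * X)) : R γ ψ X := by
  have h1 : R γ ((H60.rotS [g, g, g, g]).comp ψ) _ := h.rotS [g, g, g] (by simpa using hg)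
  have h2 := gam_four H hg
  rw [rot_four' hg] at h1
  simp only [sw, List.map_cons, List.map_nil, rho_cons, rho_nil, mul_one, ← mul_assoc] at h1 h2
  simpa [h2] using h1

lemma inv_spec (H : Rel γ) {m a : ℕ} (h : valid m a = true) :
    valid (ivm m a) (iv a) = true ∧ (wh (ivm m a) (iv a)).comp (wh m a) = MonoidHom.id F ∧
      rho γ (ww (ivm m a) (iv a)) * rho γ (ww m a) = 1 := by
  have hc := allW_spec cInv_all h
  simp only [cInv, Bool.and_eq_true] at hc
  refine ⟨hc.1.1, ext3 hc.1.2 (fun x => ?_) (fun x => by simp), by simpa using H _ _ hc.2⟩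
  simp [wh, hom_el, hom_pr]

lemma cj_spec (H : Rel γ) {g m a n b : ℕ} (h : cj g m a n b = true) :
    valid m a = true ∧ valid n b = true ∧ (wh m a).comp (rot g) = (rot g).comp (wh n b) ∧
      rho γ (ww m a) * γ (24 + g) = γ (24 + g) * rho γ (ww n b) := by
  simp only [cj, Bool.and_eq_true] at h
  refine ⟨h.1.1.1, h.1.1.2, ext3 h.1.2 (fun x => ?_) (fun x => ?_), by simpa using H _ _ h.2⟩ <;>
    simp [wh, rot, hom_el, hom_pr]

lemma mid_spec (al a c x : ℕ) :
    ((wh (c % 64) (c >>> 6 % 8)).comp (wh al a)) (el x) = pr (mid al a c x) := by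
  simp [wh, mid, pr_red, hom_el, hom_pr]

lemma path_spec (H : Rel γ) {al a be b c : ℕ} (h : path al a be b c = true) {ψ : F →* F} {X : M}
    (ih : IH γ (nm ψ)) (l1 : nm ((wh al a).comp ψ) < nm ψ)
    (l2 : S (ub (mid al a c) (pg al be c)) ψ < nm ψ)
    (hR : R γ ((wh al a).comp ψ) (rho γ (ww al a) * X)) :
    R γ ((wh be b).comp ψ) (rho γ (ww be b) * X) := by
  simp only [path, Bool.and_eq_true, beq_iff_eq] at h
  obtain ⟨⟨⟨⟨h1, h2⟩, h3⟩, h4⟩, h5⟩ := h
  have l3 := nm_le_S (fun x _ => mid_spec al a c x) h3 ψ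
  have r1 := ih _ _ l1 hR _ _ h1
  have r2 := ih _ _ (lt_of_le_of_lt l3 l2) r1 _ _ h2
  have r3 := r2.rotS (nf (c >>> 18 % 32)) (nf_lt _ (Nat.mod_lt _ (by norm_num)))
  have e1 : (rotS (nf (c >>> 18 % 32))).comp ((wh (c >>> 9 % 64) (c >>> 15 % 8)).comp
      ((wh (c % 64) (c >>> 6 % 8)).comp (wh al a))) = wh be b := by
    refine ext3 h4 (fun x => ?_) (fun x => by simp [wh, hom_el])
    rw [MonoidHom.comp_apply, MonoidHom.comp_apply, mid_spec, wh, hom_pr, rotS_pr]
  have e2 := H _ _ h5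
  rw [← e1, ← e2]
  simpa only [rho_append, mul_assoc, MonoidHom.comp_assoc] using r3

lemma cfg_spec (H : Rel γ) {al a be b c : ℕ} (h1 : valid al a = true) (h2 : valid be b = true)
    (h : cfg al a (be, b) c = true) : Pk γ al a be b := by
  intro ψ X ih l1 l2 hR
  simp only [cfg, frc_eq, Bool.and_eq_true] at h
  obtain ⟨h3, h4⟩ := h
  have e1 := nm_wh h1 ψ
  have e2 := nm_wh h2 ψ
  cases h5 : Nat.beq (c / 2 ^ 30) 0
  · simp only [h5, cond_false, Bool.and_eq_true] at h4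
    have := S_le (f1 := ub (mid al a (c % 2 ^ 30)) (pg al be (c % 2 ^ 30)))
      (f2 := ub (mid al a (c / 2 ^ 30)) (pg al be (c / 2 ^ 30))) (g1 := fW al a) (g2 := fW be b)
      (fun u hu v hv => Nat.le_of_ble_eq_true (all7_spec (all7_spec h4.2 hv) hu)) ψ
    by_cases h6 : S (ub (mid al a (c % 2 ^ 30)) (pg al be (c % 2 ^ 30))) ψ < nm ψ
    · exact path_spec H h3 ih l1 h6 hR
    · exact path_spec H h4.1 ih l1 (by omega) hR
  · simp only [h5, cond_true] at h4
    have := S_le (f1 := ub (mid al a (c % 2 ^ 30)) (pg al be (c % 2 ^ 30)))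
      (f2 := f0) (g1 := fW al a) (g2 := fW be b)
      (fun u hu v hv => Nat.le_of_ble_eq_true (all7_spec (all7_spec h4 hv) hu)) ψ
    rw [S_f0] at this
    exact path_spec H h3 ih l1 (by omega) hR

lemma Pk.transfer (H : Rel γ) {g m a n b m' a' n' b' : ℕ} (hg : g < 2)
    (h1 : cj g m a m' a' = true) (h2 : cj g n b n' b' = true) (h : Pk γ m a n b) :
    Pk γ m' a' n' b' := by
  intro ψ X ih l1 l2 hR
  obtain ⟨-, -, c1, c2⟩ := cj_spec H h1
  obtain ⟨-, -, d1, d2⟩ := cj_spec H h2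
  have := h ((H60.rot g).comp ψ) (γ (24 + g) * X)
  simp only [← MonoidHom.comp_assoc, c1, d1, ← mul_assoc, c2, d2] at this
  simp only [MonoidHom.comp_assoc, nm_rot hg, mul_assoc] at this
  exact (this ih l1 l2 (hR.rot hg)).unrot H hg

lemma compat (H : Rel γ) {m a n b : ℕ} (h1 : valid m a = true) (h2 : valid n b = true)
    (hc : cp m n = true) : Pk γ m a n b := by
  let P : ℕ → Prop := fun a => ∀ m n b, valid m a = true → valid n b = true → cp m n = true →
    Pk γ m a n b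
  have p0 : P 0 := by
    intro m n b h1 h2 hc
    obtain ⟨t, ht⟩ := cert0 h1
    obtain ⟨c, h⟩ := go_spec ht _ (mem_cps h2 hc)
    exact cfg_spec H h1 h2 h
  have st : ∀ g < 2, ∀ a, P (rt g a) → P a := by
    intro g hg a h m n b h1 h2 hc
    have c1 := allW_spec cF_all h1
    have c2 := allW_spec cF_all h2
    have c3 := cp_mF m (valid_lt h1).2 n (valid_lt h2).2 hc
    simp only [Bool.and_eq_true] at c1 c2
    interval_cases g
    · exact (h _ _ _ (cj_spec H c1.1).1 (cj_spec H c2.1).1 c3.1).transfer H hg c1.1 c2.1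
    · exact (h _ _ _ (cj_spec H c1.2).1 (cj_spec H c2.2).1 c3.2).transfer H hg c1.2 c2.2
  have p2 : P 2 := st 1 (by norm_num) 2 p0
  have p5 : P 5 := st 0 (by norm_num) 5 p2
  have p4 : P 4 := st 1 (by norm_num) 4 p5
  have p3 : P 3 := st 0 (by norm_num) 3 p5
  have p1 : P 1 := st 1 (by norm_num) 1 p3
  have ha := (valid_lt h1).1
  interval_cases a
  exacts [p0 _ _ _ h1 h2 hc, p1 _ _ _ h1 h2 hc, p2 _ _ _ h1 h2 hc, p3 _ _ _ h1 h2 hc,
    p4 _ _ _ h1 h2 hc, p5 _ _ _ h1 h2 hc]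

lemma IH.mono {n k : ℕ} (h : IH γ n) (hk : k ≤ n) : IH γ k :=
  fun ψ X l => h ψ X (lt_of_lt_of_le l hk)

lemma IH.succ (H : Rel γ) {n : ℕ} (ih : IH γ n) : IH γ (n + 1) := by
  intro ψ X l hR
  induction hR with
  | base =>
    intro m a h
    have hc := allW_spec base_all h
    simp only [Bool.or_eq_true, Bool.and_eq_true, Nat.blt_eq, beq_iff_eq] at hc
    rcases hc with hc | hc
    · exact R.up h (by rw [nm_wh h, S_id, nm_id]; exact hc) R.base
    · have : wh m a = MonoidHom.id F :=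
        ext3 hc.1 (fun x => by simp [wh, hom_el]) (fun x => by simp)
      rw [this, hc.2]
      simpa using R.base
  | @rot g ψ X hg _ ih2 =>
    intro m a h
    rw [nm_rot hg] at l
    have hc := allW_spec cB_all h
    simp only [Bool.and_eq_true] at hc
    obtain ⟨n', b, hj⟩ : ∃ n' b, cj g m a n' b = true := by
      interval_cases g
      exacts [⟨_, _, hc.1⟩, ⟨_, _, hc.2⟩]
    obtain ⟨-, c0, c1, c2⟩ := cj_spec H hj
    rw [← MonoidHom.comp_assoc, c1, ← mul_assoc, c2, MonoidHom.comp_assoc, mul_assoc]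
    exact (ih2 l _ _ c0).rot hg
  | @up m' a' ψ X h' l' hR _ =>
    intro m a h
    by_cases hl : nm ((wh m' a').comp ψ) < nm ((wh m a).comp ((wh m' a').comp ψ))
    · exact R.up h hl (R.up h' l' hR)
    · obtain ⟨i1, i2, i3⟩ := inv_spec H h'
      have e : (wh (ivm m' a') (iv a')).comp ((wh m' a').comp ψ) = ψ := by
        rw [← MonoidHom.comp_assoc, i2, MonoidHom.id_comp]
      have l1 : nm ((wh (ivm m' a') (iv a')).comp ((wh m' a').comp ψ)) <
          nm ((wh m' a').comp ψ) := by rwa [e]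
      obtain ⟨k, g, v, c1, c2, l2⟩ := sector i1 h l1 (not_lt.1 hl)
      have ih' := ih.mono (Nat.lt_succ_iff.1 l)
      refine compat H v h c2 _ _ ih' l2 (not_lt.1 hl) (compat H i1 v c1 _ _ ih' l1 l2.le ?_)
      rwa [e, ← mul_assoc, i3, one_mul]

theorem R.wh (H : Rel γ) {ψ : F →* F} {X : M} (h : R γ ψ X) {m a : ℕ} (v : valid m a = true) :
    R γ ((wh m a).comp ψ) (rho γ (ww m a) * X) := by
  have : ∀ n, IH γ n := by
    intro n
    induction n with
    | zero => exact fun _ _ l => absurd l (Nat.not_lt_zero _)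
    | succ n ih => exact ih.succ H
  exact this _ ψ X (Nat.lt_succ_self _) h m a v

lemma R.three_le {ψ : F →* F} {X : M} (h : R γ ψ X) : 3 ≤ nm ψ := by
  induction h with
  | base => exact nm_id.ge
  | rot hg _ ih => rwa [nm_rot hg]
  | up _ l _ ih => omega

lemma R.low (H : Rel γ) {ψ : F →* F} {X : M} (h : R γ ψ X) (l : nm ψ ≤ 3) :
    ∃ j < 24, ψ = H60.rotS (nf j) ∧ X = rho γ (sw (nf j)) := by
  induction h with
  | base => exact ⟨0, by norm_num, rfl, rfl⟩
  | @rot g ψ X hg _ ih =>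
    rw [nm_rot hg] at l
    obtain ⟨j, hj, rfl, rfl⟩ := ih l
    obtain ⟨h1, h2, h3⟩ := nf_all g hg j hj
    refine ⟨_, h1, ?_, ?_⟩
    · exact ext3 (Φ := H60.rotS (g :: nf j)) h2 (fun x => by simpa using rotS_pr _ [x])
        (fun x => by simpa using rotS_pr _ [x])
    · simpa [sw] using H _ _ h3
  | up _ l' h _ => have := h.three_le; omega

lemma el_inj {x y : ℕ} (hx : x < 6) (hy : y < 6) (h : el x = el y) : x = y := by
  by_contra hne
  have h1 : Rd 6 [x, iv y] := ⟨hx, hx.ne, iv_lt hy, fun e => hne (by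
    rw [← iv_iv x, ← e, iv_iv]), trivial⟩
  have := h1.norm
  simp [h, el_iv] at this

lemma R.eq_one (H : Rel γ) {X : M} (h : R γ (MonoidHom.id F) X) : X = 1 := by
  obtain ⟨j, hj, h1, rfl⟩ := h.low H nm_id.le
  obtain ⟨x, hx, y, hy, h2, h3⟩ := nf_one j hj
  have h4 := rotS_pr (nf j) [x]
  rw [← h1, h2] at h4
  rw [h3 (el_inj hx hy (by simpa using h4))]
  rfl

lemma R.mul (H : Rel γ) {φ ψ : F →* F} {X Y : M} (h : R γ φ X) (h' : R γ ψ Y) :
    R γ (φ.comp ψ) (X * Y) := by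
  induction h with
  | base => simpa using h'
  | rot hg _ ih => rw [MonoidHom.comp_assoc, mul_assoc]; exact ih.rot hg
  | up v _ _ ih => rw [MonoidHom.comp_assoc, mul_assoc]; exact ih.wh H v

lemma R.inv (H : Rel γ) {φ : F →* F} {X : M} (h : R γ φ X) :
    ∃ φ' X', R γ φ' X' ∧ φ'.comp φ = MonoidHom.id F ∧ X' * X = 1 := by
  induction h with
  | base => exact ⟨_, _, R.base, rfl, mul_one _⟩
  | @rot g ψ X hg _ ih =>
    obtain ⟨φ', X', h1, h2, h3⟩ := ih
    refine ⟨_, _, h1.mul H (R.base.rotS [g, g, g] (by simpa using hg)), ?_, ?_⟩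
    · have e : (H60.rotS [g, g, g]).comp (H60.rot g) = MonoidHom.id F := rot_four' hg
      rw [MonoidHom.comp_id, MonoidHom.comp_assoc, ← MonoidHom.comp_assoc ψ, e,
        MonoidHom.id_comp, h2]
    · have e := gam_four H hg
      simp only [sw, List.map_cons, List.map_nil, rho_cons, rho_nil, mul_one] at e ⊢
      calc _ = X' * (γ (24 + g) * (γ (24 + g) * (γ (24 + g) * γ (24 + g)))) * X := by
            simp only [mul_assoc]
        _ = 1 := by rw [e, mul_one, h3]
  | @up m a ψ X v _ _ ih =>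
    obtain ⟨φ', X', h1, h2, h3⟩ := ih
    obtain ⟨i1, i2, i3⟩ := inv_spec H v
    refine ⟨_, _, h1.mul H (R.base.wh H i1), ?_, ?_⟩
    · rw [MonoidHom.comp_id, MonoidHom.comp_assoc, ← MonoidHom.comp_assoc ψ, i2,
        MonoidHom.id_comp, h2]
    · rw [mul_one, mul_assoc, ← mul_assoc _ _ X, i3, one_mul, h3]

theorem R.unique (H : Rel γ) {φ : F →* F} {X Y : M} (h : R γ φ X) (h' : R γ φ Y) : X = Y := by
  obtain ⟨φ', X', h1, h2, h3⟩ := h.inv H
  obtain ⟨-, X'', -, -, h4⟩ := h1.inv H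
  have h5 := h1.mul H h'
  rw [h2] at h5
  have h6 := h5.eq_one H
  calc X = X'' * (X' * X) := by rw [← mul_assoc, h4, one_mul]
    _ = X'' * (X' * Y) := by rw [h3, h6]
    _ = Y := by rw [← mul_assoc, h4, one_mul]

end Pool.Agent.Lib.MP_89352f_al.H60
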