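import Pool.Agent.Lib.MP_89352f_al.H60Tab

namespace Pool.Agent.Lib.MP_89352f_al.H60

theorem rb0 : rc0.all chkC = true := by decide +kernel

theorem rb1 : rc1.all chkC = true := by decide +kernel

theorem rb2 : rc2.all chkC = true := by decide +kernel

theorem rb3 : rc3.all chkC = true := by decide +kernel

theorem rb4 : rc4.all chkC = true := by decide +kernel

theorem rb5 : rc5.all chkC = true := by decide +kernel

theorem rb6 : rc6.all chkC = true := by decide +kernel

theorem rb7 : rc7.all chkC = true := by decide +kernel

theorem rb8 : rc8.all chkC = true := by decide +kernel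

end Pool.Agent.Lib.MP_89352f_al.H60
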