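import Pool.Agent.Lib.MP_89352f_al.H60Tab

namespace Pool.Agent.Lib.MP_89352f_al.H60

theorem rb9 : rc9.all chkC = true := by decide +kernel

theorem rb10 : rc10.all chkC = true := by decide +kernel

theorem rb11 : rc11.all chkC = true := by decide +kernel

theorem rb12 : rc12.all chkC = true := by decide +kernel

theorem rb13 : rc13.all chkC = true := by decide +kernel

theorem rb14 : rc14.all chkC = true := by decide +kernel

theorem rb15 : rc15.all chkC = true := by decide +kernel

theorem rb16 : rc16.all chkC = true := by decide +kernel

end Pool.Agent.Lib.MP_89352f_al.H60
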