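import Pool.Agent.Lib.MP_89352f_al.Defs
import Pool.Agent.Lib.MP_89352f_al.H60Peak
import Pool.Agent.Lib.MP_89352f_al.H60Niel
import Pool.Agent.Lib.MP_89352f_al.H60Rel0
import Pool.Agent.Lib.MP_89352f_al.H60Rel1

/-!
`Q(3,m)` has an element of infinite order for `m ≥ 5`.
-/

namespace Pool.Agent.Lib.MP_89352f_al.H60

open FreeGroup

lemma rel_all : (relT.all fun l => l.all chkC) = true := by
  simp only [relT, List.all_cons, List.all_nil, Bool.and_self,
    rb0, rb1, rb2, rb3, rb4, rb5, rb6, rb7, rb8, rb9, rb10, rb11, rb12, rb13, rb14, rb15, rb16]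

lemma rel_gam {u : ℂ} (hu : u ≠ 0) : Rel (gam u) := by
  intro w1 w2 h
  rcases inR_chk rel_all h with rfl | h
  · rfl
  · exact chk_sound hu h

section group
variable {M : Type} [Monoid M] {γ : ℕ → M}

/-- The automorphisms with value `1`. -/
def K0 (H : Rel γ) : Subgroup (MulAut F) where
  carrier := {g | R γ g.toMonoidHom 1}
  one_mem' := R.base
  mul_mem' := fun {a b} ha hb => by
    have := R.mul H ha hb
    rw [mul_one] at this
    exact this
  inv_mem' := fun {g} hg => by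
    obtain ⟨φ, X, h1, h2, h3⟩ := R.inv H hg
    have e : φ = (g⁻¹ : MulAut F).toMonoidHom := by
      ext i
      have := DFunLike.congr_fun h2 (g⁻¹ (of i))
      simpa using this
    rw [mul_one] at h3
    rw [h3, e] at h1
    exact h1

lemma exists_R (H : Rel γ) {φ : F →* F} (hφ : Function.Bijective φ) :
    ∃ s X, R γ s X ∧ (φ = s ∨ φ = tau.comp s) := by
  refine gen (fun φ => ∃ s X, R γ s X ∧ (φ = s ∨ φ = tau.comp s)) (fun j hj => ?_)
    (fun φ m a v h => ?_) hφ
  · have := (R.base (γ := γ)).rotS (nf j) (nf_lt j (by omega))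
    exact ⟨⟨_, _, this, Or.inl rfl⟩, ⟨_, _, this, Or.inr rfl⟩⟩
  · obtain ⟨s, X, h1, h2⟩ := h
    refine ⟨_, _, h1.mul H (R.base.wh H (wh_inv v).1), ?_⟩
    have e : φ = (φ.comp (wh m a)).comp (wh (ivm m a) (iv a)) := by
      rw [MonoidHom.comp_assoc, wh_inv' v, MonoidHom.comp_id]
    refine h2.imp (fun h => ?_) (fun h => ?_)
    · rw [e, h]; rfl
    · rw [e, h]; rfl

lemma R.pow (H : Rel γ) {g : MulAut F} {X : M} (h : R γ g.toMonoidHom X) (n : ℕ) :
    R γ (g ^ n).toMonoidHom (X ^ n) := by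
  induction n with
  | zero => rw [pow_zero, pow_zero]; exact R.base
  | succ n ih => rw [pow_succ, pow_succ]; exact ih.mul H h

lemma nielsen_eq : (nielsen 3 (by norm_num)).toMonoidHom = wh 5 2 := by
  ext i
  fin_cases i <;> rfl

lemma tau_comm : tau.comp (wh 5 2) = (wh 5 2).comp tau := by
  ext i
  fin_cases i <;> rfl

lemma le_K0 (H : Rel γ) {m : ℕ} (hm : rho γ (ww 5 2) ^ m = 1) :
    Subgroup.normalClosure {nielsen 3 (by norm_num) ^ m} ≤ K0 H := by
  refine le_trans (Subgroup.normalClosure_le_normal ?_) (K0 H).normalCore_le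
  rintro _ rfl c
  obtain ⟨s, X, h1, h2⟩ :=
    exists_R H (φ := (c⁻¹ : MulAut F).toMonoidHom) (c⁻¹ : MulAut F).bijective
  obtain ⟨s', X', h3, h4, h5⟩ := h1.inv H
  have h6 : R γ (nielsen 3 (by norm_num)).toMonoidHom (rho γ (ww 5 2)) := by
    rw [nielsen_eq]
    simpa using (R.base (γ := γ)).wh H (m := 5) (a := 2) (by decide)
  have h7 := h3.mul H ((h6.pow H m).mul H h1)
  rw [hm, one_mul, h5] at h7
  change R γ _ 1
  convert h7 using 1
  have h8 : ∀ x, s' (s x) = x := fun x => DFunLike.congr_fun h4 x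
  have h9 : ∀ x, (nielsen 3 (by norm_num) ^ m) (tau x) =
      tau ((nielsen 3 (by norm_num) ^ m) x) := by
    clear * -
    induction m with
    | zero => intro x; rfl
    | succ m ih =>
      intro x
      have e := DFunLike.congr_fun tau_comm
      simp only [← nielsen_eq, MonoidHom.comp_apply, MulEquiv.coe_toMonoidHom] at e
      rw [pow_succ, MulAut.mul_apply, ← e, ih, MulAut.mul_apply]
  ext i
  simp only [MulEquiv.coe_toMonoidHom, MulAut.mul_apply, MonoidHom.comp_apply]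
  rcases h2 with h2 | h2
  · have e : ∀ x, (c⁻¹ : MulAut F) x = s x := fun x => DFunLike.congr_fun h2 x
    rw [← e, ← h8 (c _), ← e]
    simp
  · have e : ∀ x, (c⁻¹ : MulAut F) x = tau (s x) := fun x => DFunLike.congr_fun h2 x
    have tt : ∀ x, tau (tau x) = x := by
      have : tau.comp tau = MonoidHom.id F := by ext i; fin_cases i <;> rfl
      exact fun x => DFunLike.congr_fun this x
    rw [e, h9, ← h8 (c _), ← tt (s (c _)), ← e]
    simp [tt]

lemma infinite_order (H : Rel γ) {m : ℕ} (hm : rho γ (ww 5 2) ^ m = 1)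
    (hw : ∀ n, 0 < n → rho γ wI ^ n ≠ 1) : ∃ g : Q 3 (by norm_num) m, ¬ IsOfFinOrder g := by
  have v1 : valid 10 3 = true := by decide
  have v2 : valid 5 0 = true := by decide
  have v3 : valid 10 1 = true := by decide
  have v4 : valid 5 2 = true := by decide
  have h1 := ((((R.base (γ := γ)).wh H v4).wh H v3).wh H v2).wh H v1
  have e : rho γ (ww 10 3) * (rho γ (ww 5 0) * (rho γ (ww 10 1) * (rho γ (ww 5 2) * 1))) =
      rho γ wI := by
    rw [mul_one, ← rho_append, ← rho_append, ← rho_append]; rfl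
  rw [e] at h1
  have hb : Function.Bijective ((wh 10 3).comp ((wh 5 0).comp ((wh 10 1).comp
      ((wh 5 2).comp (MonoidHom.id F))))) :=
    (wh_bij v1).comp ((wh_bij v2).comp ((wh_bij v3).comp (wh_bij v4)))
  let g : MulAut F := MulEquiv.ofBijective _ hb
  refine ⟨QuotientGroup.mk g, fun h => ?_⟩
  obtain ⟨n, hn, h2⟩ := isOfFinOrder_iff_pow_eq_one.1 h
  rw [← QuotientGroup.mk_pow, QuotientGroup.eq_one_iff] at h2
  exact hw n hn (R.unique H (R.pow H (g := g) h1 n) (le_K0 H hm h2))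

end group

lemma norm_trace_le {A : Matrix (Fin 14) (Fin 14) ℂ} {n : ℕ} (hn : 0 < n) (h : A ^ n = 1) :
    ‖A.trace‖ ≤ 14 := by
  rw [Matrix.trace_eq_sum_roots_charpoly]
  have h1 : ∀ z ∈ A.charpoly.roots, ‖z‖ ≤ 1 := by
    intro z hz
    have h2 : z ∈ spectrum ℂ A :=
      Matrix.mem_spectrum_iff_isRoot_charpoly.2 (Polynomial.isRoot_of_mem_roots hz)
    have h3 := spectrum.pow_mem_pow A n h2
    rw [h, spectrum.one_eq, Set.mem_singleton_iff] at h3
    exact (Complex.norm_eq_one_of_pow_eq_one h3 hn.ne').le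
  have h2 : A.charpoly.roots.card ≤ 14 := by
    simpa using Polynomial.card_roots' A.charpoly
  refine (norm_multiset_sum_le _).trans ((Multiset.sum_le_card_nsmul _ 1 ?_).trans ?_)
  · intro x hx
    obtain ⟨z, hz, rfl⟩ := Multiset.mem_map.1 hx
    exact h1 z hz
  · simpa using (Nat.cast_le (α := ℝ)).2 h2

theorem five {m : ℕ} (hm : 5 ≤ m) : ∃ g : Q 3 (by norm_num) m, ¬ IsOfFinOrder g := by
  have hm0 : (5 : ℝ) ≤ m := by exact_mod_cast hm
  have hm1 : (m : ℂ) ≠ 0 := by exact_mod_cast (by omega : m ≠ 0)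
  let t : ℝ := Real.pi / m
  let z : ℂ := Complex.exp (t * Complex.I)
  let u : ℂ := Complex.I * z
  have hz : z ≠ 0 := Complex.exp_ne_zero _
  have hu : u ≠ 0 := mul_ne_zero Complex.I_ne_zero hz
  have H := rel_gam hu
  have hu2 : u ^ 2 = -z ^ 2 := by simp [u, mul_pow]
  have hc : z ^ 2 + (z ^ 2)⁻¹ = ((2 * Real.cos (2 * t) : ℝ) : ℂ) := by
    simp only [z, ← Complex.exp_nat_mul, ← Complex.exp_neg]
    push_cast
    rw [Complex.two_cos]
    congr 2 <;> ring
  have ht0 : 0 < t := div_pos Real.pi_pos (by linarith)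
  have ht1 : t ≤ 0.63 := by
    rw [div_le_iff₀ (by linarith)]
    nlinarith [Real.pi_lt_d2]
  have hc1 : 0.2 ≤ Real.cos (2 * t) := by
    nlinarith [Real.one_sub_sq_div_two_le_cos (x := 2 * t)]
  have hc2 : Real.cos (2 * t) < 1 := by
    rw [← Real.cos_zero]
    exact Real.cos_lt_cos_of_nonneg_of_le_pi le_rfl (by nlinarith [Real.pi_gt_three])
      (by linarith)
  have hzm : (z ^ 2) ^ m = 1 := by
    rw [← pow_mul, ← Complex.exp_nat_mul, ← Complex.exp_two_pi_mul_I]
    congr 1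
    simp only [t]
    push_cast
    field_simp
  have hne : u ≠ -u⁻¹ := by
    intro h
    have h1 : z ^ 2 = 1 := by
      have : u ^ 2 = -1 := by rw [sq]; nth_rewrite 2 [h]; field_simp
      rw [hu2] at this
      exact neg_injective this
    rw [h1] at hc
    have : ((2 : ℝ) : ℂ) = ((2 * Real.cos (2 * t) : ℝ) : ℂ) := by rw [← hc]; norm_num
    have := Complex.ofReal_injective this
    linarith
  have hpm : u ^ m = (-u⁻¹) ^ m := by
    have : u = z ^ 2 * -u⁻¹ := by
      field_simp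
      rw [hu2]
    nth_rewrite 1 [this]
    rw [mul_pow, hzm, one_mul]
  refine infinite_order H ?_ fun n hn h => ?_
  · have c1 : gam u 13 * gam u 14 = gam u 14 * gam u 13 := by simpa using H _ _ inR_lam.1
    have c2 : gam u 12 * gam u 13 = 1 := by simpa using H _ _ inR_lam.2.1
    have c3 : gam u 14 * gam u 15 = 1 := by simpa using H _ _ inR_lam.2.2
    have p1 := pow_eq_smul c2 (gam_sub hu (rs := e6) rfl rfl rfl) (by field_simp) hne hpm
    have p2 := pow_eq_smul c3 (gam_sub hu (rs := e7) rfl rfl rfl) (by field_simp) hne hpm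
    have c4 : Commute (gam u 13) (gam u 12) := (mul_eq_one_comm.1 c2).trans c2.symm
    have e : rho (gam u) (ww 5 2) = gam u 13 * gam u 14 := by
      rw [show ww 5 2 = [13, 14] from rfl]; simp
    rw [e, Commute.mul_pow c1, p2, ← p1, ← c4.mul_pow, mul_eq_one_comm.1 c2, one_pow]
  · have h1 := norm_trace_le hn h
    rw [rho, trace_gam hu] at h1
    obtain ⟨s, hs⟩ : ∃ s : ℝ, s = 2 * Real.cos (2 * t) := ⟨_, rfl⟩
    have e : (u ^ 8 + u⁻¹ ^ 8) - 2 * (u ^ 6 + u⁻¹ ^ 6) + 9 * (u ^ 4 + u⁻¹ ^ 4) -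
        18 * (u ^ 2 + u⁻¹ ^ 2) + 26 = ((s ^ 4 + 2 * s ^ 3 + 5 * s ^ 2 + 12 * s + 10 : ℝ) : ℂ) := by
      have e1 : (s : ℂ) = -(u ^ 2 + u⁻¹ ^ 2) := by
        rw [hs, ← hc, inv_pow, hu2, inv_neg]; ring
      push_cast
      rw [e1]
      field_simp
      ring
    have hs0 : 0.4 ≤ s := by linarith
    rw [e, Complex.norm_real, Real.norm_of_nonneg (by positivity)] at h1
    have : 0 ≤ s ^ 4 + 2 * s ^ 3 + 5 * s ^ 2 := by positivity
    linarith

end Pool.Agent.Lib.MP_89352f_al.H60
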