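import Mathlib

/-!
Fourteen by fourteen matrices over polynomials: the half twists along the twelve edges of a cube
in the Temperley-Lieb link module on eight points, two rotations, and an exact test for
identities between products of them (Kronecker substitution).
-/

namespace Pool.Agent.Lib.MP_89352f_al.H60

open Polynomial

abbrev Row := List (ℕ × ℕ × Bool)

def e0 : List Row :=
   [[(1, 5, true), (4, 5, true), (5, 1, true), (6, 2, false), (6, 4, false), (8, 1, true)],
    [(1, 4, true), (6, 3, false), (8, 0, true)],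
    [(3, 5, true), (6, 3, false), (7, 1, true)],
    [(3, 4, true), (6, 2, false), (7, 0, true)],
    [(4, 4, true), (5, 0, true), (6, 1, false)],
    [(4, 6, true), (5, 2, true), (6, 3, false)],
    [],
    [(3, 6, true), (6, 4, false), (7, 2, true)],
    [(1, 6, true), (6, 5, false), (8, 2, true)],
    [(3, 5, true), (6, 3, false), (7, 1, true)],
    [(4, 5, true), (5, 1, true), (6, 2, false)],
    [(1, 5, true), (6, 4, false), (8, 1, true)],
    [(0, 3, false), (1, 4, true), (4, 4, true), (5, 2, true), (6, 3, false), (8, 2, true), (10, 3, false), (11, 3, false), (12, 2, true), (12, 4, true)],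
    [(2, 3, false), (3, 4, true), (7, 2, true), (9, 3, false), (13, 2, true), (13, 4, true)]]

def e1 : List Row :=
   [[],
    [],
    [(0, 3, false), (2, 2, true), (2, 4, true)],
    [(1, 3, false), (3, 2, true), (3, 4, true), (4, 3, false)],
    [],
    [],
    [],
    [(5, 3, false), (7, 2, true), (7, 4, true), (8, 3, false)],
    [],
    [(6, 3, false), (9, 2, true), (9, 4, true), (10, 3, false), (11, 3, false)],
    [],
    [],
    [],
    [(12, 3, false), (13, 2, true), (13, 4, true)]]

def e2 : List Row :=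
   [[(1, 1, true), (4, 5, true), (5, 5, true), (6, 2, false), (6, 4, false), (8, 1, true)],
    [(1, 2, true), (4, 6, true), (6, 3, false)],
    [(0, 3, false), (1, 2, true), (2, 2, true), (2, 4, true), (3, 3, false), (4, 4, true), (5, 4, true), (6, 3, false), (7, 3, false), (8, 2, true)],
    [(1, 1, true), (4, 5, true), (6, 2, false)],
    [(1, 0, true), (4, 4, true), (6, 1, false)],
    [(5, 4, true), (6, 3, false), (8, 0, true)],
    [],
    [(5, 5, true), (6, 4, false), (8, 1, true)],
    [(5, 6, true), (6, 5, false), (8, 2, true)],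
    [(6, 3, false), (10, 5, true), (11, 1, true)],
    [(6, 2, false), (10, 4, true), (11, 0, true)],
    [(6, 4, false), (10, 6, true), (11, 2, true)],
    [(6, 3, false), (10, 5, true), (11, 1, true)],
    [(9, 3, false), (10, 4, true), (11, 2, true), (12, 3, false), (13, 2, true), (13, 4, true)]]

def e3 : List Row :=
   [[],
    [],
    [],
    [],
    [],
    [],
    [],
    [],
    [],
    [(3, 3, false), (6, 3, false), (7, 3, false), (9, 2, true), (9, 4, true)],
    [(4, 3, false), (5, 3, false), (10, 2, true), (10, 4, true)],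
    [(1, 3, false), (8, 3, false), (11, 2, true), (11, 4, true)],
    [(0, 3, false), (12, 2, true), (12, 4, true)],
    [(2, 3, false), (13, 2, true), (13, 4, true)]]

def e4 : List Row :=
   [[(2, 5, true), (4, 5, true), (8, 1, true), (12, 1, true), (13, 2, false), (13, 4, false)],
    [(3, 5, true), (11, 1, true), (13, 3, false)],
    [(2, 4, true), (8, 0, true), (13, 3, false)],
    [(3, 4, true), (11, 0, true), (13, 2, false)],
    [(4, 4, true), (12, 0, true), (13, 1, false)],
    [(0, 3, false), (2, 4, true), (4, 4, true), (5, 2, true), (5, 4, true), (7, 3, false), (8, 2, true), (10, 3, false), (12, 2, true), (13, 3, false)],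
    [(1, 3, false), (3, 4, true), (6, 2, true), (6, 4, true), (9, 3, false), (11, 2, true)],
    [(2, 5, true), (8, 1, true), (13, 4, false)],
    [(2, 6, true), (8, 2, true), (13, 5, false)],
    [(3, 5, true), (11, 1, true), (13, 3, false)],
    [(4, 5, true), (12, 1, true), (13, 2, false)],
    [(3, 6, true), (11, 2, true), (13, 4, false)],
    [(4, 6, true), (12, 2, true), (13, 3, false)],
    []]

def e5 : List Row :=
   [[],
    [],
    [],
    [],
    [],
    [(0, 3, false), (5, 2, true), (5, 4, true)],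
    [(1, 3, false), (6, 2, true), (6, 4, true)],
    [(2, 3, false), (7, 2, true), (7, 4, true), (8, 3, false)],
    [],
    [(3, 3, false), (9, 2, true), (9, 4, true), (11, 3, false), (13, 3, false)],
    [(4, 3, false), (10, 2, true), (10, 4, true), (12, 3, false)],
    [],
    [],
    []]

def e6 : List Row :=
   [[(2, 1, true), (4, 5, true), (8, 1, true), (12, 5, true), (13, 2, false), (13, 4, false)],
    [(0, 3, false), (1, 2, true), (1, 4, true), (2, 2, true), (3, 3, false), (4, 4, true), (8, 2, true), (11, 3, false), (12, 4, true), (13, 3, false)],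
    [(2, 2, true), (4, 6, true), (13, 3, false)],
    [(2, 1, true), (4, 5, true), (13, 2, false)],
    [(2, 0, true), (4, 4, true), (13, 1, false)],
    [(7, 1, true), (10, 5, true), (13, 3, false)],
    [(5, 3, false), (6, 2, true), (6, 4, true), (7, 2, true), (9, 3, false), (10, 4, true)],
    [(7, 2, true), (10, 6, true), (13, 4, false)],
    [(8, 2, true), (12, 6, true), (13, 5, false)],
    [(7, 1, true), (10, 5, true), (13, 3, false)],
    [(7, 0, true), (10, 4, true), (13, 2, false)],
    [(8, 1, true), (12, 5, true), (13, 4, false)],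
    [(8, 0, true), (12, 4, true), (13, 3, false)],
    []]

def e7 : List Row :=
   [[],
    [(0, 3, false), (1, 2, true), (1, 4, true)],
    [],
    [(2, 3, false), (3, 2, true), (3, 4, true), (4, 3, false)],
    [],
    [],
    [(5, 3, false), (6, 2, true), (6, 4, true)],
    [],
    [],
    [(7, 3, false), (9, 2, true), (9, 4, true), (10, 3, false), (13, 3, false)],
    [],
    [(8, 3, false), (11, 2, true), (11, 4, true), (12, 3, false)],
    [],
    []]

def e8 : List Row :=
   [[(0, 2, true), (0, 4, true), (5, 3, false), (8, 3, false), (12, 3, false)],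
    [(1, 2, true), (1, 4, true), (6, 3, false), (11, 3, false)],
    [(2, 2, true), (2, 4, true), (7, 3, false), (13, 3, false)],
    [(3, 2, true), (3, 4, true), (9, 3, false)],
    [(4, 2, true), (4, 4, true), (10, 3, false)],
    [],
    [],
    [],
    [],
    [],
    [],
    [],
    [],
    []]

def e9 : List Row :=
   [[(0, 2, true), (0, 4, true), (2, 3, false), (4, 3, false), (5, 3, false)],
    [(1, 2, true), (1, 4, true), (3, 3, false), (6, 3, false)],
    [],
    [],
    [],
    [],
    [],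
    [],
    [(7, 3, false), (8, 2, true), (8, 4, true)],
    [],
    [],
    [(9, 3, false), (11, 2, true), (11, 4, true)],
    [(10, 3, false), (12, 2, true), (12, 4, true), (13, 3, false)],
    []]

def e10 : List Row :=
   [[(0, 2, true), (0, 4, true), (1, 3, false), (4, 3, false), (12, 3, false)],
    [],
    [(2, 2, true), (2, 4, true), (3, 3, false), (13, 3, false)],
    [],
    [],
    [(5, 2, true), (5, 4, true), (6, 3, false), (10, 3, false)],
    [],
    [(7, 2, true), (7, 4, true), (9, 3, false)],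
    [(8, 2, true), (8, 4, true), (11, 3, false)],
    [],
    [],
    [],
    [],
    []]

def e11 : List Row :=
   [[(0, 2, true), (0, 4, true), (1, 3, false), (2, 3, false), (8, 3, false)],
    [],
    [],
    [],
    [(3, 3, false), (4, 2, true), (4, 4, true)],
    [(5, 2, true), (5, 4, true), (6, 3, false), (7, 3, false)],
    [],
    [],
    [],
    [],
    [(9, 3, false), (10, 2, true), (10, 4, true)],
    [],
    [(11, 3, false), (12, 2, true), (12, 4, true), (13, 3, false)],
    []]

def r0 : List Row :=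
   [[(2, 2, false), (2, 4, false), (3, 5, true), (6, 3, false), (7, 1, true)],
    [(2, 3, false), (4, 5, true), (5, 3, false), (7, 2, true)],
    [(2, 3, false), (3, 4, true), (7, 2, true), (9, 3, false)],
    [(2, 2, false), (4, 4, true), (7, 1, true), (10, 3, false)],
    [(2, 1, false), (7, 0, true)],
    [(1, 3, false), (2, 3, false), (3, 4, true), (8, 1, true)],
    [(0, 3, false), (4, 4, true), (8, 2, true)],
    [(2, 4, false), (3, 5, true), (8, 2, true), (11, 3, false)],
    [(2, 5, false), (3, 6, true)],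
    [(2, 3, false), (4, 5, true), (8, 1, true), (12, 3, false)],
    [(2, 2, false), (8, 0, true)],
    [(2, 4, false), (4, 6, true)],
    [(2, 3, false)],
    [(13, 3, false)]]

def r1 : List Row :=
   [[(0, 3, false)],
    [(2, 3, false)],
    [(1, 3, false)],
    [(3, 3, false)],
    [(4, 3, false)],
    [(12, 3, false)],
    [(13, 3, false)],
    [(11, 3, false)],
    [(8, 3, false)],
    [(9, 3, false)],
    [(10, 3, false)],
    [(7, 3, false)],
    [(5, 3, false)],
    [(6, 3, false)]]

def es : List (List Row) := [e0, e1, e2, e3, e4, e5, e6, e7, e8, e9, e10, e11]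

def nth {α : Type} (d : α) (l : List α) : ℕ → α :=
  List.rec (motive := fun _ => ℕ → α) (fun _ => d)
    (fun x _ ih n => Nat.rec x (fun m _ => ih m) n) l

@[simp] lemma nth_nil {α : Type} (d : α) (n : ℕ) : nth d [] n = d := rfl

@[simp] lemma nth_zero {α : Type} (d x : α) (l : List α) : nth d (x :: l) 0 = x := rfl

@[simp] lemma nth_succ {α : Type} (d x : α) (l : List α) (n : ℕ) :
    nth d (x :: l) (n + 1) = nth d l n := rfl

lemma nth_mem {α : Type} (d : α) : ∀ (l : List α) (n : ℕ), nth d l n = d ∨ nth d l n ∈ l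
  | [], _ => Or.inl rfl
  | _ :: _, 0 => Or.inr List.mem_cons_self
  | _ :: l, n + 1 => (nth_mem d l n).imp id (List.mem_cons_of_mem _)

lemma nth_map {α β : Type} (d : α) (f : α → β) : ∀ (l : List α) (n : ℕ),
    nth (f d) (l.map f) n = f (nth d l n)
  | [], _ => rfl
  | _ :: _, 0 => rfl
  | _ :: l, n + 1 => nth_map d f l n

def addD (k : ℕ) : ℕ → List Row → List Row
  | _, [] => []
  | i, r :: rs => ((i, k, false) :: r) :: addD k (i + 1) rs

/-- The rows of the generator with number `g`. -/
def rows (g : ℕ) : List Row :=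
  cond (Nat.ble 24 g) (cond (Nat.beq g 24) r0 r1)
    (addD (cond (Nat.beq (g % 2) 0) 4 2) 0 (nth [] es (g / 2)))

def frc (n : ℕ) (k : ℕ → Bool) : Bool := Nat.rec (k 0) (fun m _ => k (Nat.succ m)) n

lemma frc_eq (n : ℕ) (k : ℕ → Bool) : frc n k = k n := by cases n <;> rfl

def rowK (pw : List ℕ) (v : List (ℕ × ℕ)) (k : ℕ × ℕ → Bool) (r : Row) : ℕ → ℕ → Bool :=
  List.rec (motive := fun _ => ℕ → ℕ → Bool)
    (fun P N => frc P fun P => frc N fun N => frc (Nat.sub P N) fun a =>
      frc (Nat.sub N P) fun b => k (a, b))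
    (fun t _ ih P N => cond t.2.2
      (ih (Nat.add P (Nat.mul (nth 0 pw t.2.1) (nth (0, 0) v t.1).2))
        (Nat.add N (Nat.mul (nth 0 pw t.2.1) (nth (0, 0) v t.1).1)))
      (ih (Nat.add P (Nat.mul (nth 0 pw t.2.1) (nth (0, 0) v t.1).1))
        (Nat.add N (Nat.mul (nth 0 pw t.2.1) (nth (0, 0) v t.1).2)))) r

def appK (pw : List ℕ) (v : List (ℕ × ℕ)) (rs : List Row) : (List (ℕ × ℕ) → Bool) → Bool :=
  List.rec (motive := fun _ => (List (ℕ × ℕ) → Bool) → Bool) (fun k => k [])
    (fun r _ ih k => rowK pw v (fun x => ih fun l => k (x :: l)) r 0 0) rs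

def runK (pw : List ℕ) (v : List (ℕ × ℕ)) (w : List ℕ) : (List (ℕ × ℕ) → Bool) → Bool :=
  List.rec (motive := fun _ => (List (ℕ × ℕ) → Bool) → Bool) (fun k => k v)
    (fun g _ ih k => ih fun v' => appK pw v' (rows g) k) w

def eqv (l : List (ℕ × ℕ)) : List (ℕ × ℕ) → Bool :=
  List.rec (motive := fun _ => List (ℕ × ℕ) → Bool) (fun m => m.isEmpty)
    (fun x _ ih m => List.casesOn m false fun y m' =>
      Nat.beq (Nat.add x.1 y.2) (Nat.add y.1 x.2) && ih m') l

def tv (s C : ℕ) : List (ℕ × ℕ) := (List.range 14).map fun j => (s * C ^ j, 0)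

def pws (B : ℕ) : List ℕ := [1, B, B ^ 2, B ^ 3, B ^ 4, B ^ 5, B ^ 6]

/-- The test for an identity between two products of generators. -/
def chk (p : List ℕ × List ℕ) : Bool :=
  frc (Nat.max p.1.length p.2.length) fun n =>
  frc (2 * 11 ^ n + 1) fun B =>
  frc (2 * 11 ^ n * B ^ (6 * n) + 1) fun C =>
  runK (pws B) (tv (B ^ (3 * (n - p.1.length))) C) p.1 fun l1 =>
  runK (pws B) (tv (B ^ (3 * (n - p.2.length))) C) p.2 fun l2 => eqv l1 l2

def rowV (pw : List ℕ) (v : List (ℕ × ℕ)) : Row → ℕ → ℕ → ℕ × ℕ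
  | [], P, N => (P - N, N - P)
  | t :: r, P, N => cond t.2.2
      (rowV pw v r (P + nth 0 pw t.2.1 * (nth (0, 0) v t.1).2)
        (N + nth 0 pw t.2.1 * (nth (0, 0) v t.1).1))
      (rowV pw v r (P + nth 0 pw t.2.1 * (nth (0, 0) v t.1).1)
        (N + nth 0 pw t.2.1 * (nth (0, 0) v t.1).2))

lemma rowK_eq (pw : List ℕ) (v : List (ℕ × ℕ)) (k : ℕ × ℕ → Bool) :
    ∀ (r : Row) (P N : ℕ), rowK pw v k r P N = k (rowV pw v r P N)
  | [], P, N => by simp only [rowK, frc_eq]; rfl
  | (j, e, s) :: r, P, N => by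
    cases s
    · exact rowK_eq pw v k r _ _
    · exact rowK_eq pw v k r _ _

lemma appK_eq (pw : List ℕ) (v : List (ℕ × ℕ)) : ∀ (rs : List Row) (k : List (ℕ × ℕ) → Bool),
    appK pw v rs k = k (rs.map fun r => rowV pw v r 0 0)
  | [], _ => rfl
  | r :: rs, k => by
    have : appK pw v (r :: rs) k =
      rowK pw v (fun x => appK pw v rs fun l => k (x :: l)) r 0 0 := rfl
    rw [this, rowK_eq, appK_eq pw v rs]
    rfl

def runV (pw : List ℕ) (v : List (ℕ × ℕ)) : List ℕ → List (ℕ × ℕ)
  | [] => v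
  | g :: w => (rows g).map fun r => rowV pw (runV pw v w) r 0 0

lemma runK_eq (pw : List ℕ) (v : List (ℕ × ℕ)) : ∀ (w : List ℕ) (k : List (ℕ × ℕ) → Bool),
    runK pw v w k = k (runV pw v w)
  | [], _ => rfl
  | g :: w, k => by
    have : runK pw v (g :: w) k = runK pw v w fun v' => appK pw v' (rows g) k := rfl
    rw [this, runK_eq pw v w, appK_eq]
    rfl

def vn (v : List (ℕ × ℕ)) (j : ℕ) : ℤ := ((nth (0, 0) v j).1 : ℤ) - (nth (0, 0) v j).2

lemma eqv_spec : ∀ (l m : List (ℕ × ℕ)), eqv l m = true → ∀ j, vn l j = vn m j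
  | [], [], _, _ => rfl
  | [], _ :: _, h, _ => by simp [eqv] at h
  | _ :: _, [], h, _ => by simp [eqv] at h
  | x :: l, y :: m, h, j => by
    have h' : (Nat.beq (x.1 + y.2) (y.1 + x.2) && eqv l m) = true := h
    simp only [Bool.and_eq_true, Nat.beq_eq] at h'
    cases j with
    | zero => simp only [vn, nth_zero]; omega
    | succ j => exact eqv_spec l m h'.2 j

section sem
variable {A : Type} [CommRing A]

def sg (s : Bool) : A := cond s (-1) 1

def ent (x : A) (r : Row) (j : ℕ) : A :=
  (r.map fun t => if t.1 = j then sg t.2.2 * x ^ t.2.1 else 0).sum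

/-- The matrix of the generator `g`, with the variable specialised to `x`. -/
def mat (x : A) (g : ℕ) : Matrix (Fin 14) (Fin 14) A :=
  Matrix.of fun i j => ent x (nth [] (rows g) i) j

def mw (x : A) (w : List ℕ) : Matrix (Fin 14) (Fin 14) A := (w.map (mat x)).prod

lemma mw_cons (x : A) (g : ℕ) (w : List ℕ) : mw x (g :: w) = mat x g * mw x w := by simp [mw]

lemma ent_map {A' : Type} [CommRing A'] (φ : A →+* A') (x : A) (r : Row) (j : ℕ) :
    φ (ent x r j) = ent (φ x) r j := by
  induction r with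
  | nil => simp [ent]
  | cons t r ih =>
    simp only [ent, List.map_cons, List.sum_cons, map_add] at ih ⊢
    rw [ih]
    congr 1
    split_ifs
    · cases t.2.2 <;> simp [sg]
    · simp

lemma mw_map {A' : Type} [CommRing A'] (φ : A →+* A') (x : A) (w : List ℕ) (i j : Fin 14) :
    φ (mw x w i j) = mw (φ x) w i j := by
  induction w generalizing i j with
  | nil => simp only [mw, List.map_nil, List.prod_nil, Matrix.one_apply]; split_ifs <;> simp
  | cons g w ih => simp [mw_cons, Matrix.mul_apply, ih, mat, ent_map]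

lemma sum_ent (x : A) (y : ℕ → A) : ∀ (r : Row), (∀ t ∈ r, t.1 < 14) →
    ∑ j : Fin 14, ent x r j * y j = (r.map fun t => sg t.2.2 * x ^ t.2.1 * y t.1).sum
  | [], _ => by simp [ent]
  | t :: r, h => by
    have ih := sum_ent x y r fun s hs => h s (List.mem_cons_of_mem _ hs)
    simp only [ent, List.map_cons, List.sum_cons, add_mul, Finset.sum_add_distrib] at ih ⊢
    rw [ih, Finset.sum_eq_single ⟨t.1, h t List.mem_cons_self⟩]
    · simp
    · intro b _ hb
      rw [if_neg fun e => hb (Fin.ext e.symm), zero_mul]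
    · simp

end sem

def rowOK (r : Row) : Bool := Nat.ble r.length 11 && r.all fun t => Nat.blt t.1 14 && Nat.ble t.2.1 6

lemma rows_ok' : ((List.range 26).all fun g => (rows g).all rowOK) = true := by decide +kernel

lemma rows_ok (g i : ℕ) : (nth [] (rows g) i).length ≤ 11 ∧
    ∀ t ∈ nth [] (rows g) i, t.1 < 14 ∧ t.2.1 ≤ 6 := by
  have h1 : (rows g).all rowOK = true := by
    have h := rows_ok'
    simp only [List.all_eq_true (l := List.range 26), List.mem_range] at h
    by_cases hg : g < 26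
    · exact h g hg
    · have e1 : Nat.ble 24 g = true := by rw [Nat.ble_eq]; omega
      have e2 : Nat.beq g 24 = false := by
        cases h' : Nat.beq g 24
        · rfl
        · have := Nat.eq_of_beq_eq_true h'; omega
      have : r1.all rowOK = true := h 25 (by norm_num)
      simpa only [rows, e1, e2, cond_true, cond_false] using this
  rcases nth_mem [] (rows g) i with h | h
  · simp [h]
  · simpa [rowOK] using List.all_eq_true.1 h1 _ h

lemma nth_pws (B : ℕ) {k : ℕ} (h : k ≤ 6) : nth 0 (pws B) k = B ^ k := by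
  interval_cases k <;> simp [pws]

lemma rowV_spec (B : ℕ) (v : List (ℕ × ℕ)) : ∀ (r : Row) (P N : ℕ), (∀ t ∈ r, t.2.1 ≤ 6) →
    ((rowV (pws B) v r P N).1 : ℤ) - (rowV (pws B) v r P N).2 =
      P - N + (r.map fun t => sg t.2.2 * (B : ℤ) ^ t.2.1 * vn v t.1).sum
  | [], P, N, _ => by simp only [rowV, List.map_nil, List.sum_nil]; omega
  | (j, e, s) :: r, P, N, h => by
    have h1 : nth 0 (pws B) e = B ^ e := nth_pws B (h _ List.mem_cons_self)
    have h2 : ∀ t ∈ r, t.2.1 ≤ 6 := fun s hs => h s (List.mem_cons_of_mem _ hs)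
    cases s <;>
    · simp only [rowV, cond_true, cond_false, rowV_spec B v r _ _ h2, h1, List.map_cons,
        List.sum_cons, sg, vn]
      push_cast
      ring

lemma vn_runV (B : ℕ) (v : List (ℕ × ℕ)) : ∀ (w : List ℕ) (i : Fin 14),
    vn (runV (pws B) v w) i = ∑ j : Fin 14, mw (B : ℤ) w i j * vn v j
  | [], i => by simp [runV, mw, Matrix.one_apply]
  | g :: w, i => by
    have h := rows_ok g i
    have e := nth_map [] (fun r => rowV (pws B) (runV (pws B) v w) r 0 0) (rows g) i
    have e' : vn (runV (pws B) v (g :: w)) i =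
        ∑ j : Fin 14, mat (B : ℤ) g i j * vn (runV (pws B) v w) j := by
      have : nth (0, 0) (runV (pws B) v (g :: w)) i = _ := e
      rw [vn, this, rowV_spec B _ _ _ _ fun t ht => (h.2 t ht).2,
        ← sum_ent _ _ _ fun t ht => (h.2 t ht).1]
      simp [mat]
    simp only [e', vn_runV B v w, mw_cons, Matrix.mul_apply, Finset.mul_sum, Finset.sum_mul,
      mul_assoc]
    exact Finset.sum_comm

lemma mul_entry {A : Type} [CommRing A] (x : A) (g : ℕ) (N : Matrix (Fin 14) (Fin 14) A)
    (i k : Fin 14) : (mat x g * N) i k = ((nth [] (rows g) i).map fun t =>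
      sg t.2.2 * x ^ t.2.1 * (if h : t.1 < 14 then N ⟨t.1, h⟩ k else 0)).sum := by
  rw [← sum_ent x (fun j => if h : j < 14 then N ⟨j, h⟩ k else 0) _
    fun t ht => ((rows_ok g i).2 t ht).1]
  simp [Matrix.mul_apply, mat]

lemma abs_list_sum {α : Type} (f : α → ℤ) (c : ℤ) : ∀ (l : List α), (∀ t ∈ l, |f t| ≤ c) →
    |(l.map f).sum| ≤ l.length * c
  | [], _ => by simp
  | t :: l, h => by
    have h1 := abs_list_sum f c l fun s hs => h s (List.mem_cons_of_mem _ hs)
    have h2 := h t List.mem_cons_self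
    have h3 := abs_add_le (f t) (l.map f).sum
    simp only [List.map_cons, List.sum_cons, List.length_cons]
    push_cast
    linarith

lemma abs_sg (s : Bool) : |(sg s : ℤ)| = 1 := by cases s <;> simp [sg]

lemma abs_mw_le {B : ℤ} (hB : 1 ≤ B) : ∀ (w : List ℕ) (i k : Fin 14),
    |mw B w i k| ≤ (11 * B ^ 6) ^ w.length
  | [], i, k => by
    simp only [mw, List.map_nil, List.prod_nil, Matrix.one_apply]; split_ifs <;> simp
  | g :: w, i, k => by
    have h := rows_ok g i
    have hp : 0 ≤ B ^ 6 * (11 * B ^ 6) ^ w.length := by positivity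
    rw [mw_cons, mul_entry]
    refine (abs_list_sum _ (B ^ 6 * (11 * B ^ 6) ^ w.length) _ fun t ht => ?_).trans ?_
    · rw [dif_pos (h.2 t ht).1, abs_mul, abs_mul, abs_sg, one_mul, abs_of_nonneg (by positivity)]
      exact mul_le_mul (pow_le_pow_right₀ hB (h.2 t ht).2) (abs_mw_le hB w _ _) (abs_nonneg _)
        (by positivity)
    · have : ((nth [] (rows g) i).length : ℤ) ≤ 11 := by exact_mod_cast h.1
      rw [List.length_cons, pow_succ (11 * B ^ 6)]
      nlinarith

lemma coeff_list_sum {α : Type} (f : α → ℤ[X]) (n : ℕ) (l : List α) :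
    (l.map f).sum.coeff n = (l.map fun t => (f t).coeff n).sum := by
  induction l with
  | nil => simp
  | cons t l ih => simp [ih]

lemma abs_coeff_X_pow_mul {p : ℤ[X]} {c : ℤ} (h : ∀ n, |p.coeff n| ≤ c) (e n : ℕ) :
    |(X ^ e * p).coeff n| ≤ c := by
  rw [coeff_X_pow_mul']
  split_ifs
  · exact h _
  · exact (abs_zero.le.trans (abs_nonneg _)).trans (h 0)

lemma abs_coeff_mw_le : ∀ (w : List ℕ) (i k : Fin 14) (n : ℕ),
    |(mw (X : ℤ[X]) w i k).coeff n| ≤ 11 ^ w.length
  | [], i, k, n => by
    simp only [mw, List.map_nil, List.prod_nil, Matrix.one_apply]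
    split_ifs
    · rw [coeff_one]; split_ifs <;> simp
    · simp
  | g :: w, i, k, n => by
    have h := rows_ok g i
    rw [mw_cons, mul_entry, coeff_list_sum]
    refine (abs_list_sum _ (11 ^ w.length) _ fun t ht => ?_).trans ?_
    · rw [dif_pos (h.2 t ht).1, mul_assoc]
      have := abs_coeff_X_pow_mul (abs_coeff_mw_le w ⟨t.1, (h.2 t ht).1⟩ k) t.2.1 n
      cases t.2.2 <;> simpa [sg] using this
    · have : ((nth [] (rows g) i).length : ℤ) ≤ 11 := by exact_mod_cast h.1
      have hp : (0 : ℤ) ≤ 11 ^ w.length := by positivity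
      rw [List.length_cons, pow_succ]
      nlinarith

lemma kron {B : ℤ} : ∀ (n : ℕ) (c : ℕ → ℤ), (∀ i < n, |c i| < B) →
    ∑ i ∈ Finset.range n, c i * B ^ i = 0 → ∀ i < n, c i = 0
  | 0, _, _, _ => by simp
  | n + 1, c, h, h0 => by
    rw [Finset.sum_range_succ'] at h0
    have e : ∑ i ∈ Finset.range n, c (i + 1) * B ^ (i + 1) =
        B * ∑ i ∈ Finset.range n, c (i + 1) * B ^ i := by
      rw [Finset.mul_sum]; exact Finset.sum_congr rfl fun i _ => by ring
    rw [e, pow_zero, mul_one] at h0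
    have h1 := h 0 (by omega)
    have h2 : c 0 = 0 := Int.eq_zero_of_abs_lt_dvd 
      ⟨-∑ i ∈ Finset.range n, c (i + 1) * B ^ i, by rw [mul_neg]; linarith⟩ h1
    have hB : B ≠ 0 := (lt_of_le_of_lt (abs_nonneg _) h1).ne'
    rw [h2, add_zero, mul_eq_zero] at h0
    have h3 := kron n (fun i => c (i + 1)) (fun i hi => h _ (by omega)) (h0.resolve_left hB)
    intro i hi
    cases i with
    | zero => exact h2
    | succ i => exact h3 i (by omega)

lemma kron_poly {B : ℤ} {p : ℤ[X]} (h : ∀ n, |p.coeff n| < B) (h0 : p.eval B = 0) : p = 0 := by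
  rw [eval_eq_sum_range] at h0
  have := kron _ _ (fun i _ => h i) h0 p.natDegree (by omega)
  exact leadingCoeff_eq_zero.1 this

lemma vn_tv (s C : ℕ) (j : Fin 14) : vn (tv s C) j = s * (C : ℤ) ^ (j : ℕ) := by
  fin_cases j <;> simp [vn, tv, List.range_succ]

lemma chk_poly {p : List ℕ × List ℕ} (h : chk p = true) : ∃ n, p.1.length ≤ n ∧ p.2.length ≤ n ∧
    ∀ i j, X ^ (3 * (n - p.1.length)) * mw (X : ℤ[X]) p.1 i j =
      X ^ (3 * (n - p.2.length)) * mw (X : ℤ[X]) p.2 i j := by
  simp only [chk, frc_eq, runK_eq] at h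
  generalize hn : Nat.max p.1.length p.2.length = n at h
  have hn1 : p.1.length ≤ n := hn ▸ le_max_left _ _
  have hn2 : p.2.length ≤ n := hn ▸ le_max_right _ _
  refine ⟨n, hn1, hn2, fun i j => ?_⟩
  generalize hB : 2 * 11 ^ n + 1 = B at h
  generalize hC : 2 * 11 ^ n * B ^ (6 * n) + 1 = C at h
  have hB' : (B : ℤ) = 2 * 11 ^ n + 1 := by rw [← hB]; push_cast; ring
  have hC' : (C : ℤ) = 2 * 11 ^ n * (B : ℤ) ^ (6 * n) + 1 := by rw [← hC]; push_cast; ring
  have hB1 : (1 : ℤ) ≤ B := by
    have : (0 : ℤ) ≤ 11 ^ n := by positivity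
    linarith
  have h1 := eqv_spec _ _ h i
  simp only [vn_runV, vn_tv] at h1
  have bd : ∀ w : List ℕ, w.length ≤ n → ∀ k,
      |(B : ℤ) ^ (3 * (n - w.length)) * mw (B : ℤ) w i k| ≤ 11 ^ n * (B : ℤ) ^ (6 * n) := by
    intro w hw k
    rw [abs_mul, abs_of_nonneg (by positivity)]
    calc _ ≤ (B : ℤ) ^ (6 * (n - w.length)) * (11 * (B : ℤ) ^ 6) ^ w.length :=
          mul_le_mul (pow_le_pow_right₀ hB1 (by omega)) (abs_mw_le hB1 w i k) (abs_nonneg _)
            (by positivity)
      _ = 11 ^ w.length * (B : ℤ) ^ (6 * n) := by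
          rw [mul_pow, ← pow_mul, mul_left_comm, ← pow_add]; congr 2; omega
      _ ≤ _ := mul_le_mul_of_nonneg_right (pow_le_pow_right₀ (by norm_num) hw) (by positivity)
  have h2 := kron (B := C) 14 (fun k => if hk : k < 14 then
      (B : ℤ) ^ (3 * (n - p.1.length)) * mw (B : ℤ) p.1 i ⟨k, hk⟩ -
      (B : ℤ) ^ (3 * (n - p.2.length)) * mw (B : ℤ) p.2 i ⟨k, hk⟩ else 0) ?_ ?_ j j.2
  · simp only [j.2, dif_pos, Fin.eta] at h2
    rw [← sub_eq_zero]
    refine kron_poly (B := B) (fun m => ?_) ?_
    · have a1 := abs_coeff_X_pow_mul (abs_coeff_mw_le p.1 i j) (3 * (n - p.1.length)) m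
      have a2 := abs_coeff_X_pow_mul (abs_coeff_mw_le p.2 i j) (3 * (n - p.2.length)) m
      have a3 : (11 : ℤ) ^ p.1.length ≤ 11 ^ n := pow_le_pow_right₀ (by norm_num) hn1
      have a4 : (11 : ℤ) ^ p.2.length ≤ 11 ^ n := pow_le_pow_right₀ (by norm_num) hn2
      rw [coeff_sub]
      refine (abs_sub _ _).trans_lt ?_
      linarith
    · have e := fun w => mw_map (evalRingHom (B : ℤ)) X w i j
      simp only [coe_evalRingHom, eval_X] at e
      simpa [e] using h2
  · intro k hk
    rw [dif_pos hk]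
    refine (abs_sub _ _).trans_lt ?_
    have := bd _ hn1 ⟨k, hk⟩
    have := bd _ hn2 ⟨k, hk⟩
    linarith
  · rw [← Fin.sum_univ_eq_sum_range (fun k => (if hk : k < 14 then
      (B : ℤ) ^ (3 * (n - p.1.length)) * mw (B : ℤ) p.1 i ⟨k, hk⟩ -
      (B : ℤ) ^ (3 * (n - p.2.length)) * mw (B : ℤ) p.2 i ⟨k, hk⟩ else 0) * (C : ℤ) ^ k) 14,
      ← sub_eq_zero.2 h1, ← Finset.sum_sub_distrib]
    refine Finset.sum_congr rfl fun k _ => ?_
    simp only [k.2, dif_pos, Fin.eta]
    push_cast
    ring

/-- The normalised generators at a nonzero complex number. -/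
noncomputable def gam (u : ℂ) (g : ℕ) : Matrix (Fin 14) (Fin 14) ℂ := (u ^ 3)⁻¹ • mat u g

lemma prod_gam (u : ℂ) (w : List ℕ) :
    (w.map (gam u)).prod = (u ^ (3 * w.length))⁻¹ • mw u w := by
  induction w with
  | nil => simp [mw]
  | cons g w ih =>
    rw [List.map_cons, List.prod_cons, ih, gam, mw_cons, smul_mul_smul_comm, List.length_cons,
      ← mul_inv, ← pow_add]
    congr 3
    ring

lemma chk_sound {u : ℂ} (hu : u ≠ 0) {p : List ℕ × List ℕ} (h : chk p = true) :
    (p.1.map (gam u)).prod = (p.2.map (gam u)).prod := by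
  obtain ⟨n, h1, h2, h3⟩ := chk_poly h
  ext i j
  have e := fun w => mw_map (eval₂RingHom (Int.castRingHom ℂ) u) X w i j
  have h4 := congrArg (eval₂RingHom (Int.castRingHom ℂ) u) (h3 i j)
  simp only [map_mul, map_pow, e, coe_eval₂RingHom, eval₂_X] at h4
  have k : ∀ l ≤ n, (u ^ (3 * l))⁻¹ = (u ^ (3 * n))⁻¹ * u ^ (3 * (n - l)) := by
    intro l hl
    have : 3 * n = 3 * l + 3 * (n - l) := by omega
    rw [this, pow_add]
    field_simp
  simp only [prod_gam, Matrix.smul_apply, smul_eq_mul]
  rw [k _ h1, k _ h2, mul_assoc, mul_assoc, h4]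

lemma nth_addD (k : ℕ) : ∀ (rs : List Row) (i n : ℕ), n < rs.length →
    nth [] (addD k i rs) n = (i + n, k, false) :: nth [] rs n
  | [], _, _, h => by simp at h
  | _ :: _, _, 0, _ => rfl
  | r :: rs, i, n + 1, h => by
    rw [addD, nth_succ, nth_addD k rs (i + 1) n (by simpa using h), nth_succ]
    congr 2
    omega

lemma gam_sub {u : ℂ} (hu : u ≠ 0) {g : ℕ} {rs : List Row} (h0 : rs.length = 14)
    (h1 : rows g = addD 4 0 rs) (h2 : rows (g + 1) = addD 2 0 rs) :
    gam u g - gam u (g + 1) = (u + -u⁻¹) • (1 : Matrix (Fin 14) (Fin 14) ℂ) := by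
  ext i j
  have hi : (i : ℕ) < rs.length := by rw [h0]; exact i.2
  simp only [gam, mat, h1, h2, nth_addD _ _ _ _ hi, ent, Matrix.sub_apply, Matrix.smul_apply,
    Matrix.of_apply, List.map_cons, List.sum_cons, zero_add, Matrix.one_apply, Fin.val_inj, sg,
    smul_eq_mul, cond_false]
  split_ifs
  · field_simp; ring
  · ring

lemma pow_eq_smul {A : Type} [Ring A] [Algebra ℂ A] {S T : A} {p q : ℂ} {m : ℕ} (h1 : S * T = 1)
    (h2 : S - T = (p + q) • (1 : A)) (hpq : p * q = -1) (hne : p ≠ q) (hm : p ^ m = q ^ m) :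
    S ^ m = p ^ m • (1 : A) := by
  have hT : T = S - (p + q) • (1 : A) := by rw [← h2]; abel
  have hS : S * S = (p + q) • S + 1 := by
    rw [hT, mul_sub, mul_smul_comm, mul_one] at h1
    rw [← h1]; abel
  have key : ∀ a b : ℂ, a + b = p + q → a * b = -1 → ∀ n : ℕ,
      S ^ n * (S - b • (1 : A)) = a ^ n • (S - b • (1 : A)) := by
    intro a b h3 h4 n
    have e : S * (S - b • (1 : A)) = a • (S - b • (1 : A)) := by
      rw [mul_sub, hS, mul_smul_comm, mul_one, smul_sub, smul_smul, h4, ← h3, add_smul]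
      simp only [neg_smul, one_smul]
      abel
    induction n with
    | zero => simp
    | succ n ih => rw [pow_succ, mul_assoc, e, mul_smul_comm, ih, smul_smul, pow_succ']
  have k1 := key p q rfl hpq m
  have k2 := key q p (add_comm _ _) (by rw [mul_comm, hpq]) m
  rw [← hm] at k2
  have k3 : (p - q) • S ^ m = (p - q) • (p ^ m • (1 : A)) := by
    have e1 : (p - q) • S ^ m = S ^ m * (S - q • (1 : A)) - S ^ m * (S - p • (1 : A)) := by
      simp only [mul_sub, mul_smul_comm, mul_one, sub_smul]; abel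
    rw [e1, k1, k2, ← smul_sub, smul_comm]
    congr 1
    simp only [sub_smul]; abel
  exact smul_right_injective A (sub_ne_zero.2 hne) k3

/-- The word of half twists attached to the element of infinite order. -/
def wI : List ℕ := [9, 10, 2, 5, 1, 6, 13, 14]

def bas (i : ℕ) : List (ℕ × ℕ) := (List.range 14).map fun j => (cond (Nat.beq j i) 1 0, 0)

lemma vn_bas (i j : Fin 14) : vn (bas i) j = if i = j then 1 else 0 := by
  revert i j; decide +kernel

lemma trace_num : ∑ i : Fin 14, vn (runV (pws (2 ^ 40)) (bas i) wI) i =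
    let B : ℤ := 2 ^ 40
    B ^ 16 - 2 * B ^ 18 + 9 * B ^ 20 - 18 * B ^ 22 + 26 * B ^ 24 - 18 * B ^ 26 + 9 * B ^ 28 -
      2 * B ^ 30 + B ^ 32 := by decide +kernel

lemma trace_poly : ∑ i : Fin 14, mw (X : ℤ[X]) wI i i =
    X ^ 16 - 2 * X ^ 18 + 9 * X ^ 20 - 18 * X ^ 22 + 26 * X ^ 24 - 18 * X ^ 26 + 9 * X ^ 28 -
      2 * X ^ 30 + X ^ 32 := by
  rw [← sub_eq_zero]
  refine kron_poly (B := 2 ^ 40) (fun n => ?_) ?_
  · have h1 : |∑ i : Fin 14, (mw (X : ℤ[X]) wI i i).coeff n| ≤ 14 * 11 ^ 8 := by
      refine (Finset.abs_sum_le_sum_abs _ _).trans ?_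
      exact (Finset.sum_le_card_nsmul _ _ (11 ^ 8) fun i _ => abs_coeff_mw_le wI i i n).trans
        (by simp)
    have h2 : ∀ k, |(X ^ k : ℤ[X]).coeff n| ≤ 1 := by
      intro k; rw [coeff_X_pow]; split_ifs <;> simp
    simp only [coeff_sub, coeff_add, finsetSum_coeff, coeff_ofNat_mul]
    simp only [abs_le] at h1 h2
    have := h2 16; have := h2 18; have := h2 20; have := h2 22; have := h2 24
    have := h2 26; have := h2 28; have := h2 30; have := h2 32
    rw [abs_lt]
    constructor <;> linarith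
  · have e := fun i => mw_map (evalRingHom ((2 ^ 40 : ℕ) : ℤ)) X wI i i
    have h := trace_num
    simp only [vn_runV, vn_bas, mul_ite, mul_one, mul_zero, Finset.sum_ite_eq, Finset.mem_univ,
      if_true] at h
    simp only [coe_evalRingHom, eval_X] at e
    simp only [← e] at h
    rw [eval_sub, eval_finsetSum, sub_eq_zero]
    simpa using h

lemma trace_gam {u : ℂ} (hu : u ≠ 0) : ((wI.map (gam u)).prod).trace =
    (u ^ 8 + u⁻¹ ^ 8) - 2 * (u ^ 6 + u⁻¹ ^ 6) + 9 * (u ^ 4 + u⁻¹ ^ 4) -
      18 * (u ^ 2 + u⁻¹ ^ 2) + 26 := by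
  have e := fun i => mw_map (eval₂RingHom (Int.castRingHom ℂ) u) X wI i i
  have h := congrArg (eval₂RingHom (Int.castRingHom ℂ) u) trace_poly
  simp only [map_sum, e, map_sub, map_add, map_mul, map_pow, map_ofNat, coe_eval₂RingHom,
    eval₂_X] at h
  have hl : wI.length = 8 := rfl
  rw [prod_gam, Matrix.trace_smul, Matrix.trace, hl]
  simp only [Matrix.diag, h, smul_eq_mul]
  field_simp
  ring

end Pool.Agent.Lib.MP_89352f_al.H60
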