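import Mathlib

/-!
Words in the free group of rank three coded by natural numbers, Whitehead moves and the
length formula for them.
-/

namespace Pool.Agent.Lib.MP_89352f_al.H60

open FreeGroup

abbrev F := FreeGroup (Fin 3)

/-- Inverse of a letter code; the codes `0, …, 5` are the letters, `6` is the base point. -/
def iv (x : ℕ) : ℕ := x ^^^ 1

def tb (m x : ℕ) : Bool := Nat.testBit m x

def dc (x : ℕ) : Fin 3 × Bool := (⟨x / 2 % 3, Nat.mod_lt _ (by norm_num)⟩, x % 2 == 0)

def cd (p : Fin 3 × Bool) : ℕ := 2 * p.1 + if p.2 then 0 else 1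

def el (x : ℕ) : F := if x < 6 then mk [dc x] else 1

def pr (l : List ℕ) : F := (l.map el).prod

lemma iv_iv (x : ℕ) : iv (iv x) = x := by simp [iv]

lemma iv_lt {x : ℕ} (h : x < 6) : iv x < 6 := by interval_cases x <;> decide

lemma iv_lt_iff {x : ℕ} : iv x < 6 ↔ x < 6 :=
  ⟨fun h => by simpa [iv_iv] using iv_lt h, iv_lt⟩

lemma blt_of {x y : ℕ} (h : x < y) : Nat.blt x y = true := by rw [Nat.blt_eq]; exact h

lemma lt_of_blt {x y : ℕ} (h : Nat.blt x y = true) : x < y := by rwa [Nat.blt_eq] at h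

lemma cd_lt (p : Fin 3 × Bool) : cd p < 6 := by revert p; decide

lemma dc_cd (p : Fin 3 × Bool) : dc (cd p) = p := by revert p; decide

lemma cd_dc {x : ℕ} (h : x < 6) : cd (dc x) = x := by interval_cases x <;> decide

lemma el_cd (p : Fin 3 × Bool) : el (cd p) = mk [p] := by simp [el, cd_lt, dc_cd]

lemma el_iv (x : ℕ) : el (iv x) = (el x)⁻¹ := by
  by_cases h : x < 6
  · simp only [el, h, iv_lt h, if_true, inv_mk]
    interval_cases x <;> rfl
  · simp [el, h, iv_lt_iff]

lemma el_two (i : Fin 3) : el (2 * i) = of i := by fin_cases i <;> rfl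

@[simp] lemma pr_nil : pr [] = 1 := rfl

@[simp] lemma pr_cons (x : ℕ) (l : List ℕ) : pr (x :: l) = el x * pr l := by simp [pr]

@[simp] lemma pr_append (l m : List ℕ) : pr (l ++ m) = pr l * pr m := by simp [pr]

lemma norm_el_le (x : ℕ) : norm (el x) ≤ 1 := by
  unfold el
  split_ifs
  · simpa using norm_mk_le (L₁ := [dc x])
  · simp

lemma norm_pr_le (l : List ℕ) : norm (pr l) ≤ l.length := by
  induction l with
  | nil => simp
  | cons x l ih =>
    have := norm_mul_le (el x) (pr l)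
    have := norm_el_le x
    simp only [pr_cons, List.length_cons]
    omega

/-- Formal inverse of a word. -/
def iw (l : List ℕ) : List ℕ := List.rec [] (fun x _ ih => ih ++ [iv x]) l

lemma pr_iw (l : List ℕ) : pr (iw l) = (pr l)⁻¹ := by
  induction l with
  | nil => simp [iw]
  | cons x l ih =>
    have : iw (x :: l) = iw l ++ [iv x] := rfl
    simp [this, ih, el_iv]

/-- Free reduction. -/
def red (l : List ℕ) : List ℕ :=
  List.rec [] (fun x _ ih => List.casesOn ih [x] fun y t => cond (Nat.beq y (iv x)) t (x :: y :: t)) l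

lemma pr_red (l : List ℕ) : pr (red l) = pr l := by
  induction l with
  | nil => rfl
  | cons x l ih =>
    have : red (x :: l) =
      List.casesOn (red l) [x] fun y t => cond (Nat.beq y (iv x)) t (x :: y :: t) := rfl
    rw [this, pr_cons, ← ih]
    cases red l with
    | nil => simp
    | cons y t =>
      cases h : Nat.beq y (iv x)
      · simp [h]
      · simp [Nat.eq_of_beq_eq_true h, el_iv]

lemma pr_eq_of_red {l m : List ℕ} (h : (red l == red m) = true) : pr l = pr m := by
  rw [← pr_red l, ← pr_red m, eq_of_beq h]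

/-- Reduced words whose first letter differs from `u`. -/
def Rd : ℕ → List ℕ → Prop
  | _, [] => True
  | u, x :: w => x < 6 ∧ x ≠ u ∧ Rd (iv x) w

lemma Rd.lt : ∀ {u : ℕ} {l : List ℕ}, Rd u l → ∀ x ∈ l, x < 6
  | _, [], _ => by simp
  | _, y :: l, h => by
    intro x hx
    rcases List.mem_cons.1 hx with rfl | hx
    · exact h.1
    · exact h.2.2.lt x hx

lemma pr_eq_mk : ∀ {l : List ℕ}, (∀ x ∈ l, x < 6) → pr l = mk (l.map dc)
  | [], _ => rfl
  | y :: l, h => by
    rw [pr_cons, pr_eq_mk fun x hx => h x (List.mem_cons_of_mem _ hx), el,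
      if_pos (h y List.mem_cons_self), mul_mk]
    rfl

lemma Rd.isReduced : ∀ {u : ℕ} {l : List ℕ}, Rd u l → IsReduced (l.map dc)
  | _, [], _ => by simp
  | _, [y], _ => by simp
  | _, y :: z :: l, h => by
    have h2 := h.2.2.isReduced
    simp only [List.map_cons] at h2 ⊢
    refine List.isChain_cons_cons.2 ⟨?_, h2⟩
    have a1 := h.1
    have a2 := h.2.2.1
    have a3 := h.2.2.2.1
    clear h h2
    revert a3
    interval_cases y <;> interval_cases z <;> decide

lemma Rd.norm {u : ℕ} {l : List ℕ} (h : Rd u l) : norm (pr l) = l.length := by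
  rw [pr_eq_mk h.lt, FreeGroup.norm, toWord_mk, h.isReduced.reduce_eq, List.length_map]

/-- The reduced word of an element. -/
def wd (g : F) : List ℕ := g.toWord.map cd

lemma pr_map_cd (L : List (Fin 3 × Bool)) : pr (L.map cd) = mk L := by
  induction L with
  | nil => rfl
  | cons p L ih => rw [List.map_cons, pr_cons, ih, el_cd, mul_mk]; rfl

lemma pr_wd (g : F) : pr (wd g) = g := by rw [wd, pr_map_cd, mk_toWord]

lemma rd_map_cd : ∀ (L : List (Fin 3 × Bool)) (u : ℕ), IsReduced L →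
    (∀ p ∈ L.head?, cd p ≠ u) → Rd u (L.map cd)
  | [], _, _, _ => trivial
  | [p], u, _, h => ⟨cd_lt p, h p rfl, trivial⟩
  | p :: q :: L, u, h1, h => by
    refine ⟨cd_lt p, h p rfl, rd_map_cd (q :: L) _ (List.isChain_cons_cons.1 h1).2 ?_⟩
    have a := (List.isChain_cons_cons.1 h1).1
    intro r hr
    obtain rfl : q = r := by simpa using hr
    clear h h1 hr
    revert p q
    decide

lemma rd_wd (g : F) : Rd 6 (wd g) :=
  rd_map_cd _ _ isReduced_toWord fun p _ => (cd_lt p).ne

lemma length_wd (g : F) : (wd g).length = norm g := by simp [wd, FreeGroup.norm]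

/-- Sum of a function over the turns of a word. -/
def ts (f : ℕ → ℕ → ℕ) : ℕ → List ℕ → ℕ
  | u, [] => f u 6
  | u, x :: w => f u x + ts f (iv x) w

def S (f : ℕ → ℕ → ℕ) (ψ : F →* F) : ℕ := ∑ i : Fin 3, ts f 6 (wd (ψ (of i)))

def nm (ψ : F →* F) : ℕ := ∑ i : Fin 3, norm (ψ (of i))

lemma ts_le {f1 f2 g1 g2 : ℕ → ℕ → ℕ}
    (h : ∀ u < 7, ∀ v < 7, f1 u v + f2 u v ≤ g1 u v + g2 u v) :
    ∀ (w : List ℕ) (u : ℕ), u < 7 → (∀ x ∈ w, x < 6) →
      ts f1 u w + ts f2 u w ≤ ts g1 u w + ts g2 u w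
  | [], u, hu, _ => h u hu 6 (by norm_num)
  | x :: w, u, hu, hw => by
    have hx := hw x List.mem_cons_self
    have a1 := h u hu x (by omega)
    have a2 := ts_le h w (iv x) (by have := iv_lt hx; omega)
      fun y hy => hw y (List.mem_cons_of_mem _ hy)
    simp only [ts]
    omega

lemma S_le {f1 f2 g1 g2 : ℕ → ℕ → ℕ}
    (h : ∀ u < 7, ∀ v < 7, f1 u v + f2 u v ≤ g1 u v + g2 u v) (ψ : F →* F) :
    S f1 ψ + S f2 ψ ≤ S g1 ψ + S g2 ψ := by
  simp only [S, ← Finset.sum_add_distrib]
  exact Finset.sum_le_sum fun i _ => ts_le h _ 6 (by norm_num) (rd_wd _).lt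

def f0 (_ v : ℕ) : ℕ := cond (Nat.blt v 6) 1 0

lemma ts_f0 : ∀ (w : List ℕ) (u : ℕ), (∀ x ∈ w, x < 6) → ts f0 u w = w.length
  | [], _, _ => rfl
  | x :: w, u, hw => by
    have hx := hw x List.mem_cons_self
    have := ts_f0 w (iv x) fun y hy => hw y (List.mem_cons_of_mem _ hy)
    simp only [ts, this, f0, blt_of hx, List.length_cons, cond_true]
    omega

lemma S_f0 (ψ : F →* F) : S f0 ψ = nm ψ := by
  simp only [S, nm, ts_f0 _ _ (rd_wd _).lt, length_wd]

/-- The endomorphism sending the generator with code `x` to the word `f x`. -/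
def hom (f : ℕ → List ℕ) : F →* F := lift fun i : Fin 3 => pr (f (2 * i))

def img (f : ℕ → List ℕ) (x : ℕ) : List ℕ :=
  cond (Nat.blt x 6) (cond (Nat.beq (x % 2) 0) (f x) (iw (f (iv x)))) []

lemma hom_el (f : ℕ → List ℕ) (x : ℕ) : hom f (el x) = pr (img f x) := by
  by_cases h : x < 6
  · have e : ∀ i : Fin 3, hom f (el (2 * i)) = pr (f (2 * i)) := by
      intro i; rw [el_two]; simp [hom]
    have e' : ∀ i : Fin 3, hom f (el (iv (2 * i))) = pr (iw (f (2 * i))) := by
      intro i; rw [el_iv, _root_.map_inv, e, pr_iw]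
    interval_cases x
    exacts [e 0, e' 0, e 1, e' 1, e 2, e' 2]
  · have : Nat.blt x 6 = false := by
      cases h' : Nat.blt x 6
      · rfl
      · exact absurd (lt_of_blt h') h
    simp [el, h, img, this]

def ap (f : ℕ → List ℕ) (l : List ℕ) : List ℕ := List.rec [] (fun x _ ih => img f x ++ ih) l

lemma hom_pr (f : ℕ → List ℕ) (l : List ℕ) : hom f (pr l) = pr (ap f l) := by
  induction l with
  | nil => simp [ap]
  | cons x l ih =>
    have : ap f (x :: l) = img f x ++ ap f l := rfl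
    rw [this, pr_cons, pr_append, _root_.map_mul, ih, hom_el]

lemma hom_ext {Φ Ψ : F →* F} (h0 : Φ (pr [0]) = Ψ (pr [0])) (h1 : Φ (pr [2]) = Ψ (pr [2]))
    (h2 : Φ (pr [4]) = Ψ (pr [4])) : Φ = Ψ := by
  ext i
  simp only [pr_cons, pr_nil, mul_one] at h0 h1 h2
  rw [← el_two]
  fin_cases i
  exacts [h0, h1, h2]

/-- Cost of a turn for the images `im` of the letters, measured from the reference words `p`. -/
def ub (im p : ℕ → List ℕ) (u v : ℕ) : ℕ :=
  cond (Nat.blt v 6) (red (iw (p u) ++ (im v ++ p (iv v)))).length (red (iw (p u))).length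

lemma norm_le_ts {Φ : F →* F} {im p : ℕ → List ℕ} (h : ∀ x < 6, Φ (el x) = pr (im x)) :
    ∀ (w : List ℕ) (u : ℕ), (∀ x ∈ w, x < 6) →
      norm ((pr (p u))⁻¹ * Φ (pr w)) ≤ ts (ub im p) u w
  | [], u, _ => by
    have := norm_pr_le (red (iw (p u)))
    rw [pr_red, pr_iw] at this
    have e : ts (ub im p) u [] = (red (iw (p u))).length := rfl
    simpa [e] using this
  | x :: w, u, hw => by
    have hx := hw x List.mem_cons_self
    have a1 := norm_le_ts (p := p) h w (iv x) fun y hy => hw y (List.mem_cons_of_mem _ hy)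
    have a2 := norm_pr_le (red (iw (p u) ++ (im x ++ p (iv x))))
    have a3 := norm_mul_le (pr (red (iw (p u) ++ (im x ++ p (iv x)))))
      ((pr (p (iv x)))⁻¹ * Φ (pr w))
    have e : pr (red (iw (p u) ++ (im x ++ p (iv x)))) * ((pr (p (iv x)))⁻¹ * Φ (pr w)) =
        (pr (p u))⁻¹ * Φ (pr (x :: w)) := by
      rw [pr_red, pr_append, pr_append, pr_iw, pr_cons, _root_.map_mul, h x hx]; group
    rw [e] at a3
    simp only [ts, ub, blt_of hx, cond_true]
    omega

lemma nm_le_S {Φ : F →* F} {im p : ℕ → List ℕ} (h : ∀ x < 6, Φ (el x) = pr (im x))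
    (hp : p 6 = []) (ψ : F →* F) : nm (Φ.comp ψ) ≤ S (ub im p) ψ := by
  refine Finset.sum_le_sum fun i _ => ?_
  have := norm_le_ts (p := p) h (wd (ψ (of i))) 6 (rd_wd _).lt
  simpa [hp, pr_wd] using this

/-- The Whitehead move with set `m` (a bit mask) and multiplier `a`. -/
def whL (m a x : ℕ) : List ℕ :=
  cond (Nat.beq (x / 2) (a / 2)) [x]
    (cond (tb m x) [a] [] ++ x :: cond (tb m (iv x)) [iv a] [])

def wh (m a : ℕ) : F →* F := hom (whL m a)

def valid (m a : ℕ) : Bool := Nat.blt a 6 && Nat.blt m 64 && tb m a && !tb m (iv a)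

/-- A check over all Whitehead moves. -/
def allW (c : ℕ → ℕ → Bool) : Bool :=
  (List.range 6).all fun a => (List.range 64).all fun m => !valid m a || c m a

lemma valid_lt {m a : ℕ} (h : valid m a = true) : a < 6 ∧ m < 64 := by
  simp only [valid, Bool.and_eq_true, Nat.blt_eq] at h
  exact h.1.1

lemma allW_spec {c : ℕ → ℕ → Bool} (hc : allW c = true) {m a : ℕ} (h : valid m a = true) :
    c m a = true := by
  simp only [allW, List.all_eq_true, List.mem_range] at hc
  simpa [h] using hc a (valid_lt h).1 m (valid_lt h).2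

def all7 (c : ℕ → Bool) : Bool := c 0 && c 1 && c 2 && c 3 && c 4 && c 5 && c 6

lemma all7_spec {c : ℕ → Bool} (hc : all7 c = true) {x : ℕ} (h : x < 7) : c x = true := by
  simp only [all7, Bool.and_eq_true] at hc
  interval_cases x <;> simp [hc]

def seg (m a u x : ℕ) : List ℕ :=
  cond (tb m u == tb m x) [] (cond (tb m x) [a] [iv a]) ++
    cond (Nat.beq (x / 2) (a / 2) || Nat.ble 6 x) [] [x]

/-- The turn function computing the length after a Whitehead move. -/
def fW (m a u x : ℕ) : ℕ := (seg m a u x).length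

def out (m a : ℕ) : ℕ → List ℕ → List ℕ
  | u, [] => seg m a u 6
  | u, x :: w => seg m a u x ++ out m a (iv x) w

def pass : ℕ → List ℕ → ℕ
  | o, [] => o
  | o, y :: l => cond (Nat.blt y 6 && !Nat.beq y o) (pass (iv y) l) 7

lemma pass_spec : ∀ (l : List ℕ) (o : ℕ) (r : List ℕ), pass o l < 7 → Rd (pass o l) r →
    Rd o (l ++ r)
  | [], _, _, _, h => h
  | y :: l, o, r, h1, h => by
    cases hc : (Nat.blt y 6 && !Nat.beq y o)
    · simp [pass, hc] at h1
    · simp only [pass, hc, cond_true] at h1 h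
      simp only [Bool.and_eq_true, Nat.blt_eq, Bool.not_eq_true'] at hc
      exact ⟨hc.1, Nat.ne_of_beq_eq_false hc.2, pass_spec l _ r h1 h⟩

def okk (m a o u : ℕ) : Bool :=
  cond (Nat.beq (u / 2) (a / 2)) (cond (Nat.beq (o / 2) (a / 2)) (!tb m o) (tb m o) != tb m u)
    (Nat.beq o u)

def pW (m a u : ℕ) : List ℕ := cond (tb m u) [a] []

def cr (m u v : ℕ) : ℕ := cond (tb m u == tb m v) 0 1

def ind (a _u v : ℕ) : ℕ := cond (Nat.beq (v / 2) (a / 2)) 1 0

def c1 (m a : ℕ) : Bool :=
  okk m a 6 6 && (pW m a 6 == []) && all7 fun u => all7 fun x =>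
    (red (seg m a u x) == red (iw (pW m a u) ++ (img (whL m a) x ++ pW m a (iv x)))) &&
    Nat.beq (fW m a u x + ind a u x) (f0 u x + cr m u x) &&
    all7 fun o => !okk m a o u || (Nat.beq x u && !Nat.beq x 6) ||
      (Nat.blt (pass o (seg m a u x)) 7 &&
        (Nat.beq x 6 || okk m a (pass o (seg m a u x)) (iv x)))

lemma c1_all : allW c1 = true := by decide +kernel

lemma c1_spec {m a : ℕ} (h : valid m a = true) :
    okk m a 6 6 = true ∧ pW m a 6 = [] ∧ ∀ u < 7, ∀ x < 7,
      pr (seg m a u x) = (pr (pW m a u))⁻¹ * (wh m a (el x) * pr (pW m a (iv x))) ∧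
      fW m a u x + ind a u x = f0 u x + cr m u x ∧
      ∀ o < 7, okk m a o u = true → (x ≠ u ∨ x = 6) → pass o (seg m a u x) < 7 ∧
        (x = 6 ∨ okk m a (pass o (seg m a u x)) (iv x) = true) := by
  have hc := allW_spec c1_all h
  simp only [c1, Bool.and_eq_true, beq_iff_eq] at hc
  refine ⟨hc.1.1, hc.1.2, fun u hu x hx => ?_⟩
  have h2 := all7_spec (all7_spec hc.2 hu) hx
  simp only [Bool.and_eq_true] at h2
  refine ⟨?_, Nat.eq_of_beq_eq_true h2.1.2, fun o ho h3 h4 => ?_⟩
  · rw [pr_eq_of_red h2.1.1, pr_append, pr_append, pr_iw, wh, hom_el]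
  · have h5 := all7_spec h2.2 ho
    simp only [h3, Bool.not_true, Bool.false_or, Bool.or_eq_true, Bool.and_eq_true, Nat.beq_eq,
      Bool.not_eq_true', Nat.blt_eq] at h5
    rcases h5 with h5 | h5
    · have := Nat.ne_of_beq_eq_false h5.2
      omega
    · exact h5

lemma out_spec {m a : ℕ} (h : valid m a = true) : ∀ (w : List ℕ) (u o : ℕ), u < 7 → o < 7 →
    Rd u w → okk m a o u = true →
      Rd o (out m a u w) ∧ pr (out m a u w) = (pr (pW m a u))⁻¹ * wh m a (pr w) ∧
        (out m a u w).length = ts (fW m a) u w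
  | [], u, o, hu, ho, _, hk => by
    obtain ⟨-, -, hc⟩ := c1_spec h
    obtain ⟨h1, -, h3⟩ := hc u hu 6 (by norm_num)
    have h4 := (h3 o ho hk (Or.inr rfl)).1
    refine ⟨?_, ?_, rfl⟩
    · simpa [out] using pass_spec _ o [] h4 trivial
    · have e : tb m (iv 6) = false := by
        have := (valid_lt h).2
        exact Nat.testBit_lt_two_pow (lt_of_lt_of_le this (by decide))
      simp [out, h1, el, pW, e]
  | x :: w, u, o, hu, ho, hw, hk => by
    obtain ⟨-, -, hc⟩ := c1_spec h
    have hx := hw.1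
    obtain ⟨h1, -, h3⟩ := hc u hu x (by omega)
    obtain ⟨h4, h5⟩ := h3 o ho hk (Or.inl hw.2.1)
    have h6 := h5.resolve_left (by omega)
    obtain ⟨i1, i2, i3⟩ := out_spec h w (iv x) _ (by have := iv_lt hx; omega) h4 hw.2.2 h6
    refine ⟨pass_spec _ o _ h4 i1, ?_, ?_⟩
    · simp only [out, pr_append, h1, i2, pr_cons, _root_.map_mul]
      group
    · simp only [out, List.length_append, i3, ts, fW]

/-- The length formula for a Whitehead move. -/
lemma nm_wh {m a : ℕ} (h : valid m a = true) (ψ : F →* F) :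
    nm ((wh m a).comp ψ) = S (fW m a) ψ := by
  refine Finset.sum_congr rfl fun i _ => ?_
  obtain ⟨h1, h2, -⟩ := c1_spec h
  obtain ⟨i1, i2, i3⟩ := out_spec h (wd (ψ (of i))) 6 6 (by norm_num) (by norm_num) (rd_wd _) h1
  rw [← i3, ← i1.norm, i2, h2, pr_wd]
  simp

lemma nm_wh' {m a : ℕ} (h : valid m a = true) (ψ : F →* F) :
    nm ((wh m a).comp ψ) + S (ind a) ψ = nm ψ + S (cr m) ψ := by
  obtain ⟨-, -, hc⟩ := c1_spec h
  rw [nm_wh h, ← S_f0]
  exact le_antisymm (S_le (fun u hu v hv => (hc u hu v hv).2.1.le) ψ)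
    (S_le (fun u hu v hv => (hc u hu v hv).2.1.ge) ψ)

end Pool.Agent.Lib.MP_89352f_al.H60
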