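import Pool.Agent.Lib.MP_89352f_al.H92Data
import Pool.Agent.Lib.MP_89352f_al.Defs

/-! The groups `Q(3,m)` are finite for `m ≤ 3`. -/

namespace Pool.Agent.Lib.MP_89352f_al.H92

open H60

/-- Images of the basis under the Nielsen moves (codes below `24`) and the inversions. -/
def gl (x y : ℕ) : List ℕ :=
  cond (Nat.blt x 24)
    (cond (Nat.beq y (x / 8 * 2))
      (cond (Nat.beq (x / 2 % 2) 0) [nth 6 [2, 4, 0, 4, 0, 2] (x / 4) + x % 2, y]
        [y, nth 6 [2, 4, 0, 4, 0, 2] (x / 4) + x % 2]) [y])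
    (cond (Nat.beq y ((x - 24) / 2 * 2)) [y + 1] [y])

lemma all3_ext {Φ Ψ : F →* F} {p q : ℕ → List ℕ} (hp : ∀ y, Φ (pr [y]) = pr (p y))
    (hq : ∀ y, Ψ (pr [y]) = pr (q y)) (h : (all3 fun y => red (p y) == red (q y)) = true) :
    Φ = Ψ := by
  simp only [all3, Bool.and_eq_true] at h
  exact hom_ext (by rw [hp, hq, pr_eq_of_red h.1.1]) (by rw [hp, hq, pr_eq_of_red h.1.2])
    (by rw [hp, hq, pr_eq_of_red h.2])

lemma gl_inv_all : allLt 30 5 (fun x =>
    all3 fun y => red (ap (gl x) (ap (gl (iv x)) [y])) == red [y]) = true := by decide +kernel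

lemma gl_inv {x : ℕ} (h : x < 30) : (hom (gl x)).comp (hom (gl (iv x))) = MonoidHom.id F :=
  all3_ext (fun y => by rw [MonoidHom.comp_apply, hom_pr, hom_pr]) (fun _ => rfl)
    (allLt_spec gl_inv_all (by norm_num) h)

/-- The generators as automorphisms. -/
noncomputable def aut (x : ℕ) : MulAut F :=
  if h : x < 30 then MonoidHom.toMulEquiv (hom (gl x)) (hom (gl (iv x)))
    (by simpa [iv_iv] using gl_inv (iv_lt30 h)) (gl_inv h) else 1

lemma aut_apply {x : ℕ} (h : x < 30) (z : F) : aut x z = hom (gl x) z := by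
  simp [aut, h]

lemma aut_iv {x : ℕ} (h : x < 30) : aut (iv x) = (aut x)⁻¹ := by
  refine eq_inv_of_mul_eq_one_right (MulEquiv.ext fun z => ?_)
  rw [MulAut.mul_apply, aut_apply h, aut_apply (iv_lt30 h)]
  exact DFunLike.congr_fun (gl_inv h) z

/-- The image of a word under a product of generators. -/
def apW (w l : List ℕ) : List ℕ := List.rec l (fun x _ ih => red (ap (gl x) ih)) w

lemma ev_pr {w : List ℕ} (hw : ∀ x ∈ w, x < 30) (l : List ℕ) :
    (ev aut w).toMonoidHom (pr l) = pr (apW w l) := by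
  induction w with
  | nil => rfl
  | cons x w ih =>
    have : apW (x :: w) l = red (ap (gl x) (apW w l)) := rfl
    rw [this, pr_red, ← hom_pr, ← ih fun y hy => hw y (List.mem_cons_of_mem _ hy), ev_cons,
      ← aut_apply (hw x List.mem_cons_self)]
    rfl

def lt30 (w : List ℕ) : Bool := w.all fun x => Nat.blt x 30

lemma lt30_spec {w : List ℕ} (h : lt30 w = true) : ∀ x ∈ w, x < 30 := by simpa [lt30] using h

/-- Two words define the same automorphism. -/
def eqW (u v : List ℕ) : Bool :=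
  lt30 u && lt30 v && all3 fun y => red (apW u [y]) == red (apW v [y])

lemma eqW_spec {u v : List ℕ} (h : eqW u v = true) : ev aut u = ev aut v ∧ ∀ x ∈ u, x < 30 := by
  simp only [eqW, Bool.and_eq_true] at h
  exact ⟨MulEquiv.toMonoidHom_injective (all3_ext (fun _ => ev_pr (lt30_spec h.1.1) _)
    (fun _ => ev_pr (lt30_spec h.1.2) _) h.2), lt30_spec h.1.1⟩

lemma aut_zero : aut 0 = nielsen 3 (by norm_num) := by
  refine MulEquiv.toMonoidHom_injective ?_
  ext i
  rw [MulEquiv.coe_toMonoidHom, aut_apply (by norm_num)]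
  fin_cases i <;> simp [hom, nielsen, gl, nth] <;> rfl

/-- A Whitehead move as a word in Nielsen moves. -/
def wW (m a : ℕ) : List ℕ :=
  ([0, 1, 2, 3, 4, 5].filter fun y => tb m y && !Nat.beq (y / 2) (a / 2)).map fun y =>
    4 * (y / 2 * 2 + cond (Nat.blt (a / 2) (y / 2)) (a / 2) (a / 2 - 1)) + 2 * (y % 2) + (a + y) % 2

lemma wW_all : allW (fun m a => lt30 (wW m a) &&
    all3 fun y => red (apW (wW m a) [y]) == red (ap (whL m a) [y])) = true := by decide +kernel

lemma ev_mem (g : ℕ → MulAut F) {w : List ℕ} (hw : ∀ x ∈ w, x < 30) :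
    ev g w ∈ sub g 1073741823 := by
  induction w with
  | nil => exact one_mem _
  | cons x w ih =>
    have hx := hw x List.mem_cons_self
    rw [ev_cons]
    refine mul_mem (Subgroup.subset_closure ⟨x, hx, ?_, rfl⟩)
      (ih fun y hy => hw y (List.mem_cons_of_mem _ hy))
    interval_cases x <;> decide

lemma gen_top (γ : MulAut F) : γ ∈ sub aut 1073741823 := by
  have one : ∀ (w : List ℕ) (f : ℕ → List ℕ), (lt30 w &&
      all3 fun y => red (apW w [y]) == red (ap f [y])) = true →
      ∃ δ ∈ sub aut 1073741823, δ.toMonoidHom = hom f := fun w f h => by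
    rw [Bool.and_eq_true] at h
    exact ⟨_, ev_mem aut (lt30_spec h.1),
      all3_ext (fun _ => ev_pr (lt30_spec h.1) _) (fun _ => hom_pr _ _) h.2⟩
  have cmp : ∀ φ ψ : F →* F, (∃ δ ∈ sub aut 1073741823, δ.toMonoidHom = φ) →
      (∃ δ ∈ sub aut 1073741823, δ.toMonoidHom = ψ) →
      ∃ δ ∈ sub aut 1073741823, δ.toMonoidHom = φ.comp ψ := by
    rintro _ _ ⟨a, ha, rfl⟩ ⟨b, hb, rfl⟩
    exact ⟨a * b, mul_mem ha hb, rfl⟩
  have rs : ∀ s, ∃ δ ∈ sub aut 1073741823, δ.toMonoidHom = rotS s := fun s => by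
    induction s with
    | nil => exact ⟨1, one_mem _, rfl⟩
    | cons g s ih =>
      refine cmp _ _ ?_ ih
      cases g with
      | zero => exact one [12, 21, 14] _ (by decide +kernel)
      | succ g => exact one [0, 9, 2, 26, 28] (rL 1) (by decide +kernel)
  obtain ⟨δ, h1, h2⟩ := gen (fun φ => ∃ δ ∈ sub aut 1073741823, δ.toMonoidHom = φ)
    (fun j _ => ⟨rs _, cmp _ _ (one [28] tL (by decide +kernel)) (rs _)⟩)
    (fun φ m a h ⟨δ, h1, h2⟩ => by
      obtain ⟨ε, k1, k2⟩ := one _ _ (allW_spec wW_all h)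
      refine ⟨δ * ε⁻¹, mul_mem h1 (inv_mem k1), MonoidHom.ext fun z => ?_⟩
      have := DFunLike.congr_fun h2 (ε⁻¹ z)
      rw [MonoidHom.comp_apply, wh, ← k2] at this
      simpa using this) (φ := γ.toMonoidHom) γ.bijective
  exact MulEquiv.toMonoidHom_injective h2 ▸ h1

/-- Decoding of a word. -/
def dw (f : ℕ) : ℕ → List ℕ :=
  Nat.rec (motive := fun _ => ℕ → List ℕ) (fun _ => [])
    (fun _ ih n => cond (Nat.beq n 0) [] ((n % 32 - 1) :: ih (n / 32))) f

noncomputable def rn (T : Tr) (k : ℕ) : ℕ := T.get (k / 16) >>> (64 * (k % 16)) % 2 ^ 64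

noncomputable def rl (T : Tr) (k : ℕ) : List ℕ := dw 8 (rn T k % 2 ^ 40)

noncomputable def tbl (T : Tr) (c x : ℕ) : ℕ :=
  T.get (c / 16) >>> (1240 * (c % 16) + 40 * x) % 1099511627776

/-- Each relator is a conjugate of the trivial or of the `m`-th power of the Nielsen move. -/
noncomputable def relOK (T : Tr) (K m : ℕ) : Bool := allLt K 10 fun k =>
  eqW (rl T k ++ dw 4 (rn T k / 2 ^ 40 % 2 ^ 20)) (dw 4 (rn T k / 2 ^ 40 % 2 ^ 20) ++
    List.replicate (m * (rn T k / 2 ^ 61)) (rn T k / 2 ^ 60 % 2))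

/-- The generators in the quotient. -/
noncomputable def gq (m x : ℕ) : Q 3 (by norm_num) m := QuotientGroup.mk (aut x)

lemma ev_gq (m : ℕ) (w : List ℕ) : ev (gq m) w = QuotientGroup.mk (ev aut w) := by
  induction w with
  | nil => rfl
  | cons x w ih => rw [ev_cons, ev_cons, ih]; rfl

lemma gq_iv (m : ℕ) : ∀ x < 30, gq m (iv x) = (gq m x)⁻¹ := fun x h => by
  rw [gq, aut_iv h]
  rfl

lemma rel_spec {T : Tr} {K m n : ℕ} (h : relOK T K n = true) (hK : K ≤ 1024) (hm : m ∣ n) :
    ∀ k < K, ev (gq m) (rl T k) = 1 ∧ ∀ x ∈ rl T k, x < 30 := fun k hk => by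
  obtain ⟨h1, h2⟩ := eqW_spec (allLt_spec h hK hk)
  refine ⟨?_, fun x hx => h2 x (List.mem_append_left _ hx)⟩
  have h3 := congrArg (QuotientGroup.mk : _ → Q 3 (by norm_num) m) h1
  rw [← ev_gq, ← ev_gq, ev_append, ev_append] at h3
  have h4 : gq m 0 ^ m = 1 := by
    rw [gq, aut_zero, ← QuotientGroup.mk_pow, QuotientGroup.eq_one_iff]
    exact Subgroup.subset_normalClosure rfl
  have h5 : ∀ s < 2, gq m s ^ m = 1 := fun s hs => by
    interval_cases s
    · exact h4
    · rw [show gq m 1 = _ from gq_iv m 0 (by norm_num), inv_pow, h4, inv_one]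
  obtain ⟨r, rfl⟩ := hm
  rw [ev.eq_1 _ (List.replicate _ _), List.map_replicate, List.prod_replicate, mul_assoc m, pow_mul,
    h5 _ (Nat.mod_lt _ two_pos), one_pow, mul_one] at h3
  simpa using h3

theorem finite_of {m : ℕ} (h : Finite (sub (gq m) 1073741823)) :
    Finite (Q 3 (by norm_num) m) := by
  refine Finite.of_surjective (fun z : sub (gq m) 1073741823 => z.1) fun z => ?_
  obtain ⟨γ, rfl⟩ := QuotientGroup.mk_surjective z
  refine ⟨⟨_, ?_⟩, rfl⟩
  induction gen_top γ using Subgroup.closure_induction with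
  | mem _ hy =>
    obtain ⟨x, a, b, rfl⟩ := hy
    exact Subgroup.subset_closure ⟨x, a, b, rfl⟩
  | one => exact one_mem _
  | mul _ _ _ _ a b => exact mul_mem a b
  | inv _ _ a => exact inv_mem a

lemma sub_zero_finite {G : Type*} [Group G] (g : ℕ → G) : Finite (sub g 0) := by
  have : sub g 0 = ⊥ := by simp [sub, tb]
  rw [this]
  infer_instance

lemma rel2 : relOK rels2 121 2 = true := by decide +kernel

lemma rel3 : relOK rels3 378 3 = true := by decide +kernel

lemma t20 : table (tbl tab20) (rl rels2) 121 7 1073741823 1057030143 = true := by decide +kernel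

lemma t21 : table (tbl tab21) (rl rels2) 121 3 1057030143 1057026303 = true := by decide +kernel

lemma t22 : table (tbl tab22) (rl rels2) 121 8 1057026303 61695 = true := by decide +kernel

lemma t23 : table (tbl tab23) (rl rels2) 121 4 61695 255 = true := by decide +kernel

lemma t24 : table (tbl tab24) (rl rels2) 121 4 255 51 = true := by decide +kernel

lemma t25 : table (tbl tab25) (rl rels2) 121 4 51 0 = true := by decide +kernel

lemma t30 : table (tbl tab30) (rl rels3) 378 1053 1073741823 1057030143 = true := by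
  decide +kernel

lemma t31 : table (tbl tab31) (rl rels3) 378 324 1057030143 1057026303 = true := by decide +kernel

lemma t32 : table (tbl tab32) (rl rels3) 378 8 1057026303 61695 = true := by decide +kernel

lemma t33 : table (tbl tab33) (rl rels3) 378 9 61695 255 = true := by decide +kernel

lemma t34 : table (tbl tab34) (rl rels3) 378 27 255 51 = true := by decide +kernel

lemma t35 : table (tbl tab35) (rl rels3) 378 27 51 0 = true := by decide +kernel

theorem finite_two {m : ℕ} (hm : m ∣ 2) : Finite (Q 3 (by norm_num) m) := by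
  have h := rel_spec rel2 (by norm_num) hm
  have k := fun tab N I J => tc (gq_iv m) h (tab := tab) (N := N) (I := I) (J := J)
  exact finite_of (k _ _ _ _ (by norm_num) (by norm_num) t20 (k _ _ _ _ (by norm_num)
    (by norm_num) t21 (k _ _ _ _ (by norm_num) (by norm_num) t22 (k _ _ _ _ (by norm_num)
    (by norm_num) t23 (k _ _ _ _ (by norm_num) (by norm_num) t24 (k _ _ _ _ (by norm_num)
    (by norm_num) t25 (sub_zero_finite _)))))))

theorem finite_three : Finite (Q 3 (by norm_num) 3) := by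
  have h := rel_spec rel3 (by norm_num) (dvd_refl 3)
  have k := fun tab N I J => tc (gq_iv 3) h (tab := tab) (N := N) (I := I) (J := J)
  exact finite_of (k _ _ _ _ (by norm_num) (by norm_num) t30 (k _ _ _ _ (by norm_num)
    (by norm_num) t31 (k _ _ _ _ (by norm_num) (by norm_num) t32 (k _ _ _ _ (by norm_num)
    (by norm_num) t33 (k _ _ _ _ (by norm_num) (by norm_num) t34 (k _ _ _ _ (by norm_num)
    (by norm_num) t35 (sub_zero_finite _)))))))

end Pool.Agent.Lib.MP_89352f_al.H92
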