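import Pool.Agent.Lib.MP_89352f_al.H60Niel

/-! A checker for coset enumerations without coincidences. -/

namespace Pool.Agent.Lib.MP_89352f_al.H92

open H60

/-- Binary trees of numbers. -/
inductive Tr
  | lf (n : ℕ)
  | nd (l r : Tr)

/-- Lookup along the binary digits of the key. -/
noncomputable def Tr.get (t : Tr) : ℕ → ℕ :=
  Tr.rec (motive := fun _ => ℕ → ℕ) (fun n _ => n)
    (fun _ _ a b k => cond (Nat.beq (k % 2) 0) (a (k / 2)) (b (k / 2))) t

/-- A check for all numbers `2 ^ d * i + j`, `j < 2 ^ d`. -/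
def allB (c : ℕ → Bool) (d : ℕ) : ℕ → Bool :=
  Nat.rec (motive := fun _ => ℕ → Bool) (fun i => frc i c)
    (fun _ ih i => ih (2 * i) && ih (2 * i + 1)) d

lemma allB_spec {c : ℕ → Bool} : ∀ (d i : ℕ), allB c d i = true → ∀ j < 2 ^ d,
    c (2 ^ d * i + j) = true
  | 0, i, h, j, hj => by
    obtain rfl : j = 0 := by simpa using hj
    simpa [allB, frc_eq] using h
  | d + 1, i, h, j, hj => by
    have h' : (allB c d (2 * i) && allB c d (2 * i + 1)) = true := h
    rw [Bool.and_eq_true] at h'
    by_cases k : j < 2 ^ d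
    · have := allB_spec d _ h'.1 j k
      rwa [← mul_assoc, ← pow_succ] at this
    · have := allB_spec d _ h'.2 (j - 2 ^ d) (by rw [pow_succ] at hj; omega)
      rwa [mul_add, ← mul_assoc, ← pow_succ, mul_one, add_assoc,
        Nat.add_sub_cancel' (not_lt.1 k)] at this

/-- A check for all numbers below `n ≤ 2 ^ d`. -/
def allLt (n d : ℕ) (c : ℕ → Bool) : Bool := allB (fun i => cond (Nat.blt i n) (c i) true) d 0

lemma allLt_spec {n d : ℕ} {c : ℕ → Bool} (h : allLt n d c = true) (hn : n ≤ 2 ^ d) {i : ℕ}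
    (hi : i < n) : c i = true := by
  simpa [blt_of hi] using allB_spec d 0 h i (hi.trans_le hn)

variable {G : Type*} [Group G]

/-- The value of a word. -/
def ev (g : ℕ → G) (w : List ℕ) : G := (w.map g).prod

@[simp] lemma ev_nil (g : ℕ → G) : ev g [] = 1 := rfl

@[simp] lemma ev_cons (g : ℕ → G) (x : ℕ) (w : List ℕ) : ev g (x :: w) = g x * ev g w := by
  simp [ev]

@[simp] lemma ev_append (g : ℕ → G) (v w : List ℕ) : ev g (v ++ w) = ev g v * ev g w := by
  simp [ev]

/-- The subgroup generated by the letters in the bit mask `I`. -/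
def sub (g : ℕ → G) (I : ℕ) : Subgroup G :=
  Subgroup.closure {y | ∃ x < 30, tb I x = true ∧ g x = y}

def tim (e : ℕ) : ℕ := e / 2048 % 65536

/-- Following a word along edges of the table that are older than `t`. -/
def trace (tab : ℕ → ℕ → ℕ) (t c : ℕ) (w : List ℕ) : ℕ → Bool :=
  List.rec (motive := fun _ => ℕ → Bool) (fun d => Nat.beq d c)
    (fun x _ ih d => frc (tab d x) fun e => Nat.blt (tim e) t && frc (e % 2048) ih) w

/-- The justification of one edge. -/
def edge (tab : ℕ → ℕ → ℕ) (rel : ℕ → List ℕ) (K N I J c x : ℕ) : Bool :=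
  frc (tab c x) fun e => frc (tim e) fun t => frc (e % 2048) fun d => frc (e / 134217728) fun j =>
    cond (Nat.beq t 65535) (!tb I x && !tb I (iv x)) (Nat.blt d N &&
      cond (Nat.beq j 0) (Nat.blt c d && Nat.beq (tab d 30) (c + 2048 * x))
        (cond (Nat.beq j 1) (trace tab t c [iv x] d)
          (cond (Nat.beq j 2) (Nat.beq c 0 && Nat.beq d 0 && tb J x)
            (Nat.blt ((j - 3) / 8) K &&
              List.casesOn ((rel ((j - 3) / 8)).drop ((j - 3) % 8) ++
                (rel ((j - 3) / 8)).take ((j - 3) % 8)) false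
                fun y w => Nat.beq y x && trace tab t c w d))))

/-- The check of a whole coset table. -/
def table (tab : ℕ → ℕ → ℕ) (rel : ℕ → List ℕ) (K N I J : ℕ) : Bool :=
  allLt N 11 fun c => allLt 30 5 (edge tab rel K N I J c)

/-- Coset representatives along the spanning tree. -/
def rep (g : ℕ → G) (tab : ℕ → ℕ → ℕ) (d : ℕ) : G :=
  if tab d 30 % 2048 < d then rep g tab (tab d 30 % 2048) * g (tab d 30 / 2048) else 1

lemma iv_lt30 {x : ℕ} (h : x < 30) : iv x < 30 := by interval_cases x <;> decide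

theorem tc {g : ℕ → G} (hg : ∀ x < 30, g (iv x) = (g x)⁻¹) {rel : ℕ → List ℕ} {K : ℕ}
    (hrel : ∀ k < K, ev g (rel k) = 1 ∧ ∀ x ∈ rel k, x < 30) {tab : ℕ → ℕ → ℕ} {N I J : ℕ}
    (h0 : 0 < N) (hN : N ≤ 2048) (h : table tab rel K N I J = true) (hJ : Finite (sub g J)) :
    Finite (sub g I) := by
  have he : ∀ c < N, ∀ x < 30, edge tab rel K N I J c x = true := fun c hc x hx =>
    allLt_spec (allLt_spec h hN hc) (by norm_num) hx
  have r0 : rep g tab 0 = 1 := by rw [rep, if_neg (Nat.not_lt_zero _)]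
  have key : ∀ t, ∀ c < N, ∀ x < 30, tim (tab c x) = t → t ≠ 65535 → tab c x % 2048 < N ∧
      rep g tab c * g x * (rep g tab (tab c x % 2048))⁻¹ ∈ sub g J := by
    intro t
    induction t using Nat.strong_induction_on with | _ t ih => ?_
    intro c hc x hx ht ht'
    have tl : t < 65536 := ht ▸ Nat.mod_lt _ (by norm_num)
    have tr : ∀ (w : List ℕ) (d : ℕ), d < N → (∀ y ∈ w, y < 30) → trace tab t c w d = true →
        rep g tab d * ev g w * (rep g tab c)⁻¹ ∈ sub g J := by
      intro w
      induction w with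
      | nil =>
        intro d _ _ k
        rw [Nat.eq_of_beq_eq_true k]
        simp
      | cons y w ihw =>
        intro d hd hw k
        have k' : (frc (tab d y) fun e => Nat.blt (tim e) t &&
          frc (e % 2048) (trace tab t c w)) = true := k
        simp only [frc_eq, Bool.and_eq_true, Nat.blt_eq] at k'
        obtain ⟨a, b⟩ := ih _ k'.1 d hd y (hw y List.mem_cons_self) rfl (by omega)
        have := (sub g J).mul_mem b (ihw _ a (fun z hz => hw z (List.mem_cons_of_mem _ hz)) k'.2)
        simpa [mul_assoc] using this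
    have k := he c hc x hx
    simp only [edge, frc_eq, ht] at k
    generalize tab c x % 2048 = d at k ⊢
    generalize tab c x / 134217728 = j at k
    have fin : ∀ w : List ℕ, g x * ev g w = 1 → rep g tab d * ev g w * (rep g tab c)⁻¹ ∈ sub g J →
        rep g tab c * g x * (rep g tab d)⁻¹ ∈ sub g J := fun w a b => by
      simpa [eq_inv_of_mul_eq_one_left a, mul_assoc] using (sub g J).inv_mem b
    rw [Bool.cond_eq_ite, if_neg (by simpa using ht'), Bool.and_eq_true, Nat.blt_eq] at k
    refine ⟨k.1, ?_⟩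
    simp only [Bool.cond_eq_ite, Nat.beq_eq] at k
    obtain ⟨k1, k⟩ := k
    split_ifs at k
    · simp only [Bool.and_eq_true, Nat.blt_eq, Nat.beq_eq] at k
      have a : tab d 30 % 2048 = c := by omega
      have b : tab d 30 / 2048 = x := by omega
      rw [rep.eq_1 g tab d, a, b, if_pos k.1]
      simp
    · exact fin [iv x] (by simp [hg x hx]) (tr _ d k1 (by simpa using iv_lt30 hx) k)
    · simp only [Bool.and_eq_true, Nat.beq_eq] at k
      rw [k.1.1, k.1.2, r0]
      have a : g x ∈ sub g J := Subgroup.subset_closure ⟨x, hx, k.2, rfl⟩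
      simpa using a
    · rw [Bool.and_eq_true, Nat.blt_eq] at k
      obtain ⟨a, b⟩ := hrel _ k.1
      have a1 : ev g ((rel ((j - 3) / 8)).drop ((j - 3) % 8) ++
          (rel ((j - 3) / 8)).take ((j - 3) % 8)) = 1 := by
        rw [← List.take_append_drop ((j - 3) % 8) (rel ((j - 3) / 8)), ev_append] at a
        rw [ev_append, mul_eq_one_comm, a]
      have b1 : ∀ y ∈ (rel ((j - 3) / 8)).drop ((j - 3) % 8) ++
          (rel ((j - 3) / 8)).take ((j - 3) % 8), y < 30 := fun y hy =>
        b y ((List.mem_append.1 hy).elim List.mem_of_mem_drop List.mem_of_mem_take)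
      have k2 := k.2
      generalize (rel ((j - 3) / 8)).drop ((j - 3) % 8) ++
        (rel ((j - 3) / 8)).take ((j - 3) % 8) = v at a1 b1 k2
      cases v with
      | nil => exact absurd k2 (by simp)
      | cons y w =>
        have k3 : (Nat.beq y x && trace tab t c w d) = true := k2
        rw [Bool.and_eq_true, Nat.beq_eq] at k3
        rw [k3.1, ev_cons] at a1
        exact fin w a1 (tr w d k1 (fun z hz => b1 z (List.mem_cons_of_mem _ hz)) k3.2)
  have step : ∀ (z : G) (x : ℕ), x < 30 → (tb I x = true ∨ tb I (iv x) = true) →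
      (∃ c < N, z * (rep g tab c)⁻¹ ∈ sub g J) → ∃ c < N, z * g x * (rep g tab c)⁻¹ ∈ sub g J := by
    rintro z x hx hI ⟨c, hc, hz⟩
    obtain ⟨a, b⟩ := key _ c hc x hx rfl fun e => by
      have k := he c hc x hx
      simp only [edge, frc_eq, e] at k
      rcases hI with hI | hI <;> simp [hI] at k
    exact ⟨_, a, by simpa [mul_assoc] using (sub g J).mul_mem hz b⟩
  have all : ∀ z ∈ sub g I, ∃ c < N, z * (rep g tab c)⁻¹ ∈ sub g J := fun z hz => by
    induction hz using Subgroup.closure_induction_right with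
    | one => exact ⟨0, h0, by simp [r0]⟩
    | mul_right z _ y hy ih =>
      obtain ⟨x, a, b, rfl⟩ := hy
      exact step z x a (Or.inl b) ih
    | mul_inv_cancel z _ y hy ih =>
      obtain ⟨x, a, b, rfl⟩ := hy
      rw [← hg x a]
      exact step z _ (iv_lt30 a) (Or.inr (by rwa [iv_iv])) ih
  refine Set.Finite.subset (Set.finite_range fun p : sub g J × Fin N => p.1.1 * rep g tab p.2)
    fun z hz => ?_
  obtain ⟨c, hc, k⟩ := all z hz
  exact ⟨(⟨_, k⟩, ⟨c, hc⟩), by simp⟩

end Pool.Agent.Lib.MP_89352f_al.H92
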