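import Pool.Agent.Lib.MP_89352f_al.Central

namespace Pool.Agent.Lib.MP_89352f_al

open FreeGroup (of)

section Low

variable {K : Type*} [CommRing K] {d : ℕ}

/-- Matrices vanishing below the `k`-th superdiagonal. -/
def Low (k : ℕ) (Y : Matrix (Fin d) (Fin d) K) : Prop :=
  ∀ i j : Fin d, j.val < i.val + k → Y i j = 0

theorem Low.mul {k l : ℕ} {Y Z : Matrix (Fin d) (Fin d) K} (hY : Low k Y) (hZ : Low l Z) :
    Low (k + l) (Y * Z) := by
  intro i j h
  rw [Matrix.mul_apply]
  refine Finset.sum_eq_zero fun t _ => ?_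
  by_cases h1 : t.val < i.val + k
  · rw [hY i t h1, zero_mul]
  · rw [hZ t j (by omega), mul_zero]

theorem Low.add {k : ℕ} {Y Z : Matrix (Fin d) (Fin d) K} (hY : Low k Y) (hZ : Low k Z) :
    Low k (Y + Z) := fun i j h => by rw [Matrix.add_apply, hY i j h, hZ i j h, add_zero]

theorem Low.mono {k l : ℕ} {Y : Matrix (Fin d) (Fin d) K} (hY : Low k Y) (h : l ≤ k) :
    Low l Y := fun i j h' => hY i j (by omega)

theorem Low.eq_zero {k : ℕ} {Y : Matrix (Fin d) (Fin d) K} (hY : Low k Y) (h : d ≤ k) :
    Y = 0 := by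
  ext i j
  exact hY i j (by have := j.2; omega)

theorem low_one : Low 0 (1 : Matrix (Fin d) (Fin d) K) := by
  intro i j h
  exact Matrix.one_apply_ne (by intro e; subst e; omega)

theorem low_zero (k : ℕ) : Low k (0 : Matrix (Fin d) (Fin d) K) := fun _ _ _ => rfl

theorem Low.pow {Y : Matrix (Fin d) (Fin d) K} (hY : Low 1 Y) (k : ℕ) : Low k (Y ^ k) := by
  induction k with
  | zero => simpa using low_one
  | succ k ih => rw [pow_succ]; exact ih.mul hY

theorem Low.pow_sub {Y A : Matrix (Fin d) (Fin d) K} (hY : Low 1 Y) (hA : Low 2 A) (k : ℕ) :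
    Low (k + 1) ((Y + A) ^ k - Y ^ k) := by
  induction k with
  | zero => simpa using low_zero _
  | succ k ih =>
    have e : (Y + A) ^ (k + 1) - Y ^ (k + 1)
        = ((Y + A) ^ k - Y ^ k) * (Y + A) + Y ^ k * A := by
      rw [pow_succ, pow_succ]; noncomm_ring
    rw [e]
    exact (ih.mul (hY.add (hA.mono (by omega)))).add ((hY.pow k).mul hA)

/-- The superdiagonal matrix with entries `s i`. -/
def sup (s : ℕ → K) : Matrix (Fin d) (Fin d) K :=
  Matrix.of fun i j => if j.val = i.val + 1 then s i.val else 0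

theorem low_sup (s : ℕ → K) : Low 1 (sup (d := d) s) := by
  intro i j h
  simp only [sup, Matrix.of_apply]
  rw [if_neg (by omega)]

theorem sup_pow (s : ℕ → K) (k : ℕ) (i j : Fin d) :
    (sup (d := d) s ^ k) i j
      = if j.val = i.val + k then ∏ t ∈ Finset.range k, s (i.val + t) else 0 := by
  induction k generalizing j with
  | zero =>
    simp only [pow_zero, Matrix.one_apply, add_zero, Finset.range_zero, Finset.prod_empty,
      Fin.ext_iff]
    by_cases h : i.val = j.val
    · simp [h]
    · rw [if_neg h, if_neg (Ne.symm h)]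
  | succ k ih =>
    rw [pow_succ, Matrix.mul_apply]
    simp only [ih]
    by_cases h : j.val = i.val + (k + 1)
    · rw [if_pos h, Finset.sum_eq_single (⟨i.val + k, by have := j.2; omega⟩ : Fin d)]
      · simp only [sup, Matrix.of_apply, if_true]
        rw [if_pos (by omega), Finset.prod_range_succ]
      · intro t _ ht
        rw [if_neg (fun e => ht (Fin.ext e)), zero_mul]
      · intro h'
        exact absurd (Finset.mem_univ _) h'
    · rw [if_neg h]
      refine Finset.sum_eq_zero fun t _ => ?_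
      by_cases h1 : t.val = i.val + k
      · simp only [sup, Matrix.of_apply]
        rw [if_neg (show ¬ j.val = t.val + 1 by omega), mul_zero]
      · rw [if_neg h1, zero_mul]

theorem sup_pow_top (q : ℕ) (s : ℕ → K) :
    sup (d := q + 1) s ^ q = (∏ t ∈ Finset.range q, s t) • sup (d := q + 1) (fun _ => (1 : K)) ^ q := by
  ext i j
  rw [Matrix.smul_apply, sup_pow, sup_pow]
  by_cases h : j.val = i.val + q
  · have : i.val = 0 := by have := j.2; omega
    simp [h, this]
  · simp [h]

end Low

section Field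

variable (p e : ℕ) [hp : Fact p.Prime]

local instance : Fact (p ^ e ≠ 0) := ⟨pow_ne_zero _ hp.out.ne_zero⟩

/-- The twisted superdiagonal matrix of an element of the field with `p^(p^e)` elements. -/
noncomputable def tw (β : GaloisField p (p ^ e)) :
    Matrix (Fin (p ^ e + 1)) (Fin (p ^ e + 1)) (GaloisField p (p ^ e)) :=
  sup fun t => β ^ p ^ t

theorem tw_add (β γ : GaloisField p (p ^ e)) : tw p e (β + γ) = tw p e β + tw p e γ := by
  ext i j
  simp only [tw, sup, Matrix.of_apply, Matrix.add_apply]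
  split_ifs
  · rw [add_pow_char_pow]
  · simp

theorem tw_zero : tw p e 0 = 0 := by
  ext i j
  simp [tw, sup, hp.out.ne_zero]

/-- The corner matrix. -/
noncomputable def corner : Matrix (Fin (p ^ e + 1)) (Fin (p ^ e + 1)) (GaloisField p (p ^ e)) :=
  sup (d := p ^ e + 1) (fun _ => (1 : GaloisField p (p ^ e))) ^ p ^ e

theorem low_corner : Low (p ^ e) (corner p e) := (low_sup _).pow _

theorem corner_ne : corner p e ≠ 0 := by
  intro h
  have := congrFun (congrFun h 0) (Fin.last _)
  rw [corner, sup_pow] at this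
  simp at this

theorem tw_pow (β : GaloisField p (p ^ e)) (hβ : β ≠ 0) :
    ∃ j : ℕ, ¬ p ∣ j ∧ tw p e β ^ p ^ e = j • corner p e := by
  set y := ∏ t ∈ Finset.range (p ^ e), β ^ p ^ t with hy
  have hy0 : y ≠ 0 := Finset.prod_ne_zero_iff.2 fun t _ => pow_ne_zero _ hβ
  have hfr : β ^ p ^ p ^ e = β := by
    have : Fintype (GaloisField p (p ^ e)) := Fintype.ofFinite _
    have hcard : Fintype.card (GaloisField p (p ^ e)) = p ^ p ^ e := by
      rw [← Nat.card_eq_fintype_card]
      exact GaloisField.card p _ (pow_ne_zero _ hp.out.ne_zero)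
    rw [← hcard]
    exact FiniteField.pow_card β
  have hyp : y ^ p = y := by
    have h1 : y ^ p * β = y * β := by
      have e1 := Finset.prod_range_succ (fun t => β ^ p ^ t) (p ^ e)
      have e2 := Finset.prod_range_succ' (fun t => β ^ p ^ t) (p ^ e)
      rw [hfr] at e1
      simp only [pow_zero, pow_one] at e2
      rw [← e1, e2, hy, ← Finset.prod_pow]
      simp only [← pow_mul, ← pow_succ]
    exact mul_right_cancel₀ hβ h1
  have hmem : y ∈ (⊥ : Subfield (GaloisField p (p ^ e))) :=
    (Subfield.mem_bot_iff_pow_eq_self _ p).2 hyp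
  obtain ⟨j, hj⟩ : ∃ j : ℕ, (j : GaloisField p (p ^ e)) = y := by
    let S : Subfield (GaloisField p (p ^ e)) := (algebraMap (ZMod p) (GaloisField p (p ^ e))).fieldRange
    have : y ∈ S := (bot_le : ⊥ ≤ S) hmem
    obtain ⟨c, hc⟩ := this
    refine ⟨c.val, ?_⟩
    rw [← hc, ← map_natCast (algebraMap (ZMod p) (GaloisField p (p ^ e))) c.val,
      ZMod.natCast_zmod_val]
  refine ⟨j, ?_, ?_⟩
  · intro h
    apply hy0
    rw [← hj]
    exact (CharP.cast_eq_zero_iff _ p j).2 h
  · rw [tw, sup_pow_top, ← hy, ← hj, Nat.cast_smul_eq_nsmul, corner]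

/-- `g = 1 + tw β + (higher terms)`. -/
def Lead (g : Matrix (Fin (p ^ e + 1)) (Fin (p ^ e + 1)) (GaloisField p (p ^ e)))
    (β : GaloisField p (p ^ e)) : Prop := Low 2 (g - 1 - tw p e β)

theorem lead_one : Lead p e 1 0 := by
  simpa [Lead, tw_zero] using low_zero _

theorem Lead.low {g β} (h : Lead p e g β) : Low 1 (g - 1) := by
  have : g - 1 = tw p e β + (g - 1 - tw p e β) := by abel
  rw [this]
  exact (low_sup _).add (h.mono (by omega))

theorem Lead.mul {g g' β β'} (h : Lead p e g β) (h' : Lead p e g' β') :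
    Lead p e (g * g') (β + β') := by
  have e1 : g * g' - 1 - tw p e (β + β')
      = (g - 1) * (g' - 1) + ((g - 1 - tw p e β) + (g' - 1 - tw p e β')) := by
    rw [tw_add]; noncomm_ring
  unfold Lead
  rw [e1]
  exact (h.low.mul h'.low).add (Low.add h h')

theorem Lead.pow {g β} (h : Lead p e g β) (k : ℕ) : Lead p e (g ^ k) (k • β) := by
  induction k with
  | zero => simpa using lead_one p e
  | succ k ih => rw [pow_succ, succ_nsmul]; exact ih.mul p e h

theorem Lead.pow_top {g β} (h : Lead p e g β) : g ^ p ^ e = 1 + tw p e β ^ p ^ e := by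
  have e1 : g = 1 + (tw p e β + (g - 1 - tw p e β)) := by abel
  have e2 := (Low.pow_sub (low_sup (fun t => β ^ p ^ t)) h (p ^ e)).eq_zero le_rfl
  rw [sub_eq_zero] at e2
  conv_lhs => rw [e1]
  rw [add_pow_char_pow_of_commute p e (Commute.one_left _), one_pow]
  congr 1

theorem Lead.pow_one {g β} (h : Lead p e g β) : g ^ p ^ (e + 1) = 1 := by
  have e1 : g = 1 + (g - 1) := by abel
  have e2 : (g - 1) ^ p ^ (e + 1) = 0 := by
    refine (h.low.pow _).eq_zero ?_
    exact Nat.pow_lt_pow_right hp.out.one_lt (Nat.lt_succ_self e)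
  rw [e1, add_pow_char_pow_of_commute p (e + 1) (Commute.one_left _), one_pow, e2, add_zero]

theorem Lead.comm {g β} (h : Lead p e g β) : (1 + corner p e) * g = g * (1 + corner p e) := by
  have e1 : corner p e * (g - 1) = 0 := ((low_corner p e).mul h.low).eq_zero le_rfl
  have e2 : (g - 1) * corner p e = 0 := (h.low.mul (low_corner p e)).eq_zero (by omega)
  rw [mul_sub, sub_eq_zero] at e1
  rw [sub_mul, sub_eq_zero] at e2
  rw [add_mul, mul_add, e1, e2]
  simp

theorem corner_pow (j : ℕ) : (1 + corner p e) ^ j = 1 + j • corner p e := by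
  have e1 : corner p e * corner p e = 0 :=
    ((low_corner p e).mul (low_corner p e)).eq_zero
      (by have : 0 < p ^ e := pow_pos hp.out.pos e; omega)
  induction j with
  | zero => simp
  | succ j ih =>
    rw [pow_succ, ih, succ_nsmul, add_mul, mul_add, mul_add, smul_mul_assoc, smul_mul_assoc, e1]
    simp only [mul_one, one_mul, smul_zero, add_zero]
    abel

end Field

/-- An automorphic image of a basis element is nonzero modulo `p` in the abelianisation. -/
theorem prim_ne_zero {n p : ℕ} [hp : Fact p.Prime] {K : Type*} [AddCommGroup K] [Module (ZMod p) K]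
    (b : Fin n → K) (hb : LinearIndependent (ZMod p) b)
    (φ : MulAut (FreeGroup (Fin n))) (i : Fin n) :
    Multiplicative.toAdd
      (FreeGroup.lift (fun i => Multiplicative.ofAdd (b i)) (φ (of i))) ≠ 0 := by
  classical
  let κ : FreeGroup (Fin n) →* Multiplicative (ZMod p) :=
    (FreeGroup.lift fun _ => Multiplicative.ofAdd (1 : ZMod p)).comp φ.symm.toMonoidHom
  obtain ⟨f, hf⟩ : ∃ f : K →ₗ[ZMod p] ZMod p, ∀ j, f (b j) = Multiplicative.toAdd (κ (of j)) := by
    obtain ⟨g, hg⟩ := LinearMap.exists_extend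
      ((Finsupp.linearCombination (ZMod p) fun j => Multiplicative.toAdd (κ (of j))).comp
        hb.repr)
    refine ⟨g, fun j => ?_⟩
    have h1 := LinearMap.congr_fun hg ⟨b j, Submodule.subset_span ⟨j, rfl⟩⟩
    simp only [LinearMap.comp_apply, Submodule.subtype_apply] at h1
    rw [h1, hb.repr_eq_single j _ rfl]
    simp
  have key : (AddMonoidHom.toMultiplicative f.toAddMonoidHom).comp
      (FreeGroup.lift (fun i => Multiplicative.ofAdd (b i))) = κ := by
    ext j
    simp [hf]
  intro h
  have h1 := DFunLike.congr_fun key (φ (of i))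
  simp [κ, h] at h1
  exact one_ne_zero (α := ZMod p) (by simpa using congrArg Multiplicative.toAdd h1.symm)

theorem prime_power (n : ℕ) (hn : 2 ≤ n) (p e m : ℕ) (hp : p.Prime) (he : n ≤ p ^ e)
    (hm : p ^ (e + 1) ∣ m) : ∃ g : Q n hn m, ¬ IsOfFinOrder g := by
  have := Fact.mk hp
  let K := GaloisField p (p ^ e)
  let M := Matrix (Fin (p ^ e + 1)) (Fin (p ^ e + 1)) K
  have hfr : Module.finrank (ZMod p) K = p ^ e :=
    GaloisField.finrank p (pow_ne_zero _ hp.ne_zero)
  let B := Module.finBasisOfFinrankEq (ZMod p) K hfr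
  let b : Fin n → K := fun i => B (Fin.castLE he i)
  have hb : LinearIndependent (ZMod p) b := B.linearIndependent.comp _ (Fin.castLE_injective he)
  have hN : p ^ (e + 1) ≠ 0 := pow_ne_zero _ hp.ne_zero
  have hlead : ∀ β : K, Lead p e (1 + tw p e β) β := by
    intro β
    have : (1 : M) + tw p e β - 1 - tw p e β = 0 := by abel
    unfold Lead
    rw [this]
    exact low_zero _
  let ρ : FreeGroup (Fin n) →* Mˣ :=
    FreeGroup.lift fun i => Units.ofPowEqOne (1 + tw p e (b i)) (p ^ (e + 1))
      (hlead (b i)).pow_one hN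
  let ab : FreeGroup (Fin n) →* Multiplicative K :=
    FreeGroup.lift (fun i => Multiplicative.ofAdd (b i))
  have hinv : ∀ (u : Mˣ) (β : K), Lead p e u β → Lead p e (u⁻¹ : Mˣ) (-β) := by
    intro u β h
    have h1 : u ^ p ^ (e + 1) = 1 := by
      ext1
      rw [Units.val_pow_eq_pow_val]
      exact h.pow_one
    have h2 : u⁻¹ = u ^ (p ^ (e + 1) - 1) := by
      rw [inv_eq_iff_mul_eq_one, ← pow_succ', Nat.sub_add_cancel (Nat.pos_of_ne_zero hN), h1]
    have h3 : (p ^ (e + 1) - 1) • β = -β := by
      rw [eq_neg_iff_add_eq_zero, ← succ_nsmul, Nat.sub_add_cancel (Nat.pos_of_ne_zero hN),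
        nsmul_eq_mul, (CharP.cast_eq_zero_iff K p _).2 (dvd_pow_self p (Nat.succ_ne_zero e)),
        zero_mul]
    rw [h2, Units.val_pow_eq_pow_val, ← h3]
    exact h.pow p e _
  have hall : ∀ x, Lead p e (ρ x) (Multiplicative.toAdd (ab x)) := by
    intro x
    induction x using FreeGroup.induction_on with
    | C1 => simpa using lead_one p e
    | of i => simpa [ρ, ab] using hlead (b i)
    | inv_of i ih =>
      rw [map_inv, map_inv, toAdd_inv]
      exact hinv _ _ ih
    | mul x y ihx ihy =>
      rw [map_mul, map_mul, toAdd_mul, Units.val_mul]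
      exact ihx.mul p e ihy
  have hzp : (1 + corner p e) ^ p = 1 := by
    rw [corner_pow, ← Nat.cast_smul_eq_nsmul K, CharP.cast_eq_zero K p, zero_smul, add_zero]
  let z : Mˣ := Units.ofPowEqOne (1 + corner p e) p hzp hp.ne_zero
  refine central_group n hn p (p ^ e) m hp (by rwa [← pow_succ]) ρ z ?_ ?_ ?_ ?_
  · ext1
    rw [Units.val_pow_eq_pow_val]
    exact hzp
  · intro h
    have h1 : (1 : M) + corner p e = 1 := congrArg Units.val h
    exact corner_ne p e (by simpa using h1)
  · intro x
    refine Units.ext ?_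
    exact (hall x).comm
  · intro φ i
    obtain ⟨j, hj, h⟩ := tw_pow p e _ (prim_ne_zero b hb φ i)
    refine ⟨j, hj, Units.ext ?_⟩
    rw [Units.val_pow_eq_pow_val, Units.val_pow_eq_pow_val, (hall _).pow_top, h]
    exact (corner_pow p e j).symm

end Pool.Agent.Lib.MP_89352f_al
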