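import Pool.Agent.Lib.MP_89352f_al.NormForm
import Pool.Agent.Lib.MP_89352f_al.Gauss
import Pool.Agent.Lib.MP_89352f_al.Eisen

namespace Pool.Agent.Results.MP_89352f_al.RankThree

open Pool.Agent.Lib.MP_89352f_al QuadraticAlgebra

/-- If `m ≥ 4` is not a squarefree number coprime to `6`, then `Q(3,m)` has an element of
infinite order. -/
theorem result (m : ℕ) (hm : 4 ≤ m) (h : ¬ (Squarefree m ∧ Nat.Coprime m 6)) :
    ∃ g : Q 3 (by norm_num) m, ¬ IsOfFinOrder g := by
  by_cases h2 : 2 ∣ m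
  · rcases hm.eq_or_lt with rfl | h4
    · exact Gauss.four
    · have := (GE2.nice (t := 1) (Or.inr rfl)).isDomain
      exact Eisen.six (by omega) (-1) (even_iff_two_dvd.2 h2).neg_one_pow
        (by simp [Units.ext_iff, QuadraticAlgebra.ext_iff, re_one])
  by_cases h3 : 3 ∣ m
  · obtain ⟨k, rfl⟩ := h3
    refine Eisen.six (by omega) ⟨⟨-1, 1⟩, ⟨0, -1⟩, by ext <;> simp [re_one, im_one],
      by ext <;> simp [re_one, im_one]⟩ ?_
      (by simp [Units.ext_iff, QuadraticAlgebra.ext_iff, im_one])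
    rw [pow_mul]
    convert one_pow k
    ext <;> simp [pow_succ, re_one, im_one]
  have h6 : Nat.Coprime m (2 * 3) := Nat.Coprime.mul_right
    (Nat.prime_two.coprime_iff_not_dvd.2 h2).symm (Nat.prime_three.coprime_iff_not_dvd.2 h3).symm
  have h7 : ¬ Squarefree m := fun h7 => h ⟨h7, h6⟩
  rw [Nat.squarefree_iff_prime_squarefree] at h7
  push Not at h7
  obtain ⟨p, hp, hpm⟩ := h7
  have h8 : p ≠ 2 := fun h => h2 (h ▸ (Dvd.intro _ rfl).trans hpm)
  exact prime_power 3 _ p 1 m hp (by have := Nat.Prime.two_le hp; rw [pow_one]; omega)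
    (by rwa [← sq] at hpm)

end Pool.Agent.Results.MP_89352f_al.RankThree
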